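import Mathlib

set_option autoImplicit false

open Finset

namespace Pool.Agent.H393R2.RothNS

/-! ### Generalised Wronskians -/

section GW

variable {A : Type*} {H : Type*} [CommRing A] [IsDomain A] [Algebra ℚ A]

/-- composition of derivations along a word -/
def dw (d : H → Derivation ℚ A A) : List H → A → A
  | [] => fun x => x
  | (h :: w) => fun x => d h (dw d w x)

/-- Generalised Wronskian lemma -/
theorem gw (d : H → Derivation ℚ A A)
    (htwo : ∀ N Δ : A, Δ ≠ 0 → (∀ h, Δ * d h N = N * d h Δ) → ∃ γ : ℚ, N = γ • Δ) :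
    ∀ (k : ℕ) (f : Fin k → A), LinearIndependent ℚ f →
      ∃ w : Fin k → List H, (∀ a, (w a).length ≤ (a : ℕ)) ∧
        (Matrix.of fun a i => dw d (w a) (f i)).det ≠ 0 := by
  intro k
  induction k with
  | zero =>
    intro f _
    refine ⟨fun a => a.elim0, fun a => a.elim0, ?_⟩
    simp
  | succ k ih =>
    intro f hf
    obtain ⟨w, hw, hΔ⟩ := ih (fun i => f i.castSucc) (hf.comp _ (Fin.castSucc_injective k))
    set M : Matrix (Fin k) (Fin k) A := Matrix.of fun a i => dw d (w a) (f i.castSucc) with hM
    -- the big matrices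
    let B : List H → Matrix (Fin (k+1)) (Fin (k+1)) A :=
      fun v => Matrix.of fun a i => dw d ((Fin.snoc w v : Fin (k+1) → List H) a) (f i)
    by_contra hcon
    have hB : ∀ v : List H, v.length ≤ k → (B v).det = 0 := by
      intro v hv
      by_contra hne
      apply hcon
      refine ⟨Fin.snoc w v, ?_, hne⟩
      intro a
      refine Fin.lastCases ?_ (fun i => ?_) a
      · simpa using hv
      · simpa using hw i
    let N : Fin (k+1) → A := fun j =>
      (-1) ^ (k + (j : ℕ)) * (Matrix.of fun (a : Fin k) (i : Fin k) => dw d (w a) (f (j.succAbove i))).det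
    have hrel : ∀ v : List H, v.length ≤ k → ∑ j, N j * dw d v (f j) = 0 := by
      intro v hv
      have h1 := hB v hv
      rw [Matrix.det_succ_row (B v) (Fin.last k)] at h1
      rw [← h1]
      refine Finset.sum_congr rfl (fun j _ => ?_)
      have h2 : (B v).submatrix (Fin.last k).succAbove j.succAbove =
          (Matrix.of fun (a : Fin k) (i : Fin k) => dw d (w a) (f (j.succAbove i))) := by
        ext a i
        simp [B, Fin.succAbove_last]
      rw [h2]
      have h3 : (B v) (Fin.last k) j = dw d v (f j) := by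
        simp [B]
      rw [h3]
      simp only [N, Fin.val_last]
      ring
    have hNlast : N (Fin.last k) = M.det := by
      simp only [N, Fin.succAbove_last, hM, Fin.val_last]
      have : (-1 : A) ^ (k + k) = 1 := by rw [← two_mul, pow_mul]; simp
      rw [this, one_mul]
    set Δ := M.det with hΔdef
    have hder : ∀ (h : H) (j : Fin (k+1)), Δ * d h (N j) = N j * d h Δ := by
      intro h
      have h1 : ∀ a : Fin k, ∑ j, (Δ * d h (N j) - N j * d h Δ) * dw d (w a) (f j) = 0 := by
        intro a
        have hlen : (w a).length ≤ k := (hw a).trans a.isLt.le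
        have e1 := hrel (w a) hlen
        have e2 := hrel (h :: w a) (by simp; exact lt_of_le_of_lt (hw a) a.isLt)
        have e3 : d h (∑ j, N j * dw d (w a) (f j)) = 0 := by rw [e1]; simp
        rw [map_sum] at e3
        have e4 : ∑ j, (d h (N j)) * dw d (w a) (f j) = 0 := by
          have : ∑ j, d h (N j * dw d (w a) (f j)) =
              ∑ j, N j * dw d (h :: w a) (f j) + ∑ j, (d h (N j)) * dw d (w a) (f j) := by
            rw [← Finset.sum_add_distrib]
            refine Finset.sum_congr rfl (fun j _ => ?_)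
            rw [Derivation.leibniz]
            simp only [smul_eq_mul, dw]
            ring
          rw [this, e2, zero_add] at e3
          exact e3
        have : ∑ j, (Δ * d h (N j) - N j * d h Δ) * dw d (w a) (f j) =
            Δ * ∑ j, (d h (N j)) * dw d (w a) (f j) - d h Δ * ∑ j, N j * dw d (w a) (f j) := by
          rw [Finset.mul_sum, Finset.mul_sum, ← Finset.sum_sub_distrib]
          refine Finset.sum_congr rfl (fun j _ => ?_)
          ring
        rw [this, e4, e1]; ring
      have h2 : M.mulVec (fun i => Δ * d h (N i.castSucc) - N i.castSucc * d h Δ) = 0 := by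
        ext a
        have := h1 a
        rw [Fin.sum_univ_castSucc] at this
        simp only [hNlast] at this
        rw [mul_comm Δ (d h Δ)] at this
        simp only [Matrix.mulVec, dotProduct, hM, Matrix.of_apply, Pi.zero_apply]
        rw [mul_comm (d h Δ) Δ, sub_self, zero_mul, add_zero] at this
        rw [← this]
        refine Finset.sum_congr rfl (fun j _ => ?_)
        ring
      have h3 := Matrix.eq_zero_of_mulVec_eq_zero hΔ h2
      intro j
      refine Fin.lastCases ?_ (fun i => ?_) j
      · rw [hNlast]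
      · exact sub_eq_zero.mp (congrFun h3 i)
    have hγ : ∀ j, ∃ γ : ℚ, N j = γ • Δ := fun j => htwo (N j) Δ hΔ (fun h => hder h j)
    choose γ hγ using hγ
    have e0 := hrel [] (by simp)
    have e1 : Δ * ∑ j, γ j • f j = 0 := by
      rw [← e0, Finset.mul_sum]
      refine Finset.sum_congr rfl (fun j _ => ?_)
      rw [hγ j]
      simp only [dw]
      rw [smul_mul_assoc, mul_smul_comm]
    have e2 : ∑ j, γ j • f j = 0 := (mul_eq_zero.mp e1).resolve_left hΔ
    have e3 := (Fintype.linearIndependent_iff.mp hf) γ e2 (Fin.last k)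
    have e4 := hγ (Fin.last k)
    rw [hNlast, e3, zero_smul] at e4
    exact hΔ e4

end GW

/-! ### two-term lemmas -/

theorem coeff_X_mul_pderiv {σ : Type*} {R : Type*} [CommSemiring R] (h : σ)
    (p : MvPolynomial σ R) (a : σ →₀ ℕ) :
    MvPolynomial.coeff a (MvPolynomial.X h * MvPolynomial.pderiv h p) =
      (a h : R) * MvPolynomial.coeff a p := by
  classical
  induction p using MvPolynomial.induction_on' with
  | monomial u c =>
    rw [MvPolynomial.X_mul_pderiv_monomial]
    rw [MvPolynomial.coeff_smul, MvPolynomial.coeff_monomial]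
    split_ifs with hu
    · subst hu; simp
    · simp
  | add p q hp hq =>
    rw [map_add, mul_add, MvPolynomial.coeff_add, hp, hq, MvPolynomial.coeff_add, mul_add]

theorem two_term_mv {m : ℕ} (N Δ : MvPolynomial (Fin m) ℚ) (hΔ : Δ ≠ 0)
    (h : ∀ i, Δ * MvPolynomial.pderiv i N = N * MvPolynomial.pderiv i Δ) :
    ∃ γ : ℚ, N = γ • Δ := by
  classical
  let mo : MonomialOrder (Fin m) := MonomialOrder.lex
  -- degree comparison
  have key : ∀ N : MvPolynomial (Fin m) ℚ, N ≠ 0 →
      (∀ i, Δ * MvPolynomial.pderiv i N = N * MvPolynomial.pderiv i Δ) →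
      mo.degree N = mo.degree Δ := by
    intro N hN h
    ext i
    have hX : Δ * (MvPolynomial.X i * MvPolynomial.pderiv i N) =
        N * (MvPolynomial.X i * MvPolynomial.pderiv i Δ) := by
      calc _ = MvPolynomial.X i * (Δ * MvPolynomial.pderiv i N) := by ring
        _ = _ := by rw [h i]; ring
    have hsupp : ∀ Q : MvPolynomial (Fin m) ℚ,
        mo.toSyn (mo.degree (MvPolynomial.X i * MvPolynomial.pderiv i Q)) ≤ mo.toSyn (mo.degree Q) := by
      intro Q
      apply MonomialOrder.degree_le_degree_of_support_subset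
      intro a ha
      rw [MvPolynomial.mem_support_iff, coeff_X_mul_pderiv] at ha
      rw [MvPolynomial.mem_support_iff]
      exact right_ne_zero_of_mul ha
    have e := congrArg (MvPolynomial.coeff (mo.degree Δ + mo.degree N)) hX
    rw [MonomialOrder.coeff_mul_of_add_of_degree_le (m := mo) le_rfl (hsupp N)] at e
    rw [add_comm (mo.degree Δ)] at e
    rw [MonomialOrder.coeff_mul_of_add_of_degree_le (m := mo) le_rfl (hsupp Δ)] at e
    rw [coeff_X_mul_pderiv, coeff_X_mul_pderiv] at e
    have hN' : MvPolynomial.coeff (mo.degree N) N ≠ 0 := by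
      rwa [MonomialOrder.coeff_degree_ne_zero_iff]
    have hΔ' : MvPolynomial.coeff (mo.degree Δ) Δ ≠ 0 := by
      rwa [MonomialOrder.coeff_degree_ne_zero_iff]
    have e2 : (((mo.degree N) i : ℚ) - ((mo.degree Δ) i : ℚ)) *
        (MvPolynomial.coeff (mo.degree N) N * MvPolynomial.coeff (mo.degree Δ) Δ) = 0 := by
      linear_combination e
    have e3 := (mul_eq_zero.mp e2).resolve_right (mul_ne_zero hN' hΔ')
    have e4 : ((mo.degree N) i : ℚ) = ((mo.degree Δ) i : ℚ) := sub_eq_zero.mp e3
    exact_mod_cast e4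
  have hΔ' : MvPolynomial.coeff (mo.degree Δ) Δ ≠ 0 := by
    rwa [MonomialOrder.coeff_degree_ne_zero_iff]
  refine ⟨MvPolynomial.coeff (mo.degree Δ) N / MvPolynomial.coeff (mo.degree Δ) Δ, ?_⟩
  set γ := MvPolynomial.coeff (mo.degree Δ) N / MvPolynomial.coeff (mo.degree Δ) Δ with hγ
  by_contra hne
  have hne' : N - γ • Δ ≠ 0 := sub_ne_zero.mpr hne
  have h1 := key (N - γ • Δ) hne' (by
    intro i
    rw [map_sub, Derivation.map_smul, mul_sub, sub_mul, h i, mul_smul_comm, smul_mul_assoc])
  have h2 : MvPolynomial.coeff (mo.degree (N - γ • Δ)) (N - γ • Δ) ≠ 0 := by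
    rwa [MonomialOrder.coeff_degree_ne_zero_iff]
  apply h2
  rw [h1, MvPolynomial.coeff_sub, MvPolynomial.coeff_smul, hγ, smul_eq_mul,
    div_mul_cancel₀ _ hΔ', sub_self]

theorem two_term_poly (N Δ : Polynomial ℚ) (hΔ : Δ ≠ 0)
    (h : Δ * Polynomial.derivative N = N * Polynomial.derivative Δ) :
    ∃ γ : ℚ, N = γ • Δ := by
  have hco : ∀ (Q : Polynomial ℚ) (n : ℕ),
      (Polynomial.X * Polynomial.derivative Q).coeff n = (n : ℚ) * Q.coeff n := by
    intro Q n
    cases n with
    | zero => simp
    | succ n =>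
      rw [Polynomial.coeff_X_mul, Polynomial.coeff_derivative]
      push_cast; ring
  have key : ∀ N : Polynomial ℚ, N ≠ 0 →
      (Δ * Polynomial.derivative N = N * Polynomial.derivative Δ) →
      N.natDegree = Δ.natDegree := by
    intro N hN h
    have hX : Δ * (Polynomial.X * Polynomial.derivative N) =
        N * (Polynomial.X * Polynomial.derivative Δ) := by
      calc _ = Polynomial.X * (Δ * Polynomial.derivative N) := by ring
        _ = _ := by rw [h]; ring
    have hdeg : ∀ Q : Polynomial ℚ, (Polynomial.X * Polynomial.derivative Q).natDegree ≤ Q.natDegree := by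
      intro Q
      rw [Polynomial.natDegree_le_iff_coeff_eq_zero]
      intro n hn
      rw [hco, Polynomial.coeff_eq_zero_of_natDegree_lt hn, mul_zero]
    have e := congrArg (fun P => Polynomial.coeff P (Δ.natDegree + N.natDegree)) hX
    rw [Polynomial.coeff_mul_add_eq_of_natDegree_le le_rfl (hdeg N)] at e
    rw [add_comm Δ.natDegree, Polynomial.coeff_mul_add_eq_of_natDegree_le le_rfl (hdeg Δ)] at e
    rw [hco, hco] at e
    have hN' : N.coeff N.natDegree ≠ 0 := by
      rw [Polynomial.coeff_natDegree]; exact Polynomial.leadingCoeff_ne_zero.mpr hN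
    have hΔ' : Δ.coeff Δ.natDegree ≠ 0 := by
      rw [Polynomial.coeff_natDegree]; exact Polynomial.leadingCoeff_ne_zero.mpr hΔ
    have e2 : ((N.natDegree : ℚ) - (Δ.natDegree : ℚ)) *
        (N.coeff N.natDegree * Δ.coeff Δ.natDegree) = 0 := by
      linear_combination e
    have e3 := (mul_eq_zero.mp e2).resolve_right (mul_ne_zero hN' hΔ')
    have e4 : (N.natDegree : ℚ) = (Δ.natDegree : ℚ) := sub_eq_zero.mp e3
    exact_mod_cast e4
  have hΔ' : Δ.coeff Δ.natDegree ≠ 0 := by
    rw [Polynomial.coeff_natDegree]; exact Polynomial.leadingCoeff_ne_zero.mpr hΔ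
  refine ⟨N.coeff Δ.natDegree / Δ.coeff Δ.natDegree, ?_⟩
  set γ := N.coeff Δ.natDegree / Δ.coeff Δ.natDegree with hγ
  by_contra hne
  have hne' : N - γ • Δ ≠ 0 := sub_ne_zero.mpr hne
  have h1 := key (N - γ • Δ) hne' (by
    rw [Polynomial.derivative_sub, Polynomial.derivative_smul, mul_sub, sub_mul, h,
      mul_smul_comm, smul_mul_assoc])
  have h2 : (N - γ • Δ).coeff (N - γ • Δ).natDegree ≠ 0 := by
    rw [Polynomial.coeff_natDegree]; exact Polynomial.leadingCoeff_ne_zero.mpr hne'
  apply h2
  rw [h1, Polynomial.coeff_sub, Polynomial.coeff_smul, hγ, smul_eq_mul,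
    div_mul_cancel₀ _ hΔ', sub_self]

end Pool.Agent.H393R2.RothNS
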