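import Mathlib
import Pool.Agent.H393R2.Roth1

set_option autoImplicit false

open Finset

namespace Pool.Agent.H393R2.RothNS

section Ops

variable {σ : Type*} [Fintype σ] {R : Type*} [CommRing R]

/-- product of binomial coefficients -/
def ch (a μ : σ →₀ ℕ) : ℕ := ∏ i, (a i).choose (μ i)

/-- divided derivative -/
noncomputable def DD (μ : σ →₀ ℕ) : MvPolynomial σ R →ₗ[R] MvPolynomial σ R :=
  (MvPolynomial.basisMonomials σ R).constr R
    (fun a => MvPolynomial.monomial (a - μ) (ch a μ : R))

theorem DD_monomial (μ a : σ →₀ ℕ) (c : R) :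
    DD μ (MvPolynomial.monomial a c) = MvPolynomial.monomial (a - μ) ((ch a μ : R) * c) := by
  have h1 : (MvPolynomial.monomial a c : MvPolynomial σ R) =
      c • (MvPolynomial.basisMonomials σ R) a := by
    rw [MvPolynomial.coe_basisMonomials, MvPolynomial.smul_monomial, smul_eq_mul, mul_one]
  rw [h1, map_smul, DD, Module.Basis.constr_basis, MvPolynomial.smul_monomial, smul_eq_mul, mul_comm]

theorem ch_eq_zero {a μ : σ →₀ ℕ} (h : ¬ μ ≤ a) : ch a μ = 0 := by
  rw [Finsupp.le_def, not_forall] at h
  obtain ⟨i, hi⟩ := h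
  exact Finset.prod_eq_zero (Finset.mem_univ i) (Nat.choose_eq_zero_of_lt (not_le.mp hi))

theorem coeff_DD (μ κ : σ →₀ ℕ) (P : MvPolynomial σ R) :
    MvPolynomial.coeff κ (DD μ P) = (ch (κ + μ) μ : R) * MvPolynomial.coeff (κ + μ) P := by
  classical
  induction P using MvPolynomial.induction_on' with
  | monomial a c =>
    rw [DD_monomial, MvPolynomial.coeff_monomial, MvPolynomial.coeff_monomial]
    by_cases hle : μ ≤ a
    · by_cases h : a - μ = κ
      · have h' : a = κ + μ := by rw [← h, tsub_add_cancel_of_le hle]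
        rw [if_pos h, if_pos h', h']
      · have h' : a ≠ κ + μ := by
          intro h''; apply h; rw [h'', add_tsub_cancel_right]
        rw [if_neg h, if_neg h', mul_zero]
    · rw [ch_eq_zero hle]
      have h' : a ≠ κ + μ := by
        intro h''; apply hle; rw [h'']; exact le_add_self
      rw [if_neg h']
      simp
  | add p q hp hq =>
    rw [map_add, MvPolynomial.coeff_add, hp, hq, MvPolynomial.coeff_add, mul_add]

/-- translation -/
noncomputable def TT (ζ : σ → R) : MvPolynomial σ R →ₐ[R] MvPolynomial σ R :=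
  MvPolynomial.aeval (fun i => MvPolynomial.X i + MvPolynomial.C (ζ i))

theorem DD_mul_X [DecidableEq σ] (μ : σ →₀ ℕ) (f : MvPolynomial σ R) (h : σ) :
    DD μ (f * MvPolynomial.X h) = DD μ f * MvPolynomial.X h +
      (if μ h = 0 then 0 else DD (μ - Finsupp.single h 1) f) := by
  induction f using MvPolynomial.induction_on' with
  | monomial a c =>
    have hX : (MvPolynomial.X h : MvPolynomial σ R) = MvPolynomial.monomial (Finsupp.single h 1) 1 := rfl
    rw [hX, MvPolynomial.monomial_mul, DD_monomial, DD_monomial, DD_monomial,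
      MvPolynomial.monomial_mul]
    -- split product
    have hsplit : ∀ (b ν : σ →₀ ℕ), ch b ν = (b h).choose (ν h) *
        ∏ i ∈ Finset.univ.erase h, (b i).choose (ν i) := by
      intro b ν
      rw [ch, ← Finset.mul_prod_erase Finset.univ _ (Finset.mem_univ h)]
    have e1 : ∏ i ∈ Finset.univ.erase h, ((a + Finsupp.single h 1 : σ →₀ ℕ) i).choose (μ i) =
        ∏ i ∈ Finset.univ.erase h, (a i).choose (μ i) := by
      refine Finset.prod_congr rfl (fun i hi => ?_)
      have : i ≠ h := (Finset.mem_erase.mp hi).1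
      simp [this.symm]
    have e2 : ∏ i ∈ Finset.univ.erase h, (a i).choose ((μ - Finsupp.single h 1 : σ →₀ ℕ) i) =
        ∏ i ∈ Finset.univ.erase h, (a i).choose (μ i) := by
      refine Finset.prod_congr rfl (fun i hi => ?_)
      have : i ≠ h := (Finset.mem_erase.mp hi).1
      simp [this.symm]
    rw [hsplit (a + Finsupp.single h 1), hsplit a μ, hsplit a (μ - Finsupp.single h 1), e1, e2]
    set Q := ∏ i ∈ Finset.univ.erase h, (a i).choose (μ i) with hQ
    by_cases hμ : μ h = 0
    · rw [if_pos hμ, add_zero]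
      have e0 : a + Finsupp.single h 1 - μ = a - μ + Finsupp.single h 1 := by
        ext i
        by_cases hi : i = h
        · subst hi; simp [hμ]
        · simp [Ne.symm hi]
      rw [e0, hμ, Nat.choose_zero_right, Nat.choose_zero_right]
      simp
    · rw [if_neg hμ]
      have e3 : a - (μ - Finsupp.single h 1) = a + Finsupp.single h 1 - μ := by
        ext i
        by_cases hi : i = h
        · subst hi; simp; omega
        · simp [Ne.symm hi]
      rw [e3]
      obtain ⟨n, hn⟩ := Nat.exists_eq_succ_of_ne_zero hμ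
      have e4 : ((a + Finsupp.single h 1 : σ →₀ ℕ) h).choose (μ h) =
          (a h).choose n + (a h).choose (μ h) := by
        rw [hn]; simp [Nat.choose_succ_succ]
      have e5 : ((a h).choose ((μ - Finsupp.single h 1 : σ →₀ ℕ) h)) = (a h).choose n := by
        rw [show ((μ - Finsupp.single h 1 : σ →₀ ℕ) h) = n by simp [hn]]
      rw [e4, e5]
      by_cases hle : μ h ≤ a h
      · have e6 : a - μ + Finsupp.single h 1 = a + Finsupp.single h 1 - μ := by
          ext i
          by_cases hi : i = h
          · subst hi; simp; omega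
          · simp [Ne.symm hi]
        rw [e6, ← map_add]
        congr 1
        push_cast; ring
      · rw [Nat.choose_eq_zero_of_lt (not_le.mp hle)]
        simp
  | add p q hp hq =>
    rw [add_mul, map_add, hp, hq, map_add, add_mul]
    split_ifs
    · ring
    · rw [map_add]; ring

theorem TT_DD (ζ : σ → R) (f : MvPolynomial σ R) :
    ∀ μ : σ →₀ ℕ, TT ζ (DD μ f) = DD μ (TT ζ f) := by
  classical
  induction f using MvPolynomial.induction_on with
  | C c =>
    intro μ
    have h1 : TT ζ (MvPolynomial.C c) = MvPolynomial.C c := by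
      simp [TT]
    rw [h1]
    have h2 : (MvPolynomial.C c : MvPolynomial σ R) = MvPolynomial.monomial 0 c := rfl
    rw [h2, DD_monomial, zero_tsub, ← MvPolynomial.C_apply]
    simp [TT]
  | add p q hp hq =>
    intro μ
    simp only [map_add, hp, hq]
  | mul_X p i hp =>
    intro μ
    rw [DD_mul_X, map_add, map_mul, map_mul, hp]
    have hX : TT ζ (MvPolynomial.X i) = MvPolynomial.X i + MvPolynomial.C (ζ i) := by
      simp [TT]
    rw [hX, mul_add, mul_add, map_add, DD_mul_X]
    have hC : DD μ (TT ζ p * MvPolynomial.C (ζ i)) = DD μ (TT ζ p) * MvPolynomial.C (ζ i) := by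
      rw [mul_comm, ← MvPolynomial.smul_eq_C_mul, map_smul, MvPolynomial.smul_eq_C_mul, mul_comm]
    rw [hC]
    split_ifs
    · simp
    · rw [hp]; ring

theorem coeff_TT (ζ : σ → R) (κ : σ →₀ ℕ) (P : MvPolynomial σ R) :
    MvPolynomial.coeff κ (TT ζ P) = MvPolynomial.eval ζ (DD κ P) := by
  have h1 : MvPolynomial.coeff κ (TT ζ P) = MvPolynomial.coeff 0 (DD κ (TT ζ P)) := by
    rw [coeff_DD]
    simp [ch]
  rw [h1, ← TT_DD]
  generalize DD κ P = Q
  rw [← MvPolynomial.constantCoeff_eq]
  induction Q using MvPolynomial.induction_on with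
  | C c => simp [TT]
  | add p q hp hq => simp only [map_add, hp, hq]
  | mul_X p i hp =>
    rw [map_mul, map_mul, hp, map_mul]
    congr 1
    simp [TT]

theorem DD_map {S : Type*} [CommRing S] (φ : R →+* S) (μ : σ →₀ ℕ) (P : MvPolynomial σ R) :
    MvPolynomial.map φ (DD μ P) = DD μ (MvPolynomial.map φ P) := by
  ext κ
  rw [MvPolynomial.coeff_map, coeff_DD, coeff_DD, MvPolynomial.coeff_map]
  simp

theorem pderiv_DD [DecidableEq σ] (μ : σ →₀ ℕ) (f : MvPolynomial σ R) (h : σ) :
    MvPolynomial.pderiv h (DD μ f) = ((μ h + 1 : ℕ) : R) • DD (μ + Finsupp.single h 1) f := by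
  induction f using MvPolynomial.induction_on' with
  | monomial a c =>
    rw [DD_monomial, DD_monomial, MvPolynomial.pderiv_monomial, MvPolynomial.smul_monomial]
    have e1 : a - μ - Finsupp.single h 1 = a - (μ + Finsupp.single h 1) := by
      rw [tsub_add_eq_tsub_tsub]
    rw [e1]
    congr 1
    have hsplit : ∀ (b ν : σ →₀ ℕ), ch b ν = (b h).choose (ν h) *
        ∏ i ∈ Finset.univ.erase h, (b i).choose (ν i) := by
      intro b ν
      rw [ch, ← Finset.mul_prod_erase Finset.univ _ (Finset.mem_univ h)]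
    have e2 : ∏ i ∈ Finset.univ.erase h, (a i).choose ((μ + Finsupp.single h 1 : σ →₀ ℕ) i) =
        ∏ i ∈ Finset.univ.erase h, (a i).choose (μ i) := by
      refine Finset.prod_congr rfl (fun i hi => ?_)
      have : i ≠ h := (Finset.mem_erase.mp hi).1
      simp [this.symm]
    rw [hsplit a μ, hsplit a (μ + Finsupp.single h 1), e2]
    have e3 : (μ + Finsupp.single h 1 : σ →₀ ℕ) h = μ h + 1 := by simp
    have e4 : (a - μ : σ →₀ ℕ) h = a h - μ h := rfl
    rw [e3, e4]
    have e5 := Nat.choose_succ_right_eq (a h) (μ h)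
    have e6 : (((a h).choose (μ h + 1) : ℕ) : R) * ((μ h + 1 : ℕ) : R) =
        (((a h).choose (μ h) : ℕ) : R) * ((a h - μ h : ℕ) : R) := by
      exact_mod_cast congrArg (fun n : ℕ => (n : R)) e5
    push_cast at e6 ⊢
    rw [smul_eq_mul]
    linear_combination (-c * ∏ i ∈ Finset.univ.erase h, (((a i).choose (μ i) : ℕ) : R)) * e6
  | add p q hp hq =>
    simp only [map_add, hp, hq, smul_add]

end Ops

/-! ### Wronskian lemmas for polynomials -/

theorem dw_pderiv {m : ℕ} (w : List (Fin m)) :
    ∃ c : ℚ, c ≠ 0 ∧ ∃ μ : Fin m →₀ ℕ, (∑ i, μ i = w.length) ∧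
      ∀ f : MvPolynomial (Fin m) ℚ,
        dw (fun h => MvPolynomial.pderiv (R := ℚ) h) w f = c • DD μ f := by
  induction w with
  | nil =>
    refine ⟨1, one_ne_zero, 0, by simp, fun f => ?_⟩
    rw [one_smul]
    simp only [dw]
    ext κ
    rw [coeff_DD]; simp [ch]
  | cons h w ih =>
    obtain ⟨c, hc, μ, hμ, hf⟩ := ih
    refine ⟨c * ((μ h + 1 : ℕ) : ℚ), mul_ne_zero hc (by positivity), μ + Finsupp.single h 1, ?_, ?_⟩
    · simp [Finset.sum_add_distrib, hμ, Finsupp.single_apply]
    · intro f
      simp only [dw]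
      rw [hf, Derivation.map_smul, pderiv_DD, smul_smul]

theorem gw_mv {m k : ℕ} (f : Fin k → MvPolynomial (Fin m) ℚ) (hf : LinearIndependent ℚ f) :
    ∃ μ : Fin k → (Fin m →₀ ℕ), (∀ a, ∑ i, μ a i ≤ (a : ℕ)) ∧
      (Matrix.of fun a i => DD (μ a) (f i)).det ≠ 0 := by
  obtain ⟨w, hw, hdet⟩ := gw (fun h : Fin m => MvPolynomial.pderiv (R := ℚ) h)
    (fun N Δ hΔ h => two_term_mv N Δ hΔ h) k f hf
  choose c hc μ hμ hfc using fun a => dw_pderiv (w a)
  refine ⟨μ, fun a => by rw [hμ a]; exact hw a, ?_⟩
  intro h0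
  apply hdet
  have : (Matrix.of fun a i => dw (fun h : Fin m => MvPolynomial.pderiv (R := ℚ) h) (w a) (f i)) =
      Matrix.of fun a i => MvPolynomial.C (c a) * (Matrix.of fun a i => DD (μ a) (f i)) a i := by
    ext a i : 2
    simp only [Matrix.of_apply]
    rw [hfc, MvPolynomial.smul_eq_C_mul]
  rw [this, Matrix.det_mul_column, h0, mul_zero]

theorem inj_le_eq {k : ℕ} (l : Fin k → ℕ) (hl : ∀ a, l a ≤ (a : ℕ)) (hinj : Function.Injective l) :
    ∀ a, l a = (a : ℕ) := by
  intro a
  obtain ⟨n, hn⟩ := a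
  induction n using Nat.strong_induction_on with
  | _ n ih =>
    by_contra hne
    have hlt : l ⟨n, hn⟩ < n := lt_of_le_of_ne (hl ⟨n, hn⟩) hne
    have h1 := ih (l ⟨n, hn⟩) hlt (hlt.trans hn)
    have h2 := hinj h1
    have h3 := congrArg Fin.val h2
    simp only at h3
    omega

theorem dw_deriv (w : List Unit) (f : Polynomial ℚ) :
    dw (fun _ : Unit => Polynomial.derivative' (R := ℚ)) w f = Polynomial.derivative^[w.length] f := by
  induction w with
  | nil => simp [dw]
  | cons h w ih =>
    simp only [dw, List.length_cons, Function.iterate_succ', Function.comp]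
    rw [ih]
    rfl

theorem gw_poly {k : ℕ} (g : Fin k → Polynomial ℚ) (hg : LinearIndependent ℚ g) :
    (Matrix.of fun b i : Fin k => Polynomial.hasseDeriv (b : ℕ) (g i)).det ≠ 0 := by
  obtain ⟨w, hw, hdet⟩ := gw (fun _ : Unit => Polynomial.derivative' (R := ℚ))
    (fun N Δ hΔ h => two_term_poly N Δ hΔ (h ())) k g hg
  have hinj : Function.Injective (fun a => (w a).length) := by
    intro a b hab
    by_contra hne
    apply hdet
    apply Matrix.det_zero_of_row_eq hne
    ext1 i
    simp only [Matrix.of_apply]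
    rw [dw_deriv, dw_deriv]
    simp only at hab
    rw [hab]
  have hlen := inj_le_eq _ hw hinj
  intro h0
  apply hdet
  have : (Matrix.of fun a i => dw (fun _ : Unit => Polynomial.derivative' (R := ℚ)) (w a) (g i)) =
      Matrix.of fun (a i : Fin k) => Polynomial.C ((Nat.factorial (a : ℕ) : ℚ)) *
        (Matrix.of fun b i : Fin k => Polynomial.hasseDeriv (b : ℕ) (g i)) a i := by
    ext a i : 2
    simp only [Matrix.of_apply]
    rw [dw_deriv]
    have h1 := hlen a
    rw [h1]
    have h2 := congrFun (Polynomial.factorial_smul_hasseDeriv (R := ℚ) (a : ℕ)) (g i)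
    rw [← h2]
    simp
  rw [this, Matrix.det_mul_column, h0, mul_zero]

end Pool.Agent.H393R2.RothNS
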