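import Mathlib

set_option autoImplicit false

open Finset

namespace Pool.Agent.H393R2

/-! ### kernels -/

lemma kernel_rep (k : ℕ) (hk : 2 ≤ k) (a : ℕ → ℕ)
    (hFG : (Submodule.span ℤ {f : ℕ → ℤ | ∃ e r : ℕ, r < k ^ e ∧
          f = fun n => ((a (k ^ e * n + r) : ℕ) : ℤ)}).FG) :
    ∃ (d : ℕ) (f : Fin d → ℕ → ℤ),
      (∀ e r, r < k ^ e → ∃ c : Fin d → ℤ, ∀ n, ((a (k ^ e * n + r) : ℕ) : ℤ) =
        ∑ i, c i * f i n) ∧
      (∀ r, r < k → ∃ A : Fin d → Fin d → ℤ, ∀ i n, f i (k * n + r) = ∑ j, A i j * f j n) := by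
  obtain ⟨d, f, hf⟩ := Submodule.fg_iff_exists_fin_generating_family.mp hFG
  set K : Set (ℕ → ℤ) := {f : ℕ → ℤ | ∃ e r : ℕ, r < k ^ e ∧
          f = fun n => ((a (k ^ e * n + r) : ℕ) : ℤ)} with hK
  have hrep : ∀ g ∈ Submodule.span ℤ K, ∃ c : Fin d → ℤ, ∀ n, g n = ∑ i, c i * f i n := by
    intro g hg
    rw [← hf, Submodule.mem_span_range_iff_exists_fun] at hg
    obtain ⟨c, hc⟩ := hg
    refine ⟨c, fun n => ?_⟩
    rw [← hc]
    simp [Finset.sum_apply]
  refine ⟨d, f, ?_, ?_⟩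
  · intro e r hr
    exact hrep _ (Submodule.subset_span ⟨e, r, hr, rfl⟩)
  · intro r hr
    have hT : Submodule.span ℤ K ≤ Submodule.comap
        (LinearMap.funLeft ℤ ℤ (fun n : ℕ => k * n + r)) (Submodule.span ℤ K) := by
      rw [Submodule.span_le]
      rintro g ⟨e, r', hr', rfl⟩
      simp only [SetLike.mem_coe, Submodule.mem_comap]
      apply Submodule.subset_span
      refine ⟨e + 1, k ^ e * r + r', ?_, ?_⟩
      · have h1 : k ^ e * r + r' < k ^ e * (r + 1) := by
          rw [mul_add, mul_one]; omega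
        calc k ^ e * r + r' < k ^ e * (r + 1) := h1
          _ ≤ k ^ e * k := Nat.mul_le_mul_left _ hr
          _ = k ^ (e + 1) := by rw [pow_succ]
      · funext n
        simp only [LinearMap.funLeft_apply]
        congr 2
        ring
    have h1 : ∀ i, ∃ c : Fin d → ℤ, ∀ n, f i (k * n + r) = ∑ j, c j * f j n := by
      intro i
      have h2 : f i ∈ Submodule.span ℤ K := by
        rw [← hf]; exact Submodule.subset_span ⟨i, rfl⟩
      have h3 := hT h2
      exact hrep _ h3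
    choose A hA using h1
    exact ⟨A, hA⟩

lemma growth (k : ℕ) (hk : 2 ≤ k) (b : ℕ) (hb : 2 ≤ b) (a : ℕ → ℕ)
    {d : ℕ} (f : Fin d → ℕ → ℤ)
    (h1 : ∀ e r, r < k ^ e → ∃ c : Fin d → ℤ, ∀ n, ((a (k ^ e * n + r) : ℕ) : ℤ) =
        ∑ i, c i * f i n)
    (h2 : ∀ r, r < k → ∃ A : Fin d → Fin d → ℤ, ∀ i n, f i (k * n + r) = ∑ j, A i j * f j n) :
    ∃ H : ℕ, 1 ≤ H ∧ ∀ e m, m < k ^ e → a m < b ^ (H * (e + 1)) := by
  -- a uniform bound for the matrices
  obtain ⟨A', hA'0, hA'⟩ : ∃ A' : ℤ, 0 ≤ A' ∧ ∀ r, r < k → ∀ n,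
      ∑ i, |f i (k * n + r)| ≤ A' * ∑ i, |f i n| := by
    have h3 : ∀ r, ∃ A' : ℤ, 0 ≤ A' ∧ (r < k → ∀ n,
      ∑ i, |f i (k * n + r)| ≤ A' * ∑ i, |f i n|) := by
      intro r
      by_cases hr : r < k
      · obtain ⟨A, hA⟩ := h2 r hr
        refine ⟨∑ i, ∑ j, |A i j|, Finset.sum_nonneg (fun i _ => Finset.sum_nonneg
          (fun j _ => abs_nonneg _)), fun _ n => ?_⟩
        rw [Finset.sum_mul]
        apply Finset.sum_le_sum
        intro i _
        rw [hA i n]
        refine le_trans (Finset.abs_sum_le_sum_abs _ _) ?_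
        rw [Finset.sum_mul]
        apply Finset.sum_le_sum
        intro j _
        rw [abs_mul]
        apply mul_le_mul_of_nonneg_left _ (abs_nonneg _)
        exact Finset.single_le_sum (f := fun i => |f i n|) (fun i _ => abs_nonneg _)
          (Finset.mem_univ j)
      · exact ⟨0, le_refl _, fun h => absurd h hr⟩
    choose A hA0 hA using h3
    refine ⟨∑ r ∈ range k, A r, Finset.sum_nonneg (fun r _ => hA0 r), ?_⟩
    intro r hr n
    refine le_trans (hA r hr n) ?_
    apply mul_le_mul_of_nonneg_right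
    · exact Finset.single_le_sum (f := A) (fun r _ => hA0 r) (Finset.mem_range.mpr hr)
    · exact Finset.sum_nonneg (fun i _ => abs_nonneg _)
  set Q : ℤ := ∑ i, |f i 0| with hQ
  have hQ0 : 0 ≤ Q := Finset.sum_nonneg (fun i _ => abs_nonneg _)
  have hq : ∀ e m, m < k ^ e → ∑ i, |f i m| ≤ A' ^ e * Q := by
    intro e
    induction e with
    | zero =>
      intro m hm
      have : m = 0 := by simpa using hm
      rw [this, pow_zero, one_mul]
    | succ e ih =>
      intro m hm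
      have h3 : m / k < k ^ e := by
        rw [Nat.div_lt_iff_lt_mul (by omega)]
        rwa [pow_succ] at hm
      have h4 := hA' (m % k) (Nat.mod_lt _ (by omega)) (m / k)
      rw [Nat.div_add_mod] at h4
      refine le_trans h4 ?_
      calc A' * ∑ i, |f i (m / k)| ≤ A' * (A' ^ e * Q) :=
            mul_le_mul_of_nonneg_left (ih _ h3) hA'0
        _ = A' ^ (e + 1) * Q := by ring
  obtain ⟨c, hc⟩ := h1 0 0 (by simp)
  have ha : ∀ m, ((a m : ℕ) : ℤ) ≤ (∑ i, |c i|) * ∑ i, |f i m| := by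
    intro m
    have h3 := hc m
    simp only [pow_zero, one_mul, add_zero] at h3
    rw [h3]
    refine le_trans (le_abs_self _) (le_trans (Finset.abs_sum_le_sum_abs _ _) ?_)
    rw [Finset.sum_mul]
    apply Finset.sum_le_sum
    intro j _
    rw [abs_mul]
    apply mul_le_mul_of_nonneg_left _ (abs_nonneg _)
    exact Finset.single_le_sum (f := fun i => |f i m|) (fun i _ => abs_nonneg _)
      (Finset.mem_univ j)
  set c' : ℤ := ∑ i, |c i| with hc'
  have hc'0 : 0 ≤ c' := Finset.sum_nonneg (fun i _ => abs_nonneg _)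
  set H : ℕ := A'.toNat + (c' * Q).toNat + 1 with hH
  refine ⟨H, by omega, ?_⟩
  intro e m hm
  have hb2 : ∀ n : ℕ, n < b ^ n := fun n => Nat.lt_pow_self (by omega)
  have h5 : A' ≤ ((b ^ H : ℕ) : ℤ) := by
    have h6 : A' = (A'.toNat : ℤ) := (Int.toNat_of_nonneg hA'0).symm
    rw [h6]
    have h7 : A'.toNat ≤ b ^ H := le_trans (by omega) (hb2 H).le
    exact_mod_cast h7
  have h8 : c' * Q < ((b ^ H : ℕ) : ℤ) := by
    have h6 : c' * Q = ((c' * Q).toNat : ℤ) := (Int.toNat_of_nonneg (by positivity)).symm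
    rw [h6]
    have h7 : (c' * Q).toNat < b ^ H := lt_of_le_of_lt (by omega) (hb2 H)
    exact_mod_cast h7
  have h9 : ((a m : ℕ) : ℤ) < ((b ^ (H * (e + 1)) : ℕ) : ℤ) := by
    calc ((a m : ℕ) : ℤ) ≤ c' * ∑ i, |f i m| := ha m
      _ ≤ c' * (A' ^ e * Q) := mul_le_mul_of_nonneg_left (hq e m hm) hc'0
      _ = A' ^ e * (c' * Q) := by ring
      _ ≤ ((b ^ H : ℕ) : ℤ) ^ e * (c' * Q) := by
          apply mul_le_mul_of_nonneg_right (pow_le_pow_left₀ hA'0 h5 e) (by positivity)
      _ < ((b ^ H : ℕ) : ℤ) ^ e * ((b ^ H : ℕ) : ℤ) := by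
          apply mul_lt_mul_of_pos_left h8
          have : 0 < b ^ H := by positivity
          positivity
      _ = ((b ^ (H * (e + 1)) : ℕ) : ℤ) := by
          push_cast
          rw [← pow_mul, ← pow_add]
          congr 1
  exact_mod_cast h9

/-- integer relation among `d+1` consecutive vectors -/
lemma exists_relation {d : ℕ} (f : Fin d → ℕ → ℤ) (n0 : ℕ) :
    ∃ lam : Fin (d + 1) → ℤ, lam ≠ 0 ∧ ∀ i, ∑ j : Fin (d + 1), lam j * f i (n0 + j) = 0 := by
  have h1 : ¬ LinearIndependent ℤ (fun j : Fin (d + 1) => (fun i : Fin d => f i (n0 + j))) := by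
    intro h
    have := h.fintype_card_le_finrank
    simp at this
  rw [Fintype.not_linearIndependent_iff] at h1
  obtain ⟨g, hg, j, hj⟩ := h1
  refine ⟨g, fun h => hj (by rw [h]; rfl), fun i => ?_⟩
  have := congrFun hg i
  simpa [Finset.sum_apply] using this

/-! ### windows -/

/-- A nondecreasing integer function of at most linear growth has pairs of close values -/
lemma exists_scale (l : ℕ → ℕ) (H' : ℕ) (hl : ∀ E, l E ≤ H' * (E + 1)) (E0 : ℕ) :
    ∃ E, E0 ≤ E ∧ l (E + 2) ≤ l E + 2 * H' := by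
  by_contra hcon
  push Not at hcon
  have h1 : ∀ i, (2 * H' + 1) * i ≤ l (E0 + 2 * i) := by
    intro i
    induction i with
    | zero => simp
    | succ i ih =>
      have := hcon (E0 + 2 * i) (by omega)
      have h2 : E0 + 2 * (i + 1) = E0 + 2 * i + 2 := by ring
      rw [h2]
      nlinarith
  have h2 := h1 (H' * (E0 + 1) + 1)
  have h3 := hl (E0 + 2 * (H' * (E0 + 1) + 1))
  nlinarith

/-- pigeonhole for windows -/
lemma exists_flat (u : ℕ → ℕ) (C1 : ℕ) (hu : Monotone u) (hC : u (C1 + 1) ≤ u 0 + C1) :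
    ∃ i, i ≤ C1 ∧ u (i + 1) = u i := by
  by_contra hcon
  push Not at hcon
  have h1 : ∀ i, i ≤ C1 + 1 → u 0 + i ≤ u i := by
    intro i
    induction i with
    | zero => intro _; simp
    | succ i ih =>
      intro hi
      have h2 := ih (by omega)
      have h3 := hcon i (by omega)
      have h4 : u i ≤ u (i + 1) := hu (by omega)
      omega
  have := h1 (C1 + 1) le_rfl
  omega

end Pool.Agent.H393R2
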