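import Mathlib
import Pool.Agent.H393R2.App1

set_option autoImplicit false

open Finset

namespace Pool.Agent.H393R2

/-- length of the base-`b` expansion -/
def len (b : ℕ) (a : ℕ → ℕ) (n : ℕ) : ℕ := (Nat.digits b (a n)).length

/-- position -/
def Dpos (b : ℕ) (a : ℕ → ℕ) (n : ℕ) : ℕ := ∑ i ∈ range n, len b a i

lemma Dpos_succ (b : ℕ) (a : ℕ → ℕ) (n : ℕ) : Dpos b a (n + 1) = Dpos b a n + len b a n := by
  unfold Dpos; rw [Finset.sum_range_succ]

lemma Dpos_mono (b : ℕ) (a : ℕ → ℕ) : Monotone (Dpos b a) := by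
  apply monotone_nat_of_le_succ
  intro n
  rw [Dpos_succ]; omega

lemma lt_pow_len {b : ℕ} (hb : 2 ≤ b) (a : ℕ → ℕ) (n : ℕ) : a n < b ^ (len b a n) :=
  Nat.lt_base_pow_length_digits (by omega)

lemma len_pos {b : ℕ} (hb : 2 ≤ b) {a : ℕ → ℕ} (hpos : ∀ n, 0 < a n) (n : ℕ) :
    1 ≤ len b a n := by
  by_contra hcon
  have h1 : len b a n = 0 := by omega
  have h2 := lt_pow_len hb a n
  rw [h1, pow_zero] at h2
  have := hpos n
  omega

lemma len_mono {b : ℕ} {a : ℕ → ℕ} (hmono : StrictMono a) : Monotone (len b a) := by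
  intro m n hmn
  exact Nat.le_length_digits_le b _ _ (hmono.monotone hmn)

lemma len_le_of_lt {b : ℕ} (hb : 2 ≤ b) (a : ℕ → ℕ) (n k : ℕ) (h : a n < b ^ k) :
    len b a n ≤ k := (Nat.digits_length_le_iff (by omega) _).mpr h

/-- terms -/
noncomputable def trm (b : ℕ) (a : ℕ → ℕ) (n : ℕ) : ℝ := (a n : ℝ) / (b : ℝ) ^ (Dpos b a (n + 1))

lemma trm_nonneg (b : ℕ) (a : ℕ → ℕ) (n : ℕ) : 0 ≤ trm b a n := by
  unfold trm; positivity

lemma trm_le {b : ℕ} (hb : 2 ≤ b) (a : ℕ → ℕ) (n : ℕ) :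
    trm b a n ≤ ((b : ℝ) ^ (Dpos b a n))⁻¹ - ((b : ℝ) ^ (Dpos b a (n + 1)))⁻¹ := by
  have hb0 : (0 : ℝ) < b := by
    have : 0 < b := by omega
    exact_mod_cast this
  unfold trm
  rw [Dpos_succ, pow_add]
  have h1 : (a n : ℝ) + 1 ≤ (b : ℝ) ^ (len b a n) := by
    exact_mod_cast lt_pow_len hb a n
  have h2 : (0 : ℝ) < (b : ℝ) ^ (Dpos b a n) := by positivity
  have h3 : (0 : ℝ) < (b : ℝ) ^ (len b a n) := by positivity
  rw [div_le_iff₀ (by positivity)]
  have h4 : (((b : ℝ) ^ (Dpos b a n))⁻¹ - ((b : ℝ) ^ (Dpos b a n) * (b : ℝ) ^ (len b a n))⁻¹) *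
      ((b : ℝ) ^ (Dpos b a n) * (b : ℝ) ^ (len b a n)) = (b : ℝ) ^ (len b a n) - 1 := by
    field_simp
  rw [h4]
  linarith

lemma sum_trm_le {b : ℕ} (hb : 2 ≤ b) (a : ℕ → ℕ) (m N : ℕ) :
    ∑ n ∈ range N, trm b a (n + m) ≤ ((b : ℝ) ^ (Dpos b a m))⁻¹ -
      ((b : ℝ) ^ (Dpos b a (N + m)))⁻¹ := by
  induction N with
  | zero => simp
  | succ N ih =>
    rw [Finset.sum_range_succ]
    have h1 := trm_le hb a (N + m)
    have h2 : N + m + 1 = N + 1 + m := by ring
    rw [h2] at h1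
    linarith

lemma summable_trm {b : ℕ} (hb : 2 ≤ b) (a : ℕ → ℕ) : Summable (trm b a) := by
  apply summable_of_sum_range_le (c := 1) (trm_nonneg b a)
  intro n
  have h1 := sum_trm_le hb a 0 n
  simp only [add_zero] at h1
  refine le_trans h1 ?_
  have h2 : Dpos b a 0 = 0 := by simp [Dpos]
  rw [h2]
  simp only [pow_zero, inv_one]
  have : (0 : ℝ) ≤ ((b : ℝ) ^ (Dpos b a n))⁻¹ := by positivity
  linarith

/-- tails -/
noncomputable def tl (b : ℕ) (a : ℕ → ℕ) (m : ℕ) : ℝ := ∑' n, trm b a (n + m)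

lemma tl_le {b : ℕ} (hb : 2 ≤ b) (a : ℕ → ℕ) (m : ℕ) : tl b a m ≤ ((b : ℝ) ^ (Dpos b a m))⁻¹ := by
  unfold tl
  apply Real.tsum_le_of_sum_range_le (fun n => trm_nonneg b a _)
  intro n
  refine le_trans (sum_trm_le hb a m n) ?_
  have : (0 : ℝ) ≤ ((b : ℝ) ^ (Dpos b a (n + m)))⁻¹ := by positivity
  linarith

lemma tl_pos {b : ℕ} (hb : 2 ≤ b) {a : ℕ → ℕ} (hpos : ∀ n, 0 < a n) (m : ℕ) : 0 < tl b a m := by
  unfold tl
  have hs : Summable (fun n => trm b a (n + m)) := (summable_nat_add_iff m).mpr (summable_trm hb a)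
  apply hs.tsum_pos (fun n => trm_nonneg b a _) 0
  have h1 : (0 : ℝ) < a (0 + m) := by exact_mod_cast hpos _
  have hb0 : (0 : ℝ) < b := by
    have : 0 < b := by omega
    exact_mod_cast this
  unfold trm
  positivity

lemma tl_split {b : ℕ} (hb : 2 ≤ b) (a : ℕ → ℕ) (m N : ℕ) :
    tl b a m = ∑ n ∈ range N, trm b a (n + m) + tl b a (N + m) := by
  unfold tl
  have hs : Summable (fun n => trm b a (n + m)) := (summable_nat_add_iff m).mpr (summable_trm hb a)
  rw [← hs.sum_add_tsum_nat_add N]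
  congr 1
  apply tsum_congr
  intro n
  congr 1
  ring

/-- the number -/
noncomputable def xi (b : ℕ) (a : ℕ → ℕ) : ℝ := ∑' n, trm b a n

lemma xi_split {b : ℕ} (hb : 2 ≤ b) (a : ℕ → ℕ) (m : ℕ) :
    xi b a = ∑ n ∈ range m, trm b a n + tl b a m := by
  unfold xi tl
  rw [← (summable_trm hb a).sum_add_tsum_nat_add m]

/-- the integer part of `b^{D(m)} ξ` -/
lemma int_part {b : ℕ} (hb : 2 ≤ b) (a : ℕ → ℕ) (m : ℕ) :
    ∃ I : ℤ, (b : ℝ) ^ (Dpos b a m) * xi b a = I + (b : ℝ) ^ (Dpos b a m) * tl b a m := by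
  have hb0 : (0 : ℝ) < b := by
    have : 0 < b := by omega
    exact_mod_cast this
  refine ⟨∑ n ∈ range m, (a n : ℤ) * (b : ℤ) ^ (Dpos b a m - Dpos b a (n + 1)), ?_⟩
  rw [xi_split hb a m, mul_add]
  congr 1
  push_cast
  rw [Finset.mul_sum]
  apply Finset.sum_congr rfl
  intro n hn
  have hn' : n + 1 ≤ m := Finset.mem_range.mp hn
  have h1 : Dpos b a (n + 1) ≤ Dpos b a m := Dpos_mono b a hn'
  unfold trm
  rw [pow_sub₀ _ hb0.ne' h1]
  ring

/-- constant length on a window -/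
lemma Dpos_window {b : ℕ} {a : ℕ → ℕ} (m l N : ℕ) (h : ∀ i, i < N → len b a (m + i) = l) :
    ∀ i, i ≤ N → Dpos b a (m + i) = Dpos b a m + i * l := by
  intro i
  induction i with
  | zero => intro _; simp
  | succ i ih =>
    intro hi
    have h1 := ih (by omega)
    have h2 := h i (by omega)
    rw [← add_assoc, Dpos_succ, h1, h2]
    ring

/-- block expansion -/
lemma block_exp {b : ℕ} (hb : 2 ≤ b) (a : ℕ → ℕ) (m l N : ℕ)
    (h : ∀ i, i < N → len b a (m + i) = l) :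
    (b : ℝ) ^ (Dpos b a m) * tl b a m =
      ∑ i ∈ range N, (a (m + i) : ℝ) * ((b : ℝ) ^ ((i + 1) * l))⁻¹ +
        (b : ℝ) ^ (Dpos b a m) * tl b a (m + N) := by
  have hb0 : (0 : ℝ) < b := by
    have : 0 < b := by omega
    exact_mod_cast this
  rw [tl_split hb a m N, mul_add, Finset.mul_sum, add_comm N m]
  congr 1
  apply Finset.sum_congr rfl
  intro i hi
  have hi' := Finset.mem_range.mp hi
  have h1 := Dpos_window m l N h (i + 1) (by omega)
  unfold trm
  rw [show i + m + 1 = m + (i + 1) by ring, h1, add_comm i m, pow_add]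
  have h2 : (b : ℝ) ^ (Dpos b a m) ≠ 0 := by positivity
  have h3 : (b : ℝ) ^ ((i + 1) * l) ≠ 0 := by positivity
  field_simp

lemma tl_window {b : ℕ} (hb : 2 ≤ b) {a : ℕ → ℕ} (hpos : ∀ n, 0 < a n) (m l N : ℕ)
    (h : ∀ i, i < N → len b a (m + i) = l) :
    0 < (b : ℝ) ^ (Dpos b a m) * tl b a (m + N) ∧
      (b : ℝ) ^ (Dpos b a m) * tl b a (m + N) ≤ ((b : ℝ) ^ (N * l))⁻¹ := by
  have hb0 : (0 : ℝ) < b := by
    have : 0 < b := by omega
    exact_mod_cast this
  constructor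
  · have := tl_pos hb hpos (m + N)
    positivity
  · have h1 := tl_le hb a (m + N)
    rw [Dpos_window m l N h N le_rfl, pow_add] at h1
    have h2 : (0 : ℝ) < (b : ℝ) ^ (Dpos b a m) := by positivity
    calc (b : ℝ) ^ (Dpos b a m) * tl b a (m + N) ≤
          (b : ℝ) ^ (Dpos b a m) * ((b : ℝ) ^ (Dpos b a m) * (b : ℝ) ^ (N * l))⁻¹ :=
          mul_le_mul_of_nonneg_left h1 h2.le
      _ = ((b : ℝ) ^ (N * l))⁻¹ := by
          have h3 : (b : ℝ) ^ (N * l) ≠ 0 := by positivity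
          field_simp

/-- irrationality: long windows of constant length force irrationality -/
lemma irrational_of_windows {b : ℕ} (hb : 2 ≤ b) {a : ℕ → ℕ} (hmono : StrictMono a)
    (hpos : ∀ n, 0 < a n)
    (hw : ∀ M : ℕ, ∃ m l : ℕ, ∀ i, i < M → len b a (m + i) = l) : Irrational (xi b a) := by
  have hb0 : (0 : ℝ) < b := by
    have : 0 < b := by omega
    exact_mod_cast this
  rintro ⟨x, hx⟩
  set q : ℕ := x.den with hq
  have hq0 : 0 < q := x.den_pos
  obtain ⟨m, l, hml⟩ := hw (q + 2)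
  -- z i = b^{D(m+i)} tl (m+i)
  set z : ℕ → ℝ := fun i => (b : ℝ) ^ (Dpos b a (m + i)) * tl b a (m + i) with hz
  have hzint : ∀ i, ∃ I : ℤ, (q : ℝ) * z i = I := by
    intro i
    obtain ⟨I, hI⟩ := int_part hb a (m + i)
    refine ⟨(b : ℤ) ^ (Dpos b a (m + i)) * x.num - q * I, ?_⟩
    have h1 : (q : ℝ) * xi b a = x.num := by
      rw [← hx]
      have := Rat.mul_den_eq_num x
      have h2 : ((x * x.den : ℚ) : ℝ) = ((x.num : ℚ) : ℝ) := by rw [this]
      push_cast at h2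
      rw [mul_comm]; exact h2
    push_cast
    rw [← h1]
    rw [hz]
    have h3 : (b : ℝ) ^ (Dpos b a (m + i)) * tl b a (m + i) =
        (b : ℝ) ^ (Dpos b a (m + i)) * xi b a - I := by linarith
    simp only
    rw [h3]
    ring
  have hz1 : ∀ i, i < q + 2 → z i ≤ ((a (m + i) : ℝ) + 1) * ((b : ℝ) ^ l)⁻¹ ∧
      (a (m + i) : ℝ) * ((b : ℝ) ^ l)⁻¹ < z i := by
    intro i hi
    have h1 := block_exp hb a (m + i) l 1 (by
      intro i' hi'
      have : i' = 0 := by omega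
      rw [this, add_zero]; exact hml i hi)
    have h2 := tl_window hb hpos (m + i) l 1 (by
      intro i' hi'
      have : i' = 0 := by omega
      rw [this, add_zero]; exact hml i hi)
    simp only [Finset.sum_range_one, add_zero, zero_add, one_mul] at h1 h2
    rw [hz]
    simp only
    rw [h1]
    constructor
    · linarith [h2.2]
    · linarith [h2.1]
  have hzlt : ∀ i, i + 1 < q + 2 → z i < z (i + 1) := by
    intro i hi
    have h1 := (hz1 i (by omega)).1
    have h2 := (hz1 (i + 1) hi).2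
    refine lt_of_le_of_lt h1 (lt_of_le_of_lt ?_ h2)
    apply mul_le_mul_of_nonneg_right _ (by positivity)
    have h3 : a (m + i) + 1 ≤ a (m + (i + 1)) := hmono (by omega)
    exact_mod_cast h3
  choose Z hZ using hzint
  have hq0R : (0 : ℝ) < q := by exact_mod_cast hq0
  have hZlt : ∀ i, i + 1 < q + 2 → Z i < Z (i + 1) := by
    intro i hi
    have h1 := mul_lt_mul_of_pos_left (hzlt i hi) hq0R
    rw [hZ, hZ] at h1
    exact_mod_cast h1
  have hZ0 : 0 < Z 0 := by
    have h1 : 0 < (q : ℝ) * z 0 := by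
      apply mul_pos hq0R
      have := (hz1 0 (by omega)).2
      refine lt_of_le_of_lt ?_ this
      positivity
    rw [hZ] at h1
    exact_mod_cast h1
  have hZge : ∀ i, i < q + 2 → (i : ℤ) + 1 ≤ Z i := by
    intro i
    induction i with
    | zero => intro _; push_cast; omega
    | succ i ih =>
      intro hi
      have h1 := ih (by omega)
      have h2 := hZlt i hi
      push_cast
      linarith
  have h1 := hZge (q + 1) (by omega)
  have h2 : Z (q + 1) ≤ q := by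
    have h3 : (q : ℝ) * z (q + 1) ≤ q := by
      have h4 := (hz1 (q + 1) (by omega)).1
      have h5 : (a (m + (q + 1)) : ℝ) + 1 ≤ (b : ℝ) ^ l := by
        rw [← hml (q + 1) (by omega)]
        exact_mod_cast lt_pow_len hb a (m + (q + 1))
      have h6 : z (q + 1) ≤ 1 := by
        refine le_trans h4 ?_
        rw [← div_eq_mul_inv, div_le_one (by positivity)]
        exact h5
      nlinarith
    rw [hZ] at h3
    exact_mod_cast h3
  push_cast at h1
  omega

end Pool.Agent.H393R2
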