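import Mathlib
import Pool.Agent.H393R2.App2

set_option autoImplicit false

open Finset

namespace Pool.Agent.H393R2

/-- The windows. -/
lemma windows (k : ℕ) (hk : 2 ≤ k) (b : ℕ) (hb : 2 ≤ b) (a : ℕ → ℕ) (hmono : StrictMono a)
    (hpos : ∀ n, 0 < a n) (H : ℕ) (hH : 1 ≤ H)
    (hgr : ∀ e m, m < k ^ e → a m < b ^ (H * (e + 1))) (d : ℕ) :
    ∃ (s C1 : ℕ), 1 ≤ s ∧ ∀ E0 : ℕ, ∃ e n0 l : ℕ, E0 ≤ e ∧ n0 ≤ 2 * k ^ s ∧ 1 ≤ l ∧
      (∀ i, i < k ^ e * (d + 1) → len b a (k ^ e * n0 + i) = l) ∧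
      k ^ e ≤ Dpos b a (k ^ e * n0) ∧
      Dpos b a (k ^ e * n0) ≤ n0 * (l * k ^ e) ∧
      l * k ^ e ≤ (C1 + 1) * Dpos b a (k ^ e * n0) := by
  -- growth of the lengths
  have hk1 : ∀ E, 1 ≤ k ^ E := fun E => Nat.one_le_pow _ _ (by omega)
  have hlenE : ∀ E, len b a (k ^ E) ≤ (2 * H) * (E + 1) := by
    intro E
    have h1 : k ^ E < k ^ (E + 1) := Nat.pow_lt_pow_right (by omega) (by omega)
    have h2 := hgr (E + 1) (k ^ E) h1
    have h3 := len_le_of_lt hb a _ _ h2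
    nlinarith
  set C1 : ℕ := 2 * (2 * H) with hC1
  set s : ℕ := (C1 + 1) * (d + 1) with hs
  have hs1 : 1 ≤ s := by rw [hs]; nlinarith
  have hks : s < k ^ s := Nat.lt_pow_self (by omega)
  refine ⟨s, C1, hs1, ?_⟩
  intro E0
  obtain ⟨E, hE, hEl⟩ := exists_scale (fun E => len b a (k ^ E)) (2 * H) hlenE (E0 + s)
  obtain ⟨e, he⟩ : ∃ e, E + 1 = e + s := ⟨E + 1 - s, by omega⟩
  have hkE : k ^ (E + 1) = k ^ e * k ^ s := by rw [he, pow_add]
  have hlm := len_mono (b := b) hmono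
  obtain ⟨i, hi, hflat⟩ := exists_flat (fun i => len b a (k ^ e * (k ^ s + i * (d + 1)))) C1
    (by
      intro i j hij
      apply hlm
      apply Nat.mul_le_mul_left
      have : i * (d + 1) ≤ j * (d + 1) := Nat.mul_le_mul_right _ hij
      omega)
    (by
      simp only [zero_mul, add_zero]
      have h1 : k ^ e * (k ^ s + (C1 + 1) * (d + 1)) ≤ k ^ (E + 2) := by
        calc k ^ e * (k ^ s + (C1 + 1) * (d + 1)) ≤ k ^ e * (k ^ s + k ^ s) := by
              apply Nat.mul_le_mul_left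
              omega
          _ = k ^ (E + 1) * 2 := by rw [hkE]; ring
          _ ≤ k ^ (E + 1) * k := Nat.mul_le_mul_left _ hk
          _ = k ^ (E + 2) := by rw [← pow_succ]
      have h2 : len b a (k ^ e * (k ^ s + (C1 + 1) * (d + 1))) ≤ len b a (k ^ (E + 2)) := hlm h1
      have h3 : len b a (k ^ E) ≤ len b a (k ^ e * k ^ s) := by
        apply hlm
        rw [← hkE]
        exact Nat.pow_le_pow_right (by omega) (by omega)
      have h4 : len b a (k ^ (E + 2)) ≤ len b a (k ^ E) + 2 * (2 * H) := hEl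
      omega)
  set n0 : ℕ := k ^ s + i * (d + 1) with hn0
  have hi1 : i * (d + 1) ≤ s := by
    rw [hs]; exact Nat.mul_le_mul_right _ (by omega)
  have hn0le : n0 ≤ 2 * k ^ s := by omega
  have hn0ge : k ^ s ≤ n0 := by omega
  set l : ℕ := len b a (k ^ e * n0) with hl
  have hconst : ∀ j, j < k ^ e * (d + 1) → len b a (k ^ e * n0 + j) = l := by
    intro j hj
    apply le_antisymm
    · rw [← hflat]
      apply hlm
      have h5 : k ^ e * (k ^ s + (i + 1) * (d + 1)) = k ^ e * n0 + k ^ e * (d + 1) := by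
        rw [hn0]; ring
      rw [h5]; omega
    · apply hlm; omega
  have hl1 : 1 ≤ l := len_pos hb hpos _
  have hDlow : ∀ m, m ≤ Dpos b a m := by
    intro m
    unfold Dpos
    calc m = ∑ i ∈ range m, 1 := by simp
      _ ≤ _ := Finset.sum_le_sum (fun i _ => len_pos hb hpos i)
  refine ⟨e, n0, l, by omega, hn0le, hl1, hconst, ?_, ?_, ?_⟩
  · refine le_trans ?_ (hDlow _)
    calc k ^ e = k ^ e * 1 := by ring
      _ ≤ k ^ e * n0 := Nat.mul_le_mul_left _ (le_trans (hk1 s) hn0ge)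
  · unfold Dpos
    calc ∑ i ∈ range (k ^ e * n0), len b a i ≤ ∑ i ∈ range (k ^ e * n0), l := by
          apply Finset.sum_le_sum
          intro i hi
          exact hlm (Finset.mem_range.mp hi).le
      _ = n0 * (l * k ^ e) := by simp; ring
  · -- lower bound for D
    have hEn : k ^ E + k ^ E ≤ k ^ e * n0 := by
      calc k ^ E + k ^ E = k ^ E * 2 := by ring
        _ ≤ k ^ E * k := Nat.mul_le_mul_left _ hk
        _ = k ^ e * k ^ s := by rw [← pow_succ, hkE]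
        _ ≤ k ^ e * n0 := Nat.mul_le_mul_left _ hn0ge
    have h6 : k ^ E * len b a (k ^ E) ≤ Dpos b a (k ^ e * n0) := by
      refine le_trans ?_ (Dpos_mono b a hEn)
      have h7 : ∀ j, Dpos b a (k ^ E) + j * len b a (k ^ E) ≤ Dpos b a (k ^ E + j) := by
        intro j
        induction j with
        | zero => simp
        | succ j ih =>
          rw [← add_assoc, Dpos_succ]
          have : len b a (k ^ E) ≤ len b a (k ^ E + j) := hlm (by omega)
          nlinarith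
      have := h7 (k ^ E)
      omega
    have h8 : l ≤ len b a (k ^ E) + C1 := by
      have h9 : l ≤ len b a (k ^ (E + 2)) := by
        apply hlm
        calc k ^ e * n0 ≤ k ^ e * (2 * k ^ s) := Nat.mul_le_mul_left _ hn0le
          _ = k ^ (E + 1) * 2 := by rw [hkE]; ring
          _ ≤ k ^ (E + 1) * k := Nat.mul_le_mul_left _ hk
          _ = k ^ (E + 2) := by rw [← pow_succ]
      have h4 : len b a (k ^ (E + 2)) ≤ len b a (k ^ E) + 2 * (2 * H) := hEl
      omega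
    have h9 : 1 ≤ len b a (k ^ E) := len_pos hb hpos _
    have h10 : l ≤ (C1 + 1) * len b a (k ^ E) := by nlinarith
    have h11 : k ^ e ≤ k ^ E := Nat.pow_le_pow_right (by omega) (by omega)
    calc l * k ^ e ≤ ((C1 + 1) * len b a (k ^ E)) * k ^ E := Nat.mul_le_mul h10 h11
      _ = (C1 + 1) * (k ^ E * len b a (k ^ E)) := by ring
      _ ≤ (C1 + 1) * Dpos b a (k ^ e * n0) := Nat.mul_le_mul_left _ h6

/-- cancellation: the main identity -/
lemma main_identity (k : ℕ) (b : ℕ) (hb : 2 ≤ b) (a : ℕ → ℕ)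
    (hpos : ∀ n, 0 < a n) {d : ℕ} (f : Fin d → ℕ → ℤ)
    (h1 : ∀ e r, r < k ^ e → ∃ c : Fin d → ℤ, ∀ n, ((a (k ^ e * n + r) : ℕ) : ℤ) =
        ∑ i, c i * f i n)
    (n0 : ℕ) (lam : Fin (d + 1) → ℤ)
    (hlam : ∀ i, ∑ j : Fin (d + 1), lam j * f i (n0 + j) = 0) (e l : ℕ)
    (hconst : ∀ i, i < k ^ e * (d + 1) → len b a (k ^ e * n0 + i) = l) :
    ∃ P : ℤ, |xi b a * ∑ j : Fin (d + 1), (lam j : ℝ) *
        (b : ℝ) ^ (Dpos b a (k ^ e * n0) + (j : ℕ) * (l * k ^ e)) - P| ≤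
      (∑ j, |(lam j : ℝ)|) * ((b : ℝ) ^ (l * k ^ e))⁻¹ := by
  have hb0 : (0 : ℝ) < b := by
    have : 0 < b := by omega
    exact_mod_cast this
  -- positions of blocks
  have hD : ∀ j : ℕ, j ≤ d + 1 → Dpos b a (k ^ e * (n0 + j)) =
      Dpos b a (k ^ e * n0) + j * (l * k ^ e) := by
    intro j hj
    have h2 := Dpos_window (k ^ e * n0) l (k ^ e * (d + 1)) hconst (k ^ e * j)
      (Nat.mul_le_mul_left _ hj)
    rw [mul_add, h2]
    ring
  have hcj : ∀ j : ℕ, j < d + 1 → ∀ i, i < k ^ e → len b a (k ^ e * (n0 + j) + i) = l := by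
    intro j hj i hi
    have h2 : k ^ e * (n0 + j) + i = k ^ e * n0 + (k ^ e * j + i) := by ring
    rw [h2]
    apply hconst
    calc k ^ e * j + i < k ^ e * j + k ^ e := by omega
      _ = k ^ e * (j + 1) := by ring
      _ ≤ k ^ e * (d + 1) := Nat.mul_le_mul_left _ hj
  choose I hI using fun j : Fin (d + 1) => int_part hb a (k ^ e * (n0 + j))
  refine ⟨∑ j, lam j * I j, ?_⟩
  have h3 : xi b a * ∑ j : Fin (d + 1), (lam j : ℝ) *
        (b : ℝ) ^ (Dpos b a (k ^ e * n0) + (j : ℕ) * (l * k ^ e)) -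
        ((∑ j, lam j * I j : ℤ) : ℝ) =
      ∑ j : Fin (d + 1), (lam j : ℝ) * ((b : ℝ) ^ (Dpos b a (k ^ e * (n0 + j))) *
        tl b a (k ^ e * (n0 + j))) := by
    push_cast
    rw [Finset.mul_sum, ← Finset.sum_sub_distrib]
    apply Finset.sum_congr rfl
    intro j _
    have h4 := hI j
    rw [hD j (by omega)] at h4 ⊢
    have h5 : (b : ℝ) ^ (Dpos b a (k ^ e * n0) + (j : ℕ) * (l * k ^ e)) *
        tl b a (k ^ e * (n0 + j)) = (b : ℝ) ^ (Dpos b a (k ^ e * n0) + (j : ℕ) * (l * k ^ e)) *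
        xi b a - I j := by linarith
    rw [h5]
    ring
  rw [h3]
  have h6 : ∀ j : Fin (d + 1), (b : ℝ) ^ (Dpos b a (k ^ e * (n0 + j))) *
        tl b a (k ^ e * (n0 + j)) = ∑ i ∈ range (k ^ e), (a (k ^ e * (n0 + j) + i) : ℝ) *
          ((b : ℝ) ^ ((i + 1) * l))⁻¹ + (b : ℝ) ^ (Dpos b a (k ^ e * (n0 + j))) *
          tl b a (k ^ e * (n0 + j) + k ^ e) := fun j =>
    block_exp hb a (k ^ e * (n0 + j)) l (k ^ e) (hcj j j.2)
  have h7 : ∑ j : Fin (d + 1), (lam j : ℝ) * ∑ i ∈ range (k ^ e),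
      (a (k ^ e * (n0 + j) + i) : ℝ) * ((b : ℝ) ^ ((i + 1) * l))⁻¹ = 0 := by
    simp only [Finset.mul_sum]
    rw [Finset.sum_comm]
    apply Finset.sum_eq_zero
    intro i hi
    obtain ⟨c, hc⟩ := h1 e i (Finset.mem_range.mp hi)
    have h8 : ∑ j : Fin (d + 1), (lam j : ℤ) * ((a (k ^ e * (n0 + j) + i) : ℕ) : ℤ) = 0 := by
      have h9 : ∀ j : Fin (d + 1), (lam j : ℤ) * ((a (k ^ e * (n0 + j) + i) : ℕ) : ℤ) =
          ∑ i', c i' * (lam j * f i' (n0 + j)) := by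
        intro j
        rw [hc, Finset.mul_sum]
        apply Finset.sum_congr rfl
        intro i' _
        ring
      simp only [h9]
      rw [Finset.sum_comm]
      apply Finset.sum_eq_zero
      intro i' _
      rw [← Finset.mul_sum, hlam i', mul_zero]
    have h10 : ∑ j : Fin (d + 1), (lam j : ℝ) * (a (k ^ e * (n0 + j) + i) : ℝ) = 0 := by
      exact_mod_cast h8
    calc ∑ j : Fin (d + 1), (lam j : ℝ) * ((a (k ^ e * (n0 + j) + i) : ℝ) *
          ((b : ℝ) ^ ((i + 1) * l))⁻¹)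
        = (∑ j : Fin (d + 1), (lam j : ℝ) * (a (k ^ e * (n0 + j) + i) : ℝ)) *
          ((b : ℝ) ^ ((i + 1) * l))⁻¹ := by
          rw [Finset.sum_mul]
          apply Finset.sum_congr rfl
          intro j _
          ring
      _ = 0 := by rw [h10, zero_mul]
  have h11 : ∑ j : Fin (d + 1), (lam j : ℝ) * ((b : ℝ) ^ (Dpos b a (k ^ e * (n0 + j))) *
        tl b a (k ^ e * (n0 + j))) = ∑ j : Fin (d + 1), (lam j : ℝ) *
        ((b : ℝ) ^ (Dpos b a (k ^ e * (n0 + j))) * tl b a (k ^ e * (n0 + j) + k ^ e)) := by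
    have h13 : ∀ j : Fin (d + 1), (lam j : ℝ) * ((b : ℝ) ^ (Dpos b a (k ^ e * (n0 + j))) *
        tl b a (k ^ e * (n0 + j))) = (lam j : ℝ) * ∑ i ∈ range (k ^ e),
      (a (k ^ e * (n0 + j) + i) : ℝ) * ((b : ℝ) ^ ((i + 1) * l))⁻¹ + (lam j : ℝ) *
        ((b : ℝ) ^ (Dpos b a (k ^ e * (n0 + j))) * tl b a (k ^ e * (n0 + j) + k ^ e)) := by
      intro j
      rw [h6 j]
      ring
    rw [Finset.sum_congr rfl (fun j _ => h13 j), Finset.sum_add_distrib, h7, zero_add]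
  rw [h11]
  refine le_trans (Finset.abs_sum_le_sum_abs _ _) ?_
  rw [Finset.sum_mul]
  apply Finset.sum_le_sum
  intro j _
  rw [abs_mul]
  apply mul_le_mul_of_nonneg_left _ (abs_nonneg _)
  have h12 := tl_window hb hpos (k ^ e * (n0 + j)) l (k ^ e) (hcj j j.2)
  rw [abs_of_pos h12.1, mul_comm l]
  exact h12.2

/-- The application, from the uniform Theorem A. -/
theorem application_of
    (thmA' : ∀ (b : ℕ), 2 ≤ b → ∀ (ξ : ℝ), IsAlgebraic ℚ ξ → Irrational ξ → ∀ (d : ℕ) (δ : ℝ),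
      0 < δ →
      ∃ ε : ℝ, 0 < ε ∧ ∃ L0 : ℕ, ∀ L β : ℕ, L0 ≤ L → δ * L ≤ β → δ * β ≤ L →
      ∀ lam : Fin (d + 1) → ℤ, lam ≠ 0 → (∀ j, |(lam j : ℝ)| ≤ (b : ℝ) ^ (ε * L)) → ∀ P : ℤ,
        (b : ℝ) ^ (-(δ * L)) < |ξ * ∑ j, (lam j : ℝ) * (b : ℝ) ^ (L + (j : ℕ) * β) - P|) :
    ∀ (k : ℕ), 2 ≤ k → ∀ (b : ℕ), 2 ≤ b → ∀ (a : ℕ → ℕ), StrictMono a → (∀ n, 0 < a n) →
      (Submodule.span ℤ {f : ℕ → ℤ | ∃ e r : ℕ, r < k ^ e ∧
          f = fun n => ((a (k ^ e * n + r) : ℕ) : ℤ)}).FG →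
      Transcendental ℚ
        (∑' n : ℕ, (a n : ℝ) /
          (b : ℝ) ^ (∑ i ∈ Finset.range (n + 1), (Nat.digits b (a i)).length)) := by
  intro k hk b hb a hmono hpos hFG
  have hxi : (∑' n : ℕ, (a n : ℝ) /
          (b : ℝ) ^ (∑ i ∈ Finset.range (n + 1), (Nat.digits b (a i)).length)) = xi b a := rfl
  rw [hxi]
  have hbR : (2 : ℝ) ≤ b := by exact_mod_cast hb
  have hb0 : (0 : ℝ) < b := by linarith
  have hb1 : (1 : ℝ) < b := by linarith
  have hlogb : 0 < Real.log b := Real.log_pos hb1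
  obtain ⟨d, f, hf1, hf2⟩ := kernel_rep k hk a hFG
  obtain ⟨H, hH, hgr⟩ := growth k hk b hb a f hf1 hf2
  obtain ⟨s, C1, hs, hwin⟩ := windows k hk b hb a hmono hpos H hH hgr d
  -- irrationality
  have hirr : Irrational (xi b a) := by
    apply irrational_of_windows hb hmono hpos
    intro M
    obtain ⟨e, n0, l, he, _, _, hc, _⟩ := hwin M
    refine ⟨k ^ e * n0, l, fun i hi => hc i ?_⟩
    have h1 : M < k ^ M := Nat.lt_pow_self (by omega)
    have h2 : k ^ M ≤ k ^ e := Nat.pow_le_pow_right (by omega) he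
    nlinarith
  intro halg
  -- relations
  choose lam hlam0 hlam using fun n0 : ℕ => exists_relation f n0
  -- bound for the coefficients
  set Λ : ℝ := 1 + ∑ n0 ∈ range (2 * k ^ s + 1), ∑ j, |(lam n0 j : ℝ)| with hΛ
  have hΛle : ∀ n0, n0 ≤ 2 * k ^ s → ∑ j, |(lam n0 j : ℝ)| ≤ Λ := by
    intro n0 hn0
    have h1 : ∑ j, |(lam n0 j : ℝ)| ≤ ∑ n0 ∈ range (2 * k ^ s + 1), ∑ j, |(lam n0 j : ℝ)| :=
      Finset.single_le_sum (f := fun n0 => ∑ j, |(lam n0 j : ℝ)|)
        (fun n _ => Finset.sum_nonneg (fun j _ => abs_nonneg _))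
        (Finset.mem_range.mpr (by omega))
    rw [hΛ]; linarith
  have hΛ1 : 1 ≤ Λ := by
    rw [hΛ]
    have : 0 ≤ ∑ n0 ∈ range (2 * k ^ s + 1), ∑ j, |(lam n0 j : ℝ)| :=
      Finset.sum_nonneg (fun n _ => Finset.sum_nonneg (fun j _ => abs_nonneg _))
    linarith
  have hΛ0 : 0 < Λ := by linarith
  set δ : ℝ := 1 / (4 * (k : ℝ) ^ s * (C1 + 1)) with hδ
  have hks0 : (0 : ℝ) < (k : ℝ) ^ s := by
    have : 0 < k := by omega
    positivity
  have hδ0 : 0 < δ := by rw [hδ]; positivity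
  obtain ⟨ε, hε, L0, hA⟩ := thmA' b hb (xi b a) halg hirr d δ hδ0
  set E0 : ℕ := max L0 (max ⌈Real.log Λ / (ε * Real.log b)⌉₊ ⌈2 * Real.log Λ / Real.log b⌉₊)
    with hE0
  obtain ⟨e, n0, l, he, hn0, hl, hconst, hD1, hD2, hD3⟩ := hwin E0
  set L : ℕ := Dpos b a (k ^ e * n0) with hL
  set β : ℕ := l * k ^ e with hβ
  have hek : e < k ^ e := Nat.lt_pow_self (by omega)
  have heL : E0 ≤ L := by omega
  have heβ : E0 ≤ β := by
    have : k ^ e ≤ l * k ^ e := Nat.le_mul_of_pos_left _ (by omega)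
    omega
  obtain ⟨P, hP⟩ := main_identity k b hb a hpos f hf1 n0 (lam n0) (hlam n0) e l hconst
  have hlogΛ : 0 ≤ Real.log Λ := Real.log_nonneg hΛ1
  -- comparison of L and β
  have hLβ : (L : ℝ) ≤ 2 * (k : ℝ) ^ s * β := by
    have h1 : L ≤ (2 * k ^ s) * β := le_trans hD2 (Nat.mul_le_mul_right _ hn0)
    exact_mod_cast h1
  have hβL : (β : ℝ) ≤ (C1 + 1) * L := by exact_mod_cast hD3
  have hL0' : (0 : ℝ) ≤ L := Nat.cast_nonneg _
  have hβ0' : (0 : ℝ) ≤ β := Nat.cast_nonneg _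
  have hC1' : (0 : ℝ) ≤ C1 := Nat.cast_nonneg _
  have hk1' : (1 : ℝ) ≤ (k : ℝ) ^ s := by
    apply one_le_pow₀
    have : 1 ≤ k := by omega
    exact_mod_cast this
  have hδL : δ * L ≤ β / 2 := by
    rw [hδ, one_div, inv_mul_le_iff₀ (by positivity)]
    calc (L : ℝ) ≤ 2 * (k : ℝ) ^ s * β := hLβ
      _ = 2 * (k : ℝ) ^ s * β * 1 := by ring
      _ ≤ 2 * (k : ℝ) ^ s * β * (C1 + 1) := by
          apply mul_le_mul_of_nonneg_left _ (by positivity)
          linarith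
      _ = 4 * (k : ℝ) ^ s * (C1 + 1) * (β / 2) := by ring
  have hδβ : δ * β ≤ L := by
    rw [hδ, one_div, inv_mul_le_iff₀ (by positivity)]
    calc (β : ℝ) ≤ (C1 + 1) * L := hβL
      _ = 1 * ((C1 + 1) * L) := by ring
      _ ≤ (4 * (k : ℝ) ^ s) * ((C1 + 1) * L) := by
          apply mul_le_mul_of_nonneg_right _ (by positivity)
          linarith
      _ = 4 * (k : ℝ) ^ s * (C1 + 1) * L := by ring
  have h1 := hA L β (le_trans (le_max_left _ _) heL) (by linarith) hδβ (lam n0) (hlam0 n0)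
    (by
      intro j
      have h2 : |(lam n0 j : ℝ)| ≤ Λ := by
        refine le_trans ?_ (hΛle n0 hn0)
        exact Finset.single_le_sum (f := fun j => |(lam n0 j : ℝ)|)
          (fun j _ => abs_nonneg _) (Finset.mem_univ j)
      refine le_trans h2 ?_
      rw [Real.rpow_def_of_pos hb0]
      calc Λ = Real.exp (Real.log Λ) := (Real.exp_log hΛ0).symm
        _ ≤ Real.exp (Real.log b * (ε * L)) := by
          apply Real.exp_le_exp.mpr
          have h3 : Real.log Λ / (ε * Real.log b) ≤ L := by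
            refine le_trans (Nat.le_ceil _) ?_
            exact_mod_cast le_trans (le_trans (le_max_left _ _) (le_max_right _ _)) heL
          rw [div_le_iff₀ (by positivity)] at h3
          linarith) P
  have h2 : (∑ j, |(lam n0 j : ℝ)|) * ((b : ℝ) ^ β)⁻¹ ≤ (b : ℝ) ^ (-(δ * L)) := by
    rw [Real.rpow_def_of_pos hb0]
    have h3 : ((b : ℝ) ^ β)⁻¹ = Real.exp (-(β * Real.log b)) := by
      rw [← Real.rpow_natCast, Real.rpow_def_of_pos hb0, ← Real.exp_neg, mul_comm]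
    rw [h3]
    calc (∑ j, |(lam n0 j : ℝ)|) * Real.exp (-(β * Real.log b)) ≤
          Λ * Real.exp (-(β * Real.log b)) :=
          mul_le_mul_of_nonneg_right (hΛle n0 hn0) (Real.exp_pos _).le
      _ = Real.exp (Real.log Λ) * Real.exp (-(β * Real.log b)) := by rw [Real.exp_log hΛ0]
      _ = Real.exp (Real.log Λ + -(β * Real.log b)) := by rw [Real.exp_add]
      _ ≤ Real.exp (Real.log b * -(δ * L)) := by
          apply Real.exp_le_exp.mpr
          have h4 : 2 * Real.log Λ / Real.log b ≤ β := by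
            refine le_trans (Nat.le_ceil _) ?_
            exact_mod_cast le_trans (le_trans (le_max_right _ _) (le_max_right _ _)) heβ
          rw [div_le_iff₀ hlogb] at h4
          have h5 := mul_le_mul_of_nonneg_left hδL hlogb.le
          nlinarith
  exact absurd (le_trans hP h2) (not_le.mpr h1)

end Pool.Agent.H393R2
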