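import Mathlib

set_option autoImplicit false

open Finset

namespace Pool.Agent.H393R2

/-- exponent vectors: block `h` has `n` exponents with sum `r h` -/
def Dset (m n : ℕ) (r : Fin m → ℕ) : Finset (Fin m → Fin n → ℕ) :=
  Fintype.piFinset (fun h => Finset.piAntidiag (Finset.univ : Finset (Fin n)) (r h))

lemma mem_Dset {m n : ℕ} {r : Fin m → ℕ} {a : Fin m → Fin n → ℕ} :
    a ∈ Dset m n r ↔ ∀ h, ∑ l, a h l = r h := by
  simp [Dset, Fintype.mem_piFinset, Finset.mem_piAntidiag]

/-- the block factor of the divided derivative -/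
def bterm {R : Type*} [CommRing R] {n : ℕ} (j1 : Fin n) (k : ℕ) (a : Fin n → ℕ)
    (W : Fin n → R) : R :=
  (((a j1).choose k : ℕ) : R) * ∏ l, W l ^ (a l - if l = j1 then k else 0)

/-- one-variable identity -/
lemma one_var {R : Type*} [CommRing R] (a k : ℕ) (M z : R) :
    ∑ j ∈ range (a + 1), ((a.choose j : ℕ) : R) * z ^ (a - j) * (((j.choose k : ℕ) : R)
      * M ^ (j - k)) = ((a.choose k : ℕ) : R) * (M + z) ^ (a - k) := by
  by_cases hk : k ≤ a
  · rw [add_pow, Finset.mul_sum]
    have h1 : ∑ j ∈ range (a + 1), ((a.choose j : ℕ) : R) * z ^ (a - j) * (((j.choose k : ℕ) : R)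
        * M ^ (j - k)) = ∑ j ∈ Finset.Ico k (a + 1), ((a.choose j : ℕ) : R) * z ^ (a - j) *
        (((j.choose k : ℕ) : R) * M ^ (j - k)) := by
      symm
      apply Finset.sum_subset
      · intro j hj
        simp at hj ⊢
        omega
      · intro j hj hj2
        simp at hj hj2
        have : j < k := by
          by_contra hcon
          push Not at hcon
          have := hj2 hcon
          omega
        rw [Nat.choose_eq_zero_of_lt this]
        simp
    rw [h1, Finset.sum_Ico_eq_sum_range]
    have h2 : a + 1 - k = a - k + 1 := by omega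
    rw [h2]
    apply Finset.sum_congr rfl
    intro i hi
    simp only [mem_range] at hi
    have h3 : a.choose (k + i) * (k + i).choose k = a.choose k * (a - k).choose i := by
      have := Nat.choose_mul (n := a) (k := k + i) (s := k) (by omega)
      rw [this]
      congr 2
      omega
    have h4 : a - (k + i) = a - k - i := by omega
    have h5 : k + i - k = i := by omega
    rw [h4, h5]
    have h6 : ((a.choose (k + i) : ℕ) : R) * (((k + i).choose k : ℕ) : R) =
        ((a.choose k : ℕ) : R) * (((a - k).choose i : ℕ) : R) := by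
      exact_mod_cast congrArg (Nat.cast (R := R)) h3
    calc _ = (((a.choose (k + i) : ℕ) : R) * (((k + i).choose k : ℕ) : R)) * (z ^ (a - k - i)
          * M ^ i) := by ring
      _ = _ := by rw [h6]; ring
  · push Not at hk
    rw [Nat.choose_eq_zero_of_lt hk]
    simp only [Nat.cast_zero, zero_mul]
    apply Finset.sum_eq_zero
    intro j hj
    simp only [mem_range] at hj
    rw [Nat.choose_eq_zero_of_lt (by omega : j < k)]
    simp

lemma prod4 {R ι : Type*} [CommRing R] (s : Finset ι) (A B C D : ι → R) :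
    ∏ l ∈ s, (A l * B l * (C l * D l)) =
      (∏ l ∈ s, A l) * (∏ l ∈ s, B l) * ((∏ l ∈ s, C l) * (∏ l ∈ s, D l)) := by
  rw [Finset.prod_mul_distrib, Finset.prod_mul_distrib, Finset.prod_mul_distrib]

lemma block_cv {R : Type*} [CommRing R] {n : ℕ} (Y j1 : Fin n) (hj : j1 ≠ Y) (ξ : R)
    (M W : Fin n → R) (hWY : W Y = M Y) (hW : ∀ l, l ≠ Y → W l = M l + ξ * M Y) (r k : ℕ)
    (a : Fin n → ℕ) (ha : ∑ l, a l = r) :
    bterm j1 k a W =
      ∑ J ∈ Finset.piAntidiag (Finset.univ : Finset (Fin n)) r,
        (∏ l ∈ (Finset.univ : Finset (Fin n)).erase Y,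
          ((((a l).choose (J l) : ℕ) : R) * ξ ^ (a l - J l))) * bterm j1 k J M := by
  classical
  -- the factor functions
  let G : Fin n → ℕ → R := fun l j =>
    if l = Y then M Y ^ (a Y)
    else (((a l).choose j : ℕ) : R) * (ξ * M Y) ^ (a l - j) *
      (if l = j1 then (((j.choose k : ℕ) : R) * M l ^ (j - k)) else M l ^ j)
  let t : Fin n → Finset ℕ := fun l => if l = Y then {0} else range (a l + 1)
  have hprod : bterm j1 k a W = ∏ l, ∑ j ∈ t l, G l j := by
    unfold bterm
    have h1 : (((a j1).choose k : ℕ) : R) = ∏ l, (if l = j1 then (((a j1).choose k : ℕ) : R)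
        else 1) := by
      rw [Finset.prod_ite_eq' Finset.univ j1]
      simp
    rw [h1, ← Finset.prod_mul_distrib]
    apply Finset.prod_congr rfl
    intro l _
    by_cases hlY : l = Y
    · subst hlY
      simp only [G, t, if_true, Finset.sum_singleton]
      rw [if_neg (Ne.symm hj), if_neg (Ne.symm hj), hWY]
      simp
    · simp only [G, t, if_neg hlY]
      rw [hW l hlY]
      by_cases hl1 : l = j1
      · subst hl1
        simp only [if_true]
        rw [one_var]
      · simp only [if_neg hl1, one_mul, Nat.sub_zero]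
        rw [add_pow]
        apply Finset.sum_congr rfl
        intro j _
        ring
  rw [hprod, Finset.prod_univ_sum]
  -- now the bijection
  symm
  rw [← Finset.sum_filter_add_sum_filter_not (Finset.piAntidiag (Finset.univ : Finset (Fin n)) r)
    (fun J => ∀ l, l ≠ Y → J l ≤ a l)]
  have hzero : ∑ J ∈ (Finset.piAntidiag (Finset.univ : Finset (Fin n)) r).filter
      (fun J => ¬ ∀ l, l ≠ Y → J l ≤ a l),
      (∏ l ∈ (Finset.univ : Finset (Fin n)).erase Y,
          ((((a l).choose (J l) : ℕ) : R) * ξ ^ (a l - J l))) * bterm j1 k J M = 0 := by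
    apply Finset.sum_eq_zero
    intro J hJ
    simp only [mem_filter] at hJ
    obtain ⟨_, hJ2⟩ := hJ
    push Not at hJ2
    obtain ⟨l, hl, hl2⟩ := hJ2
    have : ∏ l ∈ (Finset.univ : Finset (Fin n)).erase Y,
          ((((a l).choose (J l) : ℕ) : R) * ξ ^ (a l - J l)) = 0 := by
      apply Finset.prod_eq_zero (i := l)
      · simp [hl]
      · rw [Nat.choose_eq_zero_of_lt hl2]
        simp
    rw [this, zero_mul]
  rw [hzero, add_zero]
  refine Finset.sum_bij' (fun J _ => Function.update J Y 0)
    (fun J _ => Function.update J Y (r - ∑ l ∈ (Finset.univ : Finset (Fin n)).erase Y, J l))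
    ?_ ?_ ?_ ?_ ?_
  · intro J hJ
    simp only [mem_filter, mem_piAntidiag] at hJ
    rw [Fintype.mem_piFinset]
    intro l
    by_cases hl : l = Y
    · subst hl; simp [t]
    · simp only [t, if_neg hl, Function.update_of_ne hl, mem_range]
      have := hJ.2 l hl
      omega
  · intro J hJ
    rw [Fintype.mem_piFinset] at hJ
    simp only [mem_filter, mem_piAntidiag]
    have hle : ∀ l, l ≠ Y → J l ≤ a l := by
      intro l hl
      have := hJ l
      simp only [t, if_neg hl, mem_range] at this
      omega
    have hs : ∑ l ∈ (Finset.univ : Finset (Fin n)).erase Y, J l ≤ r := by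
      rw [← ha]
      calc ∑ l ∈ (Finset.univ : Finset (Fin n)).erase Y, J l ≤
          ∑ l ∈ (Finset.univ : Finset (Fin n)).erase Y, a l := by
            apply Finset.sum_le_sum
            intro l hl
            exact hle l (by simpa using hl)
        _ ≤ ∑ l, a l := Finset.sum_le_sum_of_subset (Finset.erase_subset _ _)
    refine ⟨⟨?_, by simp⟩, ?_⟩
    · rw [← Finset.add_sum_erase _ _ (Finset.mem_univ Y)]
      have : ∑ x ∈ (Finset.univ : Finset (Fin n)).erase Y, Function.update J Y
          (r - ∑ l ∈ (Finset.univ : Finset (Fin n)).erase Y, J l) x =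
          ∑ l ∈ (Finset.univ : Finset (Fin n)).erase Y, J l := by
        apply Finset.sum_congr rfl
        intro x hx
        rw [Function.update_of_ne (by simpa using hx)]
      rw [this, Function.update_self]
      omega
    · intro l hl
      rw [Function.update_of_ne hl]
      exact hle l hl
  · intro J hJ
    simp only [mem_filter, mem_piAntidiag] at hJ
    obtain ⟨⟨hJ1, _⟩, _⟩ := hJ
    have : ∑ x ∈ (Finset.univ : Finset (Fin n)).erase Y, Function.update J Y 0 x =
          ∑ l ∈ (Finset.univ : Finset (Fin n)).erase Y, J l := by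
      apply Finset.sum_congr rfl
      intro x hx
      rw [Function.update_of_ne (by simpa using hx)]
    rw [this, Function.update_idem]
    have h2 : r - ∑ l ∈ (Finset.univ : Finset (Fin n)).erase Y, J l = J Y := by
      rw [← Finset.add_sum_erase _ _ (Finset.mem_univ Y)] at hJ1
      omega
    rw [h2, Function.update_eq_self]
  · intro J hJ
    rw [Fintype.mem_piFinset] at hJ
    have hY := hJ Y
    simp only [t, if_true, Finset.mem_singleton] at hY
    rw [Function.update_idem]
    conv_rhs => rw [← Function.update_eq_self Y J]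
    rw [hY]
  · intro J hJ
    simp only [mem_filter, mem_piAntidiag] at hJ
    obtain ⟨⟨hJ1, _⟩, hJ2⟩ := hJ
    unfold bterm
    -- split the product over Y
    rw [← Finset.mul_prod_erase Finset.univ (fun l => G l (Function.update J Y 0 l))
      (Finset.mem_univ Y)]
    rw [← Finset.mul_prod_erase Finset.univ (fun l => M l ^ (J l - if l = j1 then k else 0))
      (Finset.mem_univ Y)]
    have hG : ∏ l ∈ (Finset.univ : Finset (Fin n)).erase Y, G l (Function.update J Y 0 l) =
        ∏ l ∈ (Finset.univ : Finset (Fin n)).erase Y,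
          (((((a l).choose (J l) : ℕ) : R) * ξ ^ (a l - J l)) * (M Y ^ (a l - J l)) *
          ((if l = j1 then (((J j1).choose k : ℕ) : R) else 1) *
            M l ^ (J l - if l = j1 then k else 0))) := by
      apply Finset.prod_congr rfl
      intro l hl
      have hl' : l ≠ Y := by simpa using hl
      simp only [G, if_neg hl', Function.update_of_ne hl']
      by_cases hl1 : l = j1
      · subst hl1
        simp only [if_true]
        rw [mul_pow]; ring
      · simp only [if_neg hl1, one_mul, Nat.sub_zero]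
        rw [mul_pow]; ring
    rw [hG, prod4]
    have h1 : ∏ l ∈ (Finset.univ : Finset (Fin n)).erase Y, (if l = j1 then
        (((J j1).choose k : ℕ) : R) else 1) = (((J j1).choose k : ℕ) : R) := by
      rw [Finset.prod_ite_eq' _ j1]
      simp [hj]
    rw [h1, Finset.prod_pow_eq_pow_sum]
    have h2 : G Y (Function.update J Y 0 Y) = M Y ^ (a Y) := by simp [G]
    rw [h2, if_neg (Ne.symm hj), Nat.sub_zero]
    have h3 : J Y = a Y + ∑ l ∈ (Finset.univ : Finset (Fin n)).erase Y, (a l - J l) := by
      rw [← Finset.add_sum_erase _ _ (Finset.mem_univ Y)] at hJ1 ha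
      have h4 : ∑ l ∈ (Finset.univ : Finset (Fin n)).erase Y, (a l - J l) +
          ∑ l ∈ (Finset.univ : Finset (Fin n)).erase Y, J l =
          ∑ l ∈ (Finset.univ : Finset (Fin n)).erase Y, a l := by
        rw [← Finset.sum_add_distrib]
        apply Finset.sum_congr rfl
        intro l hl
        have := hJ2 l (by simpa using hl)
        omega
      omega
    rw [h3, pow_add]
    ring

/-- the multi-block divided derivative of the form with coefficients `c` -/
def Sk {R : Type*} [CommRing R] {m n : ℕ} (r : Fin m → ℕ) (j1 : Fin n) (k : Fin m → ℕ)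
    (c : (Fin m → Fin n → ℕ) → ℤ) (W : Fin m → Fin n → R) : R :=
  ∑ a ∈ Dset m n r, (c a : R) * ∏ h, bterm j1 (k h) (a h) (W h)

/-- the transformed coefficients -/
def dJ {R : Type*} [CommRing R] {m n : ℕ} (r : Fin m → ℕ) (Y : Fin n) (ξ : R)
    (c : (Fin m → Fin n → ℕ) → ℤ) (J : Fin m → Fin n → ℕ) : R :=
  ∑ a ∈ Dset m n r, (c a : R) * ∏ h : Fin m, ∏ l ∈ (Finset.univ : Finset (Fin n)).erase Y,
            ((((a h l).choose (J h l) : ℕ) : R) * ξ ^ (a h l - J h l))

theorem Sk_cv {R : Type*} [CommRing R] {m n : ℕ} (r : Fin m → ℕ) (Y j1 : Fin n) (hj : j1 ≠ Y)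
    (ξ : R) (k : Fin m → ℕ) (c : (Fin m → Fin n → ℕ) → ℤ) (M W : Fin m → Fin n → R)
    (hWY : ∀ h, W h Y = M h Y) (hW : ∀ h l, l ≠ Y → W h l = M h l + ξ * M h Y) :
    Sk r j1 k c W = ∑ J ∈ Dset m n r, dJ r Y ξ c J * ∏ h, bterm j1 (k h) (J h) (M h) := by
  classical
  unfold Sk dJ
  have h1 : ∀ a ∈ Dset m n r, (c a : R) * ∏ h, bterm j1 (k h) (a h) (W h) =
      ∑ J ∈ Dset m n r, (c a : R) * (∏ h : Fin m, ∏ l ∈ (Finset.univ : Finset (Fin n)).erase Y,
            ((((a h l).choose (J h l) : ℕ) : R) * ξ ^ (a h l - J h l))) *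
            ∏ h, bterm j1 (k h) (J h) (M h) := by
    intro a ha
    have ha' := mem_Dset.1 ha
    have h2 : ∏ h, bterm j1 (k h) (a h) (W h) = ∏ h, ∑ J ∈ Finset.piAntidiag
        (Finset.univ : Finset (Fin n)) (r h),
        (∏ l ∈ (Finset.univ : Finset (Fin n)).erase Y,
          ((((a h l).choose (J l) : ℕ) : R) * ξ ^ (a h l - J l))) * bterm j1 (k h) J (M h) := by
      apply Finset.prod_congr rfl
      intro h _
      exact block_cv Y j1 hj ξ (M h) (W h) (hWY h) (hW h) (r h) (k h) (a h) (ha' h)
    rw [h2, Finset.prod_univ_sum, Finset.mul_sum]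
    apply Finset.sum_congr rfl
    intro J _
    rw [Finset.prod_mul_distrib]
    ring
  rw [Finset.sum_congr rfl h1, Finset.sum_comm]
  apply Finset.sum_congr rfl
  intro J _
  rw [Finset.sum_mul]

end Pool.Agent.H393R2
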