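import Mathlib
import Pool.Agent.H393R2.CV

set_option autoImplicit false

open Finset

namespace Pool.Agent.H393R2.AuxNS

/-! ### second moment on product sets -/

theorem cross_zero {m : ℕ} {β : Type*} (B : Fin m → Finset β)
    (x : Fin m → β → ℝ) (h0 : ∀ h, ∑ b ∈ B h, x h b = 0) (h h' : Fin m) (hne : h ≠ h') :
    ∑ a ∈ Fintype.piFinset B, x h (a h) * x h' (a h') = 0 := by
  classical
  have h1 : ∀ a : Fin m → β, x h (a h) * x h' (a h') =
      ∏ j, ((if j = h then x h (a j) else 1) * (if j = h' then x h' (a j) else 1)) := by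
    intro a
    rw [Finset.prod_mul_distrib, Finset.prod_ite_eq' , Finset.prod_ite_eq']
    simp
  simp_rw [h1]
  rw [← Finset.prod_univ_sum B (fun j b => ((if j = h then x h b else 1) * (if j = h' then x h' b else 1)))]
  apply Finset.prod_eq_zero (Finset.mem_univ h)
  rw [← h0 h]
  refine Finset.sum_congr rfl (fun b _ => ?_)
  rw [if_pos rfl, if_neg hne, mul_one]

theorem second_moment {m : ℕ} {β : Type*} (B : Fin m → Finset β)
    (x : Fin m → β → ℝ) (h0 : ∀ h, ∑ b ∈ B h, x h b = 0) (h1 : ∀ h, ∀ b ∈ B h, |x h b| ≤ 1) :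
    ∑ a ∈ Fintype.piFinset B, (∑ h, x h (a h)) ^ 2 ≤ m * (Fintype.piFinset B).card := by
  classical
  have e1 : ∀ a : Fin m → β, (∑ h, x h (a h)) ^ 2 =
      ∑ h, ∑ h', x h (a h) * x h' (a h') := by
    intro a
    rw [sq, Finset.sum_mul_sum]
  simp_rw [e1]
  rw [Finset.sum_comm]
  have e2 : ∀ h ∈ (Finset.univ : Finset (Fin m)),
      ∑ a ∈ Fintype.piFinset B, ∑ h', x h (a h) * x h' (a h') ≤ ((Fintype.piFinset B).card : ℝ) := by
    intro h _
    rw [Finset.sum_comm]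
    rw [Finset.sum_eq_single h]
    · have e3 : ∀ a ∈ Fintype.piFinset B, x h (a h) * x h (a h) ≤ 1 := by
        intro a ha
        rw [Fintype.mem_piFinset] at ha
        have := h1 h (a h) (ha h)
        rw [← abs_mul_abs_self]
        nlinarith [abs_nonneg (x h (a h))]
      refine (Finset.sum_le_card_nsmul _ _ 1 e3).trans ?_
      simp
    · intro h' _ hne
      exact cross_zero B x h0 h h' hne.symm
    · intro hh; exact absurd (Finset.mem_univ _) hh
  refine (Finset.sum_le_card_nsmul _ _ _ e2).trans ?_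
  simp

theorem chebyshev {m : ℕ} {β : Type*} (B : Fin m → Finset β)
    (x : Fin m → β → ℝ) (h0 : ∀ h, ∑ b ∈ B h, x h b = 0) (h1 : ∀ h, ∀ b ∈ B h, |x h b| ≤ 1)
    (τ : ℝ) (hτ : 0 < τ) (hm : 0 < m) :
    (((Fintype.piFinset B).filter (fun a => τ * m < |∑ h, x h (a h)|)).card : ℝ) ≤
      (Fintype.piFinset B).card / (τ ^ 2 * m) := by
  classical
  have hm' : (0 : ℝ) < m := by exact_mod_cast hm
  have h2 := second_moment B x h0 h1
  set F := (Fintype.piFinset B).filter (fun a => τ * m < |∑ h, x h (a h)|) with hF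
  have h3 : (F.card : ℝ) * (τ * m) ^ 2 ≤ ∑ a ∈ Fintype.piFinset B, (∑ h, x h (a h)) ^ 2 := by
    have h4 : ∑ a ∈ F, (τ * m : ℝ) ^ 2 ≤ ∑ a ∈ F, (∑ h, x h (a h)) ^ 2 := by
      apply Finset.sum_le_sum
      intro a ha
      rw [hF, Finset.mem_filter] at ha
      rw [← sq_abs (∑ h, x h (a h))]
      exact pow_le_pow_left₀ (by positivity) ha.2.le 2
    rw [Finset.sum_const, nsmul_eq_mul] at h4
    refine h4.trans ?_
    apply Finset.sum_le_sum_of_subset_of_nonneg (Finset.filter_subset _ _)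
    intro _ _ _; positivity
  rw [le_div_iff₀ (by positivity)]
  have h5 : (F.card : ℝ) * (τ * m) ^ 2 ≤ m * (Fintype.piFinset B).card := h3.trans h2
  have h6 : (F.card : ℝ) * (τ * m) ^ 2 = m * (F.card * (τ ^ 2 * m)) := by ring
  rw [h6] at h5
  exact le_of_mul_le_mul_left h5 hm'

/-! ### one block -/

theorem block_sum {n : ℕ} (hn : 1 ≤ n) (r : ℕ) (hr : 0 < r) (l : Fin n) :
    ∑ b ∈ Finset.piAntidiag (Finset.univ : Finset (Fin n)) r,
      ((b l : ℝ) / (r : ℝ) - 1 / (n : ℝ)) = 0 := by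
  classical
  set B := Finset.piAntidiag (Finset.univ : Finset (Fin n)) r with hB
  have hsym : ∀ l' : Fin n, ∑ b ∈ B, (b l' : ℝ) = ∑ b ∈ B, (b l : ℝ) := by
    intro l'
    apply Finset.sum_bij' (fun b _ => b ∘ Equiv.swap l l') (fun b _ => b ∘ Equiv.swap l l')
    · intro b hb
      rw [hB, Finset.mem_piAntidiag] at hb ⊢
      refine ⟨?_, fun i _ => Finset.mem_univ i⟩
      rw [← hb.1]
      exact Equiv.sum_comp (Equiv.swap l l') b
    · intro b hb
      rw [hB, Finset.mem_piAntidiag] at hb ⊢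
      refine ⟨?_, fun i _ => Finset.mem_univ i⟩
      rw [← hb.1]
      exact Equiv.sum_comp (Equiv.swap l l') b
    · intro b _; ext i; simp
    · intro b _; ext i; simp
    · intro b _; simp
  have htot : ∑ l' : Fin n, ∑ b ∈ B, (b l' : ℝ) = r * B.card := by
    rw [Finset.sum_comm]
    have : ∀ b ∈ B, ∑ l' : Fin n, (b l' : ℝ) = r := by
      intro b hb
      rw [hB, Finset.mem_piAntidiag] at hb
      exact_mod_cast hb.1
    rw [Finset.sum_congr rfl this, Finset.sum_const, nsmul_eq_mul, mul_comm]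
  have hn' : (0 : ℝ) < n := by exact_mod_cast hn
  have hr' : (0 : ℝ) < r := by exact_mod_cast hr
  have h1 : (n : ℝ) * ∑ b ∈ B, (b l : ℝ) = r * B.card := by
    rw [← htot]
    rw [Finset.sum_congr rfl (fun l' _ => hsym l')]
    simp
  rw [Finset.sum_sub_distrib, ← Finset.sum_div, Finset.sum_const, nsmul_eq_mul]
  have h2 : ∑ b ∈ B, (b l : ℝ) = r * B.card / n := by
    rw [eq_div_iff hn'.ne']; linarith
  rw [h2]
  field_simp
  ring

theorem block_abs {n : ℕ} (hn : 1 ≤ n) (r : ℕ) (hr : 0 < r) (l : Fin n) :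
    ∀ b ∈ Finset.piAntidiag (Finset.univ : Finset (Fin n)) r,
      |((b l : ℝ) / (r : ℝ) - 1 / (n : ℝ))| ≤ 1 := by
  intro b hb
  rw [Finset.mem_piAntidiag] at hb
  have hn' : (1 : ℝ) ≤ n := by exact_mod_cast hn
  have hr' : (0 : ℝ) < r := by exact_mod_cast hr
  have h1 : b l ≤ r := by
    rw [← hb.1]; exact Finset.single_le_sum (fun _ _ => Nat.zero_le _) (Finset.mem_univ l)
  have h2 : (b l : ℝ) / r ≤ 1 := by
    rw [div_le_one hr']; exact_mod_cast h1
  have h3 : 0 ≤ (b l : ℝ) / r := by positivity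
  have h4 : 1 / (n : ℝ) ≤ 1 := by
    rw [div_le_one (by linarith)]; exact hn'
  have h5 : 0 < 1 / (n : ℝ) := by positivity
  rw [abs_le]; constructor <;> linarith

/-- the exceptional set is small -/
theorem bad_card {m n : ℕ} (hn : 1 ≤ n) (r : Fin m → ℕ) (hr : ∀ h, 0 < r h) (τ : ℝ) (hτ : 0 < τ)
    (hm : 0 < m) :
    (((Dset m n r).filter (fun a => ∃ l : Fin n,
      τ * m < |∑ h, ((a h l : ℝ) / (r h : ℝ) - 1 / (n : ℝ))|)).card : ℝ) ≤
      n * ((Dset m n r).card / (τ ^ 2 * m)) := by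
  classical
  have h1 : (Dset m n r).filter (fun a => ∃ l : Fin n,
      τ * m < |∑ h, ((a h l : ℝ) / (r h : ℝ) - 1 / (n : ℝ))|) ⊆
      Finset.univ.biUnion (fun l : Fin n => (Dset m n r).filter (fun a =>
        τ * m < |∑ h, ((a h l : ℝ) / (r h : ℝ) - 1 / (n : ℝ))|)) := by
    intro a ha
    rw [Finset.mem_filter] at ha
    obtain ⟨ha, l, hl⟩ := ha
    rw [Finset.mem_biUnion]
    exact ⟨l, Finset.mem_univ l, Finset.mem_filter.mpr ⟨ha, hl⟩⟩
  have h2 := (Finset.card_le_card h1).trans Finset.card_biUnion_le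
  have h3 : ((((Dset m n r).filter (fun a => ∃ l : Fin n,
      τ * m < |∑ h, ((a h l : ℝ) / (r h : ℝ) - 1 / (n : ℝ))|)).card : ℕ) : ℝ) ≤
      ∑ l : Fin n, ((((Dset m n r).filter (fun a =>
        τ * m < |∑ h, ((a h l : ℝ) / (r h : ℝ) - 1 / (n : ℝ))|)).card : ℕ) : ℝ) := by
    exact_mod_cast h2
  refine h3.trans ?_
  have h4 : ∀ l ∈ (Finset.univ : Finset (Fin n)), ((((Dset m n r).filter (fun a =>
        τ * m < |∑ h, ((a h l : ℝ) / (r h : ℝ) - 1 / (n : ℝ))|)).card : ℕ) : ℝ) ≤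
        ((Dset m n r).card : ℝ) / (τ ^ 2 * m) := by
    intro l _
    exact chebyshev (fun h => Finset.piAntidiag (Finset.univ : Finset (Fin n)) (r h))
      (fun h b => (b l : ℝ) / (r h : ℝ) - 1 / (n : ℝ)) (fun h => block_sum hn (r h) (hr h) l)
      (fun h => block_abs hn (r h) (hr h) l) τ hτ hm
  refine (Finset.sum_le_card_nsmul _ _ _ h4).trans ?_
  simp

end Pool.Agent.H393R2.AuxNS
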