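import Mathlib
import Pool.Agent.H393R2.Aux1

set_option autoImplicit false

open Finset

namespace Pool.Agent.H393R2.AuxNS

/-- powers of an algebraic integer in terms of the first `d` powers -/
theorem int_powers (ξ : ℝ) (hξ : IsIntegral ℤ ξ) :
    ∃ (Dg : ℕ) (C0 : ℕ), 1 ≤ Dg ∧ 1 ≤ C0 ∧ ∀ s : ℕ, ∃ ρ : ℕ → ℤ,
      ξ ^ s = ∑ i ∈ Finset.range Dg, (ρ i : ℝ) * ξ ^ i ∧ ∀ i, |ρ i| ≤ (C0 : ℤ) ^ s := by
  obtain ⟨f, hmon, hf⟩ := hξ
  have hdeg : 0 < f.natDegree := by
    rw [Nat.pos_iff_ne_zero]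
    intro h0
    have h1 : f = 1 := by
      rw [Polynomial.eq_C_of_natDegree_eq_zero h0]
      have : f.coeff 0 = 1 := by
        have := hmon.coeff_natDegree
        rwa [h0] at this
      rw [this]; simp
    rw [h1] at hf
    simp at hf
  obtain ⟨e, he⟩ := Nat.exists_eq_succ_of_ne_zero hdeg.ne'
  -- relation
  have hrel : ξ ^ (e + 1) = - ∑ i ∈ Finset.range (e + 1), (f.coeff i : ℝ) * ξ ^ i := by
    have h1 : Polynomial.aeval ξ f = 0 := hf
    rw [Polynomial.aeval_eq_sum_range, he, Nat.succ_eq_add_one, Finset.sum_range_succ] at h1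
    have h2 : f.coeff (e + 1) = 1 := by
      have := hmon.coeff_natDegree
      rwa [he] at this
    rw [h2, one_smul] at h1
    rw [eq_neg_iff_add_eq_zero, add_comm, ← h1]
    congr 1
    refine Finset.sum_congr rfl (fun i _ => ?_)
    rw [zsmul_eq_mul]
  set M : ℕ := ∑ i ∈ Finset.range (e + 1), (f.coeff i).natAbs with hM
  refine ⟨e + 1, 1 + M, Nat.succ_pos e, by omega, ?_⟩
  -- coefficients bounded by M
  have hcM : ∀ i ∈ Finset.range (e+1), |f.coeff i| ≤ (M : ℤ) := by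
    intro i hi
    rw [Int.abs_eq_natAbs]
    exact_mod_cast Finset.single_le_sum (f := fun i => (f.coeff i).natAbs)
      (fun _ _ => Nat.zero_le _) hi
  intro s
  induction s with
  | zero =>
    refine ⟨fun i => if i = 0 then 1 else 0, ?_, ?_⟩
    · rw [Finset.sum_range_succ']
      simp
    · intro i
      simp only [pow_zero]
      split_ifs <;> simp
  | succ s ih =>
    obtain ⟨ρ, hρ, hb⟩ := ih
    refine ⟨fun i => if i ∈ Finset.range (e+1) then
      ((if i = 0 then 0 else ρ (i - 1)) - ρ e * f.coeff i) else 0, ?_, ?_⟩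
    · have h1 : ∑ i ∈ Finset.range (e+1), (((if i ∈ Finset.range (e+1) then
          ((if i = 0 then 0 else ρ (i - 1)) - ρ e * f.coeff i) else 0 : ℤ)) : ℝ) * ξ ^ i =
          ∑ i ∈ Finset.range (e+1), (((if i = 0 then 0 else ρ (i - 1) : ℤ)) : ℝ) * ξ ^ i -
            ρ e * ∑ i ∈ Finset.range (e+1), (f.coeff i : ℝ) * ξ ^ i := by
        rw [Finset.mul_sum, ← Finset.sum_sub_distrib]
        refine Finset.sum_congr rfl (fun i hi => ?_)
        rw [if_pos hi]
        push_cast; ring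
      rw [h1]
      have h2 : ∑ i ∈ Finset.range (e+1), (((if i = 0 then 0 else ρ (i - 1) : ℤ)) : ℝ) * ξ ^ i =
          ∑ i ∈ Finset.range e, (ρ i : ℝ) * ξ ^ (i + 1) := by
        rw [Finset.sum_range_succ']
        simp
      rw [h2, pow_succ, hρ, Finset.sum_mul, Finset.sum_range_succ]
      have h3 : (ρ e : ℝ) * ξ ^ e * ξ = - (ρ e * ∑ i ∈ Finset.range (e+1), (f.coeff i : ℝ) * ξ ^ i) := by
        rw [mul_assoc, ← pow_succ, hrel]; ring
      rw [h3, sub_eq_add_neg]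
      congr 1
      refine Finset.sum_congr rfl (fun i _ => ?_)
      rw [pow_succ]; ring
    · intro i
      simp only
      by_cases hi : i ∈ Finset.range (e+1)
      · rw [if_pos hi]
        have h1 : |(if i = 0 then 0 else ρ (i - 1))| ≤ ((1 + M : ℕ) : ℤ) ^ s := by
          split_ifs
          · simp; positivity
          · exact hb _
        have h2 : |ρ e * f.coeff i| ≤ ((1 + M : ℕ) : ℤ) ^ s * M := by
          rw [abs_mul]
          exact mul_le_mul (hb e) (hcM i hi) (abs_nonneg _) (by positivity)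
        calc |(if i = 0 then 0 else ρ (i - 1)) - ρ e * f.coeff i| ≤
              |(if i = 0 then 0 else ρ (i - 1))| + |ρ e * f.coeff i| := abs_sub _ _
          _ ≤ ((1 + M : ℕ) : ℤ) ^ s + ((1 + M : ℕ) : ℤ) ^ s * M := add_le_add h1 h2
          _ = ((1 + M : ℕ) : ℤ) ^ (s + 1) := by push_cast; ring
      · rw [if_neg hi]; simp; positivity

theorem card_Dset_le {m n : ℕ} (r : Fin m → ℕ) : (Dset m n r).card ≤ (2 ^ n) ^ (∑ h, r h) := by
  classical
  have h1 : Dset m n r ⊆ Fintype.piFinset (fun h => Fintype.piFinset (fun _ : Fin n =>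
      Finset.range (r h + 1))) := by
    intro a ha
    rw [mem_Dset] at ha
    rw [Fintype.mem_piFinset]
    intro h
    rw [Fintype.mem_piFinset]
    intro l
    rw [Finset.mem_range, Nat.lt_succ_iff, ← ha h]
    exact Finset.single_le_sum (fun _ _ => Nat.zero_le _) (Finset.mem_univ l)
  refine (Finset.card_le_card h1).trans ?_
  rw [Fintype.card_piFinset, ← Finset.prod_pow_eq_pow_sum]
  apply Finset.prod_le_prod'
  intro h _
  rw [Fintype.card_piFinset]
  simp only [Finset.card_range, Finset.prod_const, Finset.card_univ, Fintype.card_fin]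
  rw [← pow_mul, mul_comm n, pow_mul]
  exact Nat.pow_le_pow_left Nat.lt_two_pow_self n

theorem Dset_nonempty {m n : ℕ} (hn : 1 ≤ n) (r : Fin m → ℕ) : (Dset m n r).Nonempty := by
  classical
  refine ⟨fun h l => if l = ⟨0, hn⟩ then r h else 0, ?_⟩
  rw [mem_Dset]
  intro h
  simp

end Pool.Agent.H393R2.AuxNS

namespace Pool.Agent.H393R2

open AuxNS in
attribute [local instance] Matrix.seminormedAddCommGroup in
theorem aux_poly (n : ℕ) (hn : 1 ≤ n) (Y : Fin n) (ξ : ℝ) (hξ : IsIntegral ℤ ξ) (τ : ℝ)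
    (hτ : 0 < τ) :
    ∃ C : ℝ, 1 ≤ C ∧ ∃ m0 : ℕ, ∀ m : ℕ, m0 ≤ m → ∀ r : Fin m → ℕ, (∀ h, 0 < r h) →
      ∃ c : (Fin m → Fin n → ℕ) → ℤ,
        (∃ a ∈ Dset m n r, c a ≠ 0) ∧
        (∀ a ∈ Dset m n r, |(c a : ℝ)| ≤ C ^ (∑ h, r h)) ∧
        (∀ a ∈ Dset m n r, c a ≠ 0 → ∀ l : Fin n,
          ∑ h, (a h l : ℝ) / (r h : ℝ) ≤ (1 / (n : ℝ) + τ) * m) ∧
        (∀ J ∈ Dset m n r,
          (∃ l : Fin n, ∑ h, (J h l : ℝ) / (r h : ℝ) < (1 / (n : ℝ) - τ) * m) →
          ∑ a ∈ Dset m n r, (c a : ℝ) * ∏ h : Fin m, ∏ l ∈ (Finset.univ : Finset (Fin n)).erase Y,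
            (((a h l).choose (J h l) : ℝ) * ξ ^ (a h l - J h l)) = 0) := by
  classical
  obtain ⟨Dg, C0, hDg, hC0, hpow⟩ := int_powers ξ hξ
  choose ρ hρ hρb using hpow
  have hC0' : (1 : ℝ) ≤ C0 := by exact_mod_cast hC0
  refine ⟨2 ^ n * (2 * C0), ?_, ?_⟩
  · have h1 : (1 : ℝ) ≤ 2 ^ n := one_le_pow₀ (by norm_num)
    nlinarith
  set Cc : ℝ := 2 ^ n * (2 * C0) with hCc
  have hCc1 : 1 ≤ Cc := by
    have h1 : (1 : ℝ) ≤ 2 ^ n := one_le_pow₀ (by norm_num)
    nlinarith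
  refine ⟨⌈8 * Dg * n / τ ^ 2⌉₊ + 1, ?_⟩
  intro m hm r hr
  have hm0 : 0 < m := by omega
  have hm0' : (0 : ℝ) < m := by exact_mod_cast hm0
  have hn' : (0 : ℝ) < n := by exact_mod_cast hn
  have hDg' : (1 : ℝ) ≤ Dg := by exact_mod_cast hDg
  have hmge : 8 * Dg * n / τ ^ 2 ≤ m := by
    refine (Nat.le_ceil _).trans ?_
    have : ⌈8 * Dg * n / τ ^ 2⌉₊ ≤ m := by omega
    exact_mod_cast this
  set D := Dset m n r with hD
  have hDpos : 0 < D.card := Finset.card_pos.mpr (Dset_nonempty hn r)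
  have hDpos' : (0 : ℝ) < D.card := by exact_mod_cast hDpos
  set Bad := D.filter (fun a => ∃ l : Fin n,
      τ * m < |∑ h, ((a h l : ℝ) / (r h : ℝ) - 1 / (n : ℝ))|) with hBad
  have hBadcard : (Bad.card : ℝ) * (8 * Dg) ≤ D.card := by
    have h1 : (Bad.card : ℝ) ≤ n * (D.card / (τ ^ 2 * m)) := bad_card hn r hr τ hτ hm0
    have h2 : n * ((D.card : ℝ) / (τ ^ 2 * m)) * (8 * Dg) ≤ D.card := by
      have h3 : n * ((D.card : ℝ) / (τ ^ 2 * m)) * (8 * Dg) = (8 * Dg * n / τ ^ 2) * (D.card / m) := by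
        field_simp
      rw [h3]
      calc (8 * Dg * n / τ ^ 2) * ((D.card : ℝ) / m) ≤ m * ((D.card : ℝ) / m) :=
            mul_le_mul_of_nonneg_right hmge (by positivity)
        _ = D.card := by field_simp
    calc (Bad.card : ℝ) * (8 * Dg) ≤ n * (D.card / (τ ^ 2 * m)) * (8 * Dg) :=
          mul_le_mul_of_nonneg_right h1 (by positivity)
      _ ≤ D.card := h2
  have hBadnat : Bad.card * (8 * Dg) ≤ D.card := by exact_mod_cast hBadcard
  -- deviation identity
  have hdev : ∀ (a : Fin m → Fin n → ℕ) (l : Fin n),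
      ∑ h, ((a h l : ℝ) / (r h : ℝ) - 1 / (n : ℝ)) = ∑ h, (a h l : ℝ) / (r h : ℝ) - m / n := by
    intro a l
    rw [Finset.sum_sub_distrib]; simp [div_eq_mul_inv]
  set Good := D \ Bad with hGood
  have hGoodcard : Good.card = D.card - Bad.card := by
    rw [hGood, Finset.card_sdiff_of_subset (Finset.filter_subset _ _)]
  have hGood_prop : ∀ a ∈ Good, ∀ l : Fin n,
      ∑ h, (a h l : ℝ) / (r h : ℝ) ≤ (1 / (n : ℝ) + τ) * m := by
    intro a ha l
    rw [hGood, Finset.mem_sdiff] at ha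
    by_contra hlt
    push Not at hlt
    apply ha.2
    rw [hBad, Finset.mem_filter]
    refine ⟨ha.1, l, ?_⟩
    rw [hdev]
    refine lt_of_lt_of_le ?_ (le_abs_self _)
    have : (1 / (n : ℝ) + τ) * m = m / n + τ * m := by ring
    linarith
  have hBad_prop : ∀ J ∈ D, (∃ l : Fin n, ∑ h, (J h l : ℝ) / (r h : ℝ) < (1 / (n : ℝ) - τ) * m) →
      J ∈ Bad := by
    intro J hJ ⟨l, hl⟩
    rw [hBad, Finset.mem_filter]
    refine ⟨hJ, l, ?_⟩
    rw [hdev]
    refine lt_of_lt_of_le ?_ (neg_le_abs _)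
    have : (1 / (n : ℝ) - τ) * m = m / n - τ * m := by ring
    linarith
  -- it suffices to construct `c` supported on Good killing Bad
  suffices hsuff : ∃ c : (Fin m → Fin n → ℕ) → ℤ, (∃ a ∈ Good, c a ≠ 0) ∧
      (∀ a, |(c a : ℝ)| ≤ Cc ^ (∑ h, r h)) ∧ (∀ a, a ∉ Good → c a = 0) ∧
      (∀ J ∈ Bad, ∑ a ∈ D, (c a : ℝ) * ∏ h : Fin m, ∏ l ∈ (Finset.univ : Finset (Fin n)).erase Y,
            (((a h l).choose (J h l) : ℝ) * ξ ^ (a h l - J h l)) = 0) by
    obtain ⟨c, ⟨a, ha, hca⟩, hcb, hc0, hcJ⟩ := hsuff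
    refine ⟨c, ⟨a, (Finset.mem_sdiff.mp ha).1, hca⟩, fun a _ => hcb a, ?_, ?_⟩
    · intro a _ hca
      apply hGood_prop a
      by_contra h
      exact hca (hc0 a h)
    · intro J hJ hl
      exact hcJ J (hBad_prop J hJ hl)
  by_cases hBe : Bad.card = 0
  · -- no equations
    rw [Finset.card_eq_zero] at hBe
    obtain ⟨a₀, ha₀⟩ : D.Nonempty := Dset_nonempty hn r
    refine ⟨fun a => if a = a₀ then 1 else 0, ⟨a₀, ?_, by simp⟩, ?_, ?_, ?_⟩
    · rw [hGood, hBe]; simpa using ha₀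
    · intro a
      have h1 : (1 : ℝ) ≤ Cc ^ (∑ h, r h) := one_le_pow₀ hCc1
      by_cases h : a = a₀
      · simpa [h] using h1
      · simp [h]; positivity
    · intro a ha
      have : a ≠ a₀ := by
        rintro rfl; apply ha; rw [hGood, hBe]; simpa using ha₀
      simp [this]
    · intro J hJ
      rw [hBe] at hJ; simp at hJ
  · -- Siegel's lemma
    have hBpos : 0 < Bad.card := Nat.pos_of_ne_zero hBe
    have hcards : Bad.card * Dg * 2 ≤ Good.card := by
      rw [hGoodcard]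
      have h1 : Bad.card * 8 ≤ D.card := by
        calc Bad.card * 8 ≤ Bad.card * (8 * Dg) := Nat.mul_le_mul_left _ (by omega)
          _ ≤ D.card := hBadnat
      have h2 : Bad.card * Dg * 2 + Bad.card ≤ D.card := by
        calc Bad.card * Dg * 2 + Bad.card ≤ Bad.card * (8 * Dg) := by
              have : Bad.card * 1 ≤ Bad.card * Dg := Nat.mul_le_mul_left _ hDg
              nlinarith
          _ ≤ D.card := hBadnat
      omega
    let sx : (Fin m → Fin n → ℕ) → (Fin m → Fin n → ℕ) → ℕ := fun a J =>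
      ∑ h, ∑ l ∈ (Finset.univ : Finset (Fin n)).erase Y, (a h l - J h l)
    let bc : (Fin m → Fin n → ℕ) → (Fin m → Fin n → ℕ) → ℕ := fun a J =>
      ∏ h : Fin m, ∏ l ∈ (Finset.univ : Finset (Fin n)).erase Y, (a h l).choose (J h l)
    let A : Matrix (↥Bad × Fin Dg) ↥Good ℤ := Matrix.of fun Ji a =>
      (bc a.1 Ji.1.1 : ℤ) * ρ (sx a.1 Ji.1.1) Ji.2
    have hcα : Fintype.card (↥Bad × Fin Dg) = Bad.card * Dg := by
      rw [Fintype.card_prod, Fintype.card_coe, Fintype.card_fin]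
    have hcβ : Fintype.card ↥Good = Good.card := Fintype.card_coe _
    have hα0 : 0 < Bad.card * Dg := Nat.mul_pos hBpos hDg
    obtain ⟨t, ht0, hAt, htn⟩ := Int.Matrix.exists_ne_zero_int_vec_norm_le A
      (by rw [hcα, hcβ]; omega) (by rw [hcα]; exact hα0)
    set N := ∑ h, r h with hN
    -- norm of A
    have hsumerase : ∀ a ∈ D, ∑ h, ∑ l ∈ (Finset.univ : Finset (Fin n)).erase Y, a h l ≤ N := by
      intro a ha
      rw [hD, mem_Dset] at ha
      apply Finset.sum_le_sum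
      intro h _
      rw [← ha h]
      exact Finset.sum_le_sum_of_subset (Finset.erase_subset _ _)
    have hAn : ‖A‖ ≤ (2 * C0 : ℝ) ^ N := by
      rw [Matrix.norm_le_iff (by positivity)]
      intro Ji a
      simp only [A, Matrix.of_apply]
      rw [Int.norm_eq_abs]
      push_cast
      rw [abs_mul]
      have haD : a.1 ∈ D := (Finset.mem_sdiff.mp a.2).1
      have h1 : |((bc a.1 Ji.1.1 : ℕ) : ℝ)| ≤ 2 ^ N := by
        rw [Nat.abs_cast]
        have : bc a.1 Ji.1.1 ≤ 2 ^ N := by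
          calc bc a.1 Ji.1.1 ≤ ∏ h : Fin m, ∏ l ∈ (Finset.univ : Finset (Fin n)).erase Y,
                2 ^ (a.1 h l) := by
                apply Finset.prod_le_prod'; intro h _
                apply Finset.prod_le_prod'; intro l _
                exact Nat.choose_le_two_pow _ _
            _ = 2 ^ (∑ h, ∑ l ∈ (Finset.univ : Finset (Fin n)).erase Y, a.1 h l) := by
                simp_rw [Finset.prod_pow_eq_pow_sum]
            _ ≤ 2 ^ N := Nat.pow_le_pow_right (by norm_num) (hsumerase _ haD)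
        exact_mod_cast this
      have h2 : |((ρ (sx a.1 Ji.1.1) Ji.2 : ℤ) : ℝ)| ≤ (C0 : ℝ) ^ N := by
        have h3 : |((ρ (sx a.1 Ji.1.1) Ji.2 : ℤ) : ℝ)| ≤ (C0 : ℝ) ^ (sx a.1 Ji.1.1) := by
          exact_mod_cast hρb (sx a.1 Ji.1.1) Ji.2
        refine h3.trans ?_
        apply pow_le_pow_right₀ hC0'
        refine le_trans ?_ (hsumerase _ haD)
        apply Finset.sum_le_sum; intro h _
        apply Finset.sum_le_sum; intro l _
        exact Nat.sub_le _ _
      calc |((bc a.1 Ji.1.1 : ℕ) : ℝ)| * |((ρ (sx a.1 Ji.1.1) Ji.2 : ℤ) : ℝ)| ≤ 2 ^ N * (C0 : ℝ) ^ N :=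
            mul_le_mul h1 h2 (abs_nonneg _) (by positivity)
        _ = (2 * C0 : ℝ) ^ N := by rw [mul_pow]
    have hbase1 : (1 : ℝ) ≤ (2 * C0 : ℝ) ^ N := one_le_pow₀ (by linarith)
    have hmaxA : max 1 ‖A‖ ≤ (2 * C0 : ℝ) ^ N := max_le hbase1 hAn
    have htn' : ‖t‖ ≤ Cc ^ N := by
      have hGpos : (1 : ℝ) ≤ (Good.card : ℝ) := by
        have : 1 ≤ Good.card := by omega
        exact_mod_cast this
      have hbase : (1 : ℝ) ≤ (Good.card : ℝ) * max 1 ‖A‖ := by
        have := le_max_left 1 ‖A‖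
        nlinarith
      rw [hcα, hcβ] at htn
      refine htn.trans ?_
      have hexp : (((Bad.card * Dg : ℕ) : ℝ) / ((Good.card : ℝ) - ((Bad.card * Dg : ℕ) : ℝ))) ≤ 1 := by
        have h1 : ((Bad.card * Dg : ℕ) : ℝ) * 2 ≤ Good.card := by exact_mod_cast hcards
        have h2 : (0 : ℝ) < ((Bad.card * Dg : ℕ) : ℝ) := by exact_mod_cast hα0
        rw [div_le_one (by linarith)]
        linarith
      calc ((Good.card : ℝ) * max 1 ‖A‖) ^ (((Bad.card * Dg : ℕ) : ℝ) / ((Good.card : ℝ) - ((Bad.card * Dg : ℕ) : ℝ)))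
          ≤ ((Good.card : ℝ) * max 1 ‖A‖) ^ (1 : ℝ) := Real.rpow_le_rpow_of_exponent_le hbase hexp
        _ = (Good.card : ℝ) * max 1 ‖A‖ := Real.rpow_one _
        _ ≤ (2 ^ n : ℝ) ^ N * (2 * C0 : ℝ) ^ N := by
            apply mul_le_mul _ hmaxA (by positivity) (by positivity)
            have h1 : Good.card ≤ (2 ^ n) ^ N :=
              (Finset.card_le_card Finset.sdiff_subset).trans (card_Dset_le r)
            exact_mod_cast h1
        _ = Cc ^ N := (mul_pow _ _ _).symm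
    obtain ⟨cc, hcc1, hcc0⟩ : ∃ cc : (Fin m → Fin n → ℕ) → ℤ,
        (∀ a (h : a ∈ Good), cc a = t ⟨a, h⟩) ∧ (∀ a, a ∉ Good → cc a = 0) :=
      ⟨fun a => if h : a ∈ Good then t ⟨a, h⟩ else 0, fun a h => dif_pos h, fun a h => dif_neg h⟩
    refine ⟨cc, ?_, ?_, hcc0, ?_⟩
    · obtain ⟨a, ha⟩ := Function.ne_iff.mp ht0
      refine ⟨a.1, a.2, ?_⟩
      rw [hcc1 a.1 a.2]; exact ha
    · intro a
      by_cases h : a ∈ Good
      · rw [hcc1 a h]
        refine le_trans ?_ htn'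
        have := norm_le_pi_norm t ⟨a, h⟩
        rwa [Int.norm_eq_abs] at this
      · rw [hcc0 a h]; simp; positivity
    · intro J hJ
      have hsub : Good ⊆ D := Finset.sdiff_subset
      rw [← Finset.sum_subset hsub (by
        intro a _ ha
        rw [hcc0 a ha]; simp)]
      rw [← Finset.sum_coe_sort Good]
      have h1 : ∀ a : ↥Good, ((cc a.1 : ℤ) : ℝ) *
          ∏ h : Fin m, ∏ l ∈ (Finset.univ : Finset (Fin n)).erase Y,
            (((a.1 h l).choose (J h l) : ℝ) * ξ ^ (a.1 h l - J h l)) =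
          ∑ i ∈ Finset.range Dg, ((t a : ℝ) * ((bc a.1 J : ℝ) * (ρ (sx a.1 J) i : ℝ))) * ξ ^ i := by
        intro a
        rw [hcc1 a.1 a.2]
        have h2 : ∏ h : Fin m, ∏ l ∈ (Finset.univ : Finset (Fin n)).erase Y,
            (((a.1 h l).choose (J h l) : ℝ) * ξ ^ (a.1 h l - J h l)) =
            (bc a.1 J : ℝ) * ξ ^ (sx a.1 J) := by
          simp only [bc, sx]
          push_cast
          simp_rw [Finset.prod_mul_distrib, Finset.prod_pow_eq_pow_sum]
        rw [h2, hρ (sx a.1 J), Finset.mul_sum, Finset.mul_sum]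
        refine Finset.sum_congr rfl (fun i _ => ?_)
        ring
      rw [Finset.sum_congr rfl (fun a _ => h1 a), Finset.sum_comm]
      apply Finset.sum_eq_zero
      intro i hi
      rw [← Finset.sum_mul]
      have h3 := congrFun hAt (⟨J, hJ⟩, ⟨i, Finset.mem_range.mp hi⟩)
      simp only [Matrix.mulVec, dotProduct, A, Matrix.of_apply, Pi.zero_apply] at h3
      have h4 : ∑ a : ↥Good, ((t a : ℝ) * ((bc a.1 J : ℝ) * (ρ (sx a.1 J) i : ℝ))) = 0 := by
        have h5 : ((∑ x : ↥Good, (bc x.1 J : ℤ) * ρ (sx x.1 J) i * t x : ℤ) : ℝ) = 0 := by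
          rw [h3]; simp
        push_cast at h5
        rw [← h5]
        refine Finset.sum_congr rfl (fun a _ => ?_)
        ring
      rw [h4, zero_mul]

end Pool.Agent.H393R2
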