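import Mathlib

set_option autoImplicit false

open Finset Matrix

namespace Pool.Agent.H393R2

/-- real vectors orthogonal to `x` are real combinations of `n'` independent integer vectors
orthogonal to `x`. -/
theorem span_perp (n' : ℕ) (x : Fin (n' + 1) → ℤ) (hx : x ≠ 0) (w : Fin n' → Fin (n' + 1) → ℤ)
    (hw : LinearIndependent ℤ w) (horth : ∀ i, ∑ l, x l * w i l = 0)
    (V : Fin (n' + 1) → ℝ) (hV : ∑ l, (x l : ℝ) * V l = 0) :
    ∃ u : Fin n' → ℝ, ∀ l, V l = ∑ i, u i * (w i l : ℝ) := by
  classical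
  let G : Matrix (Fin (n' + 1)) (Fin (n' + 1)) ℤ := Fin.cons x w
  have hxx : 0 < ∑ l, x l * x l := by
    obtain ⟨l, hl⟩ := Function.ne_iff.1 hx
    have h1 : 0 < x l * x l := by
      have : x l ≠ 0 := hl
      exact mul_self_pos.2 this
    refine lt_of_lt_of_le h1 ?_
    exact Finset.single_le_sum (f := fun l => x l * x l) (fun i _ => mul_self_nonneg _)
      (Finset.mem_univ l)
  have hdet : G.det ≠ 0 := by
    intro hdet
    obtain ⟨v, hv0, hv⟩ := Matrix.exists_vecMul_eq_zero_iff.2 hdet
    have h1 : ∀ l, v 0 * x l + ∑ i : Fin n', v i.succ * w i l = 0 := by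
      intro l
      have := congrFun hv l
      simp only [Matrix.vecMul, dotProduct, Fin.sum_univ_succ, G, Pi.zero_apply] at this
      simpa using this
    have h2 : v 0 * ∑ l, x l * x l = 0 := by
      have h3 : ∑ l, (v 0 * x l + ∑ i : Fin n', v i.succ * w i l) * x l = 0 := by
        apply Finset.sum_eq_zero
        intro l _
        rw [h1 l, zero_mul]
      have h4 : ∑ l, (v 0 * x l + ∑ i : Fin n', v i.succ * w i l) * x l =
          v 0 * ∑ l, x l * x l + ∑ i : Fin n', v i.succ * ∑ l, x l * w i l := by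
        simp only [add_mul, Finset.sum_add_distrib, Finset.mul_sum, Finset.sum_mul]
        congr 1
        · apply Finset.sum_congr rfl
          intro l _; ring
        · rw [Finset.sum_comm]
          apply Finset.sum_congr rfl
          intro i _
          apply Finset.sum_congr rfl
          intro l _; ring
      rw [h4] at h3
      simpa [horth] using h3
    have h5 : v 0 = 0 := by
      rcases mul_eq_zero.1 h2 with h | h
      · exact h
      · exact absurd h hxx.ne'
    have h6 : ∑ i : Fin n', v i.succ • w i = 0 := by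
      funext l
      have := h1 l
      rw [h5, zero_mul, zero_add] at this
      simpa [Finset.sum_apply] using this
    have h7 := Fintype.linearIndependent_iff.1 hw (fun i => v i.succ) h6
    apply hv0
    funext i
    refine Fin.cases h5 (fun j => ?_) i
    exact h7 j
  let GR : Matrix (Fin (n' + 1)) (Fin (n' + 1)) ℝ := G.map (Int.castRingHom ℝ)
  have hdetR : GR.det ≠ 0 := by
    have : GR.det = (Int.castRingHom ℝ) G.det := by
      rw [RingHom.map_det]; rfl
    rw [this]
    simpa using hdet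
  have hunit : IsUnit GR.det := isUnit_iff_ne_zero.2 hdetR
  let u : Fin (n' + 1) → ℝ := V ᵥ* GR⁻¹
  have hu : u ᵥ* GR = V := by
    simp only [u, Matrix.vecMul_vecMul, Matrix.nonsing_inv_mul _ hunit, Matrix.vecMul_one]
  have h1 : ∀ l, V l = u 0 * (x l : ℝ) + ∑ i : Fin n', u i.succ * (w i l : ℝ) := by
    intro l
    have := congrFun hu l
    rw [← this]
    simp [Matrix.vecMul, dotProduct, Fin.sum_univ_succ, GR, G]
  have hxxR : (0 : ℝ) < ∑ l, (x l : ℝ) * x l := by exact_mod_cast hxx
  have horthR : ∀ i, ∑ l, (x l : ℝ) * w i l = 0 := by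
    intro i
    exact_mod_cast congrArg (Int.cast (R := ℝ)) (horth i)
  have h2 : u 0 * ∑ l, (x l : ℝ) * x l = 0 := by
    have h3 : ∑ l, (x l : ℝ) * (u 0 * (x l : ℝ) + ∑ i : Fin n', u i.succ * (w i l : ℝ)) = 0 := by
      rw [← hV]
      apply Finset.sum_congr rfl
      intro l _
      rw [← h1 l]
    have h4 : ∑ l, (x l : ℝ) * (u 0 * (x l : ℝ) + ∑ i : Fin n', u i.succ * (w i l : ℝ)) =
        u 0 * ∑ l, (x l : ℝ) * x l + ∑ i : Fin n', u i.succ * ∑ l, (x l : ℝ) * w i l := by
      simp only [mul_add, Finset.sum_add_distrib, Finset.mul_sum]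
      congr 1
      · apply Finset.sum_congr rfl
        intro l _; ring
      · rw [Finset.sum_comm]
        apply Finset.sum_congr rfl
        intro i _
        apply Finset.sum_congr rfl
        intro l _; ring
    rw [h4] at h3
    simpa [horthR] using h3
  have h5 : u 0 = 0 := by
    rcases mul_eq_zero.1 h2 with h | h
    · exact h
    · exact absurd h hxxR.ne'
  refine ⟨fun i => u i.succ, fun l => ?_⟩
  rw [h1 l, h5, zero_mul, zero_add]

/-- fast growing selection -/
theorem exists_fast (N : ℕ → ℝ) (hN0 : ∀ t, 0 < N t)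
    (hN : Filter.Tendsto N Filter.atTop Filter.atTop) (T0 : ℕ) (Ns ρ : ℝ) (hρ : 1 ≤ ρ) :
    ∃ f : ℕ → ℕ, (∀ i, T0 ≤ f i) ∧ (∀ i, Ns ≤ N (f i)) ∧ ∀ i j, i < j → ρ * N (f i) ≤ N (f j) := by
  have hstep : ∀ B : ℝ, ∃ t, T0 ≤ t ∧ B ≤ N t := by
    intro B
    have h1 := (Filter.tendsto_atTop.1 hN B).and (Filter.eventually_ge_atTop T0)
    obtain ⟨t, ht⟩ := h1.exists
    exact ⟨t, ht.2, ht.1⟩
  choose g hg1 hg2 using hstep
  let f : ℕ → ℕ := fun i => Nat.rec (g Ns) (fun _ t => g (max Ns (ρ * N t))) i
  have hf1 : ∀ i, T0 ≤ f i := by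
    intro i
    cases i with
    | zero => exact hg1 _
    | succ i => exact hg1 _
  have hf2 : ∀ i, Ns ≤ N (f i) := by
    intro i
    cases i with
    | zero => exact hg2 _
    | succ i => exact (le_max_left _ _).trans (hg2 (max Ns (ρ * N (f i))))
  have hf3 : ∀ i, ρ * N (f i) ≤ N (f (i + 1)) := fun i =>
    (le_max_right _ _).trans (hg2 (max Ns (ρ * N (f i))))
  have hmono : ∀ i j, i ≤ j → N (f i) ≤ N (f j) := by
    intro i j hij
    induction j, hij using Nat.le_induction with
    | base => exact le_rfl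
    | succ j _ ih =>
      refine ih.trans (le_trans ?_ (hf3 j))
      have := hN0 (f j)
      nlinarith
  refine ⟨f, hf1, hf2, ?_⟩
  intro i j hij
  exact (hf3 i).trans (hmono (i + 1) j hij)

end Pool.Agent.H393R2
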