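import Pool.Agent.H393R2.Vanish

set_option autoImplicit false

open Finset

namespace Pool.Agent.H393R2

/-- the sum with the variables in `T` dropped -/
noncomputable def ST {m n : ℕ} (r : Fin m → ℕ) (j1 : Fin n) (k : Fin m → ℕ)
    (T : Finset (Fin m × Fin n)) (c : (Fin m → Fin n → ℕ) → ℤ) (W : Fin m → Fin n → ℝ) : ℝ :=
  ∑ a ∈ Dset m n r, (c a : ℝ) * ((∏ h, (((a h j1).choose (k h) : ℕ) : ℝ)) *
    ∏ p : Fin m × Fin n, if p ∈ T then 1 else
      W p.1 p.2 ^ (a p.1 p.2 - if p.2 = j1 then k p.1 else 0))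

lemma ST_empty {m n : ℕ} (r : Fin m → ℕ) (j1 : Fin n) (k : Fin m → ℕ)
    (c : (Fin m → Fin n → ℕ) → ℤ) (W : Fin m → Fin n → ℝ) :
    ST r j1 k ∅ c W = Sk r j1 k c W := by
  unfold ST Sk
  apply Finset.sum_congr rfl
  intro a _
  congr 1
  unfold bterm
  rw [Finset.prod_mul_distrib]
  congr 1
  simp only [Finset.notMem_empty, if_false]
  rw [Fintype.prod_prod_type]

lemma ST_step {m n : ℕ} (r : Fin m → ℕ) (j1 : Fin n) (K : Set (Fin m → ℕ))
    (x : Fin m → Fin n → ℝ) (hx : ∀ h, x h j1 ≠ 0)
    (T : Finset (Fin m × Fin n)) (hT : ∀ p ∈ T, p.2 ≠ j1) (s : Fin m × Fin n) (hs : s ∉ T)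
    (hsj : s.2 ≠ j1) (c : (Fin m → Fin n → ℕ) → ℤ) (hc0 : ∃ a ∈ Dset m n r, c a ≠ 0)
    (hv : ∀ k ∈ K, ∀ W : Fin m → Fin n → ℝ, (∀ h, ∑ l, x h l * W h l = 0) →
      (∀ p ∈ T, W p.1 p.2 = 0) → ST r j1 k T c W = 0) :
    ∃ e : ℕ, (∃ a ∈ Dset m n r, c a ≠ 0 ∧ a s.1 s.2 = e) ∧
      ∀ k ∈ K, ∀ W : Fin m → Fin n → ℝ, (∀ h, ∑ l, x h l * W h l = 0) →
      (∀ p ∈ insert s T, W p.1 p.2 = 0) →
      ST r j1 k (insert s T) (fun a => if a s.1 s.2 = e then c a else 0) W = 0 := by
  classical
  -- minimal exponent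
  have hex : ∃ e : ℕ, ∃ a ∈ Dset m n r, c a ≠ 0 ∧ a s.1 s.2 = e := by
    obtain ⟨a, ha, hca⟩ := hc0
    exact ⟨a s.1 s.2, a, ha, hca, rfl⟩
  let e := Nat.find hex
  have he : ∃ a ∈ Dset m n r, c a ≠ 0 ∧ a s.1 s.2 = e := Nat.find_spec hex
  have hmin : ∀ a ∈ Dset m n r, c a ≠ 0 → e ≤ a s.1 s.2 := by
    intro a ha hca
    exact Nat.find_min' hex ⟨a, ha, hca, rfl⟩
  refine ⟨e, he, ?_⟩
  intro k hk W hW0 hWT
  have hWs : W s.1 s.2 = 0 := hWT s (Finset.mem_insert_self _ _)
  let Wt : ℝ → Fin m → Fin n → ℝ := fun t h l =>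
    if h = s.1 ∧ l = s.2 then t else if h = s.1 ∧ l = j1 then
      W h l - x s.1 s.2 * t / x s.1 j1 else W h l
  have hcon : ∀ t h, ∑ l, x h l * Wt t h l = 0 := by
    intro t h
    by_cases hh : h = s.1
    · subst hh
      have h1 : ∀ l, x s.1 l * Wt t s.1 l = x s.1 l * W s.1 l + ((if l = s.2 then x s.1 s.2 * t
          else 0) + if l = j1 then - (x s.1 s.2 * t) else 0) := by
        intro l
        by_cases hl : l = s.2
        · subst hl
          simp only [Wt, and_self, if_true, if_neg hsj, hWs]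
          ring
        · by_cases hl2 : l = j1
          · subst hl2
            simp only [Wt, hl, and_false, if_false, and_self, if_true]
            have := hx s.1
            field_simp
            ring
          · simp only [Wt, hl, hl2, and_false, if_false]
            ring
      rw [Finset.sum_congr rfl (fun l _ => h1 l), Finset.sum_add_distrib, hW0,
        Finset.sum_add_distrib, Finset.sum_ite_eq', Finset.sum_ite_eq']
      simp
    · have h1 : ∀ l, x h l * Wt t h l = x h l * W h l := by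
        intro l
        simp only [Wt, hh, false_and, if_false]
      rw [Finset.sum_congr rfl (fun l _ => h1 l), hW0]
  have hTz : ∀ t, ∀ p ∈ T, Wt t p.1 p.2 = 0 := by
    intro t p hp
    have hps : ¬ (p.1 = s.1 ∧ p.2 = s.2) := by
      rintro ⟨h1, h2⟩
      exact hs (by rw [← Prod.ext h1 h2]; exact hp)
    have hp2 : ¬ (p.1 = s.1 ∧ p.2 = j1) := fun h => hT p hp h.2
    simp only [Wt, if_neg hps, if_neg hp2]
    exact hWT p (Finset.mem_insert_of_mem hp)
  let g : ℝ → ℝ := fun t => ∑ a ∈ Dset m n r, (c a : ℝ) *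
    ((∏ h, (((a h j1).choose (k h) : ℕ) : ℝ)) * (t ^ (a s.1 s.2 - e) *
    ∏ p ∈ (Finset.univ : Finset (Fin m × Fin n)).erase s, if p ∈ T then 1 else
      Wt t p.1 p.2 ^ (a p.1 p.2 - if p.2 = j1 then k p.1 else 0)))
  have hfac : ∀ t, ST r j1 k T c (Wt t) = t ^ e * g t := by
    intro t
    simp only [ST, g]
    rw [Finset.mul_sum]
    apply Finset.sum_congr rfl
    intro a ha
    by_cases hca : c a = 0
    · simp [hca]
    rw [← Finset.mul_prod_erase Finset.univ _ (Finset.mem_univ s), if_neg hs, if_neg hsj]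
    have h1 : Wt t s.1 s.2 = t := by simp [Wt]
    rw [h1, Nat.sub_zero]
    have h2 : t ^ (a s.1 s.2) = t ^ e * t ^ (a s.1 s.2 - e) := by
      rw [← pow_add]; congr 1; have := hmin a ha hca; omega
    rw [h2]; ring
  have hg0 : ∀ t, t ≠ 0 → g t = 0 := by
    intro t ht
    have h1 := hv k hk (Wt t) (hcon t) (hTz t)
    rw [hfac] at h1
    rcases mul_eq_zero.1 h1 with h | h
    · exact absurd h (pow_ne_zero _ ht)
    · exact h
  have hcont : Continuous g := by
    have hWc : ∀ h l, Continuous (fun t => Wt t h l) := by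
      intro h l
      simp only [Wt]
      split_ifs
      · exact continuous_id
      · fun_prop
      · exact continuous_const
    simp only [g]
    apply continuous_finsetSum
    intro a _
    apply Continuous.mul continuous_const
    apply Continuous.mul continuous_const
    apply Continuous.mul (continuous_pow _)
    apply continuous_finsetProd
    intro p _
    split_ifs
    · exact continuous_const
    · exact (hWc _ _).pow _
    · exact (hWc _ _).pow _
  have hg00 : g 0 = 0 := by
    have hcl : IsClosed {t | g t = 0} := isClosed_eq hcont continuous_const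
    have hsub : {t : ℝ | t ≠ 0} ⊆ {t | g t = 0} := fun t ht => hg0 t ht
    have hdense : Dense {t : ℝ | t ≠ 0} := by
      have h1 := dense_compl_singleton (0 : ℝ)
      have h2 : {t : ℝ | t ≠ 0} = {0}ᶜ := by ext t; simp
      rw [h2]; exact h1
    have := hcl.closure_subset_iff.2 hsub
    rw [hdense.closure_eq] at this
    exact this (Set.mem_univ 0)
  rw [← hg00]
  simp only [ST, g]
  apply Finset.sum_congr rfl
  intro a ha
  have hW00 : ∀ h l, Wt 0 h l = W h l := by
    intro h l
    simp only [Wt]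
    split_ifs with h1 h2
    · rw [h1.1, h1.2, hWs]
    · simp
    · rfl
  by_cases hae : a s.1 s.2 = e
  · rw [if_pos hae, ← Finset.mul_prod_erase Finset.univ _ (Finset.mem_univ s), if_pos
      (Finset.mem_insert_self _ _), hae, Nat.sub_self, pow_zero]
    congr 3
    apply Finset.prod_congr rfl
    intro p hp
    have hps : p ≠ s := by simpa using hp
    rw [hW00]
    by_cases hpT : p ∈ T
    · rw [if_pos hpT, if_pos (Finset.mem_insert_of_mem hpT)]
    · rw [if_neg hpT, if_neg]
      intro h
      rcases Finset.mem_insert.1 h with h | h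
      · exact hps h
      · exact hpT h
  · rw [if_neg hae]
    by_cases hca : c a = 0
    · simp [hca]
    have h1 : a s.1 s.2 - e ≠ 0 := by
      have := hmin a ha hca
      omega
    rw [zero_pow h1]
    simp

theorem reduce_pair {m n : ℕ} (r : Fin m → ℕ) (j1 j2 : Fin n) (hj : j1 ≠ j2)
    (K : Set (Fin m → ℕ)) (c : (Fin m → Fin n → ℕ) → ℤ) (H : ℝ) (hH : 0 ≤ H)
    (hc0 : ∃ a ∈ Dset m n r, c a ≠ 0)
    (hcH : ∀ a ∈ Dset m n r, |(c a : ℝ)| ≤ H) (x : Fin m → Fin n → ℝ) (hx : ∀ h, x h j1 ≠ 0)
    (hv : ∀ k ∈ K, ∀ W : Fin m → Fin n → ℝ, (∀ h, ∑ l, x h l * W h l = 0) →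
      Sk r j1 k c W = 0) :
    ∃ c' : (Fin m → ℕ) → ℤ,
      (∃ a ∈ Fintype.piFinset (fun h => Finset.range (r h + 1)), c' a ≠ 0) ∧
      (∀ a ∈ Fintype.piFinset (fun h => Finset.range (r h + 1)), |(c' a : ℝ)| ≤ H) ∧
      ∀ k ∈ K, ∑ a ∈ Fintype.piFinset (fun h => Finset.range (r h + 1)),
        (c' a : ℝ) * ∏ h, (((a h).choose (k h) : ℝ) * (-(x h j2) / (x h j1)) ^ (a h - k h))
          = 0 := by
  classical
  -- the invariant
  have key : ∀ T : Finset (Fin m × Fin n), (∀ p ∈ T, p.2 ≠ j1) →
      ∃ cT : (Fin m → Fin n → ℕ) → ℤ, (∃ a ∈ Dset m n r, cT a ≠ 0) ∧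
        (∀ a, cT a = c a ∨ cT a = 0) ∧
        (∃ e : Fin m → Fin n → ℕ, ∀ a, cT a ≠ 0 → ∀ p ∈ T, a p.1 p.2 = e p.1 p.2) ∧
        ∀ k ∈ K, ∀ W : Fin m → Fin n → ℝ, (∀ h, ∑ l, x h l * W h l = 0) →
          (∀ p ∈ T, W p.1 p.2 = 0) → ST r j1 k T cT W = 0 := by
    intro T
    induction T using Finset.induction_on with
    | empty =>
      intro _
      refine ⟨c, hc0, fun a => Or.inl rfl, ⟨fun _ _ => 0, by simp⟩, ?_⟩
      intro k hk W hW _
      rw [ST_empty]
      exact hv k hk W hW
    | insert s T hs ih =>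
      intro hT
      have hT' : ∀ p ∈ T, p.2 ≠ j1 := fun p hp => hT p (Finset.mem_insert_of_mem hp)
      obtain ⟨cT, h1, h2, ⟨e, h3⟩, h4⟩ := ih hT'
      obtain ⟨e', h5, h6⟩ := ST_step r j1 K x hx T hT' s hs
        (hT s (Finset.mem_insert_self _ _)) cT h1 h4
      refine ⟨fun a => if a s.1 s.2 = e' then cT a else 0, ?_, ?_, ?_, h6⟩
      · obtain ⟨a, ha, hca, hae⟩ := h5
        exact ⟨a, ha, by simp [hae, hca]⟩
      · intro a
        by_cases h : a s.1 s.2 = e'
        · simp only [if_pos h]; exact h2 a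
        · simp only [if_neg h]; exact Or.inr trivial
      · refine ⟨fun h l => if (h, l) = s then e' else e h l, ?_⟩
        intro a ha p hp
        have ha' : a s.1 s.2 = e' ∧ cT a ≠ 0 := by
          by_cases h : a s.1 s.2 = e'
          · simp only [if_pos h] at ha; exact ⟨h, ha⟩
          · simp only [if_neg h] at ha; exact absurd rfl ha
        rcases Finset.mem_insert.1 hp with h | h
        · subst h; simp [ha'.1]
        · have hne : (p.1, p.2) ≠ s := fun hh => hs (by rw [← hh]; exact h)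
          show a p.1 p.2 = if (p.1, p.2) = s then e' else e p.1 p.2
          rw [if_neg hne]
          exact h3 a ha'.2 p h
  let T : Finset (Fin m × Fin n) := Finset.univ.filter (fun p => p.2 ≠ j1 ∧ p.2 ≠ j2)
  obtain ⟨cT, h1, h2, ⟨e, h3⟩, h4⟩ := key T (by intro p hp; simp [T] at hp; exact hp.1)
  -- uniqueness
  have huniq : ∀ a ∈ Dset m n r, ∀ a' ∈ Dset m n r, cT a ≠ 0 → cT a' ≠ 0 →
      (∀ h, a h j1 = a' h j1) → a = a' := by
    intro a ha a' ha' hca hca' hjj
    funext h l
    rw [mem_Dset] at ha ha'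
    have hoth : ∀ l, l ≠ j2 → a h l = a' h l := by
      intro l hl
      by_cases hl1 : l = j1
      · rw [hl1]; exact hjj h
      · rw [h3 a hca (h, l) (by simp [T, hl, hl1]), h3 a' hca' (h, l) (by simp [T, hl, hl1])]
    by_cases hl : l = j2
    · subst hl
      have e1 := ha h
      have e2 := ha' h
      rw [← Finset.add_sum_erase _ _ (Finset.mem_univ l)] at e1 e2
      have e3 : ∑ l' ∈ (Finset.univ : Finset (Fin n)).erase l, a h l' =
          ∑ l' ∈ (Finset.univ : Finset (Fin n)).erase l, a' h l' := by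
        apply Finset.sum_congr rfl
        intro l' hl'
        exact hoth l' (by simpa using hl')
      omega
    · exact hoth l hl
  let pr : (Fin m → Fin n → ℕ) → (Fin m → ℕ) := fun a h => a h j1
  have hmaps : ∀ a ∈ Dset m n r, pr a ∈ Fintype.piFinset (fun h => Finset.range (r h + 1)) := by
    intro a ha
    rw [mem_Dset] at ha
    rw [Fintype.mem_piFinset]
    intro h
    rw [Finset.mem_range]
    have : a h j1 ≤ ∑ l, a h l := Finset.single_le_sum (f := fun l => a h l)
      (fun _ _ => Nat.zero_le _) (Finset.mem_univ j1)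
    have := ha h
    simp only [pr]
    omega
  let c' : (Fin m → ℕ) → ℤ := fun a' => ∑ a ∈ (Dset m n r).filter (fun a => pr a = a'), cT a
  have hc'1 : ∀ a ∈ Dset m n r, cT a ≠ 0 → c' (pr a) = cT a := by
    intro a ha hca
    simp only [c']
    rw [Finset.sum_eq_single a]
    · intro b hb hba
      by_contra hcb
      apply hba
      have hb1 : b ∈ Dset m n r := (Finset.mem_filter.1 hb).1
      have hb2 : pr b = pr a := (Finset.mem_filter.1 hb).2
      have hb3 : ∀ h, b h j1 = a h j1 := fun h => congrFun hb2 h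
      exact huniq b hb1 a ha hcb hca hb3
    · intro h
      exfalso
      apply h
      have hself : pr a = pr a := rfl
      exact Finset.mem_filter.2 ⟨ha, hself⟩
  refine ⟨c', ?_, ?_, ?_⟩
  · obtain ⟨a, ha, hca⟩ := h1
    exact ⟨pr a, hmaps a ha, by rw [hc'1 a ha hca]; exact hca⟩
  · intro a' _
    by_cases hex : ∃ a ∈ Dset m n r, cT a ≠ 0 ∧ pr a = a'
    · obtain ⟨a, ha, hca, hpr⟩ := hex
      rw [← hpr, hc'1 a ha hca]
      rcases h2 a with h | h
      · rw [h]; exact hcH a ha
      · exact absurd h hca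
    · push Not at hex
      have : c' a' = 0 := by
        simp only [c']
        apply Finset.sum_eq_zero
        intro a ha
        rw [Finset.mem_filter] at ha
        by_contra hca
        exact hex a ha.1 hca ha.2
      rw [this]; simpa using hH
  · intro k hk
    let W : Fin m → Fin n → ℝ := fun h l => if l = j1 then -(x h j2) / (x h j1) else
      if l = j2 then 1 else 0
    have hW : ∀ h, ∑ l, x h l * W h l = 0 := by
      intro h
      have h5 : ∀ l, x h l * W h l = (if l = j1 then - x h j2 else 0) +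
          if l = j2 then x h j2 else 0 := by
        intro l
        by_cases hl1 : l = j1
        · subst hl1
          simp only [W, if_true, if_neg hj]
          have := hx h
          field_simp
          ring
        · by_cases hl2 : l = j2
          · subst hl2
            simp [W, hl1]
          · simp [W, hl1, hl2]
      rw [Finset.sum_congr rfl (fun l _ => h5 l), Finset.sum_add_distrib, Finset.sum_ite_eq',
        Finset.sum_ite_eq']
      simp
    have h5 := h4 k hk W hW (by
      intro p hp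
      simp only [T, Finset.mem_filter] at hp
      simp [W, hp.2.1, hp.2.2])
    rw [← h5]
    unfold ST
    rw [← Finset.sum_fiberwise_of_maps_to hmaps]
    apply Finset.sum_congr rfl
    intro a' _
    simp only [c']
    push_cast
    rw [Finset.sum_mul]
    apply Finset.sum_congr rfl
    intro a ha
    rw [Finset.mem_filter] at ha
    congr 1
    rw [Finset.prod_mul_distrib]
    have hpr : ∀ h, a' h = a h j1 := fun h => (congrFun ha.2 h).symm
    congr 1
    · apply Finset.prod_congr rfl
      intro h _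
      rw [hpr h]
    · rw [Fintype.prod_prod_type]
      apply Finset.prod_congr rfl
      intro h _
      rw [← Finset.mul_prod_erase Finset.univ _ (Finset.mem_univ j1)]
      have h6 : ∏ l ∈ (Finset.univ : Finset (Fin n)).erase j1, (if (h, l) ∈ T then (1 : ℝ) else
          W (h, l).1 (h, l).2 ^ (a (h, l).1 (h, l).2 - if (h, l).2 = j1 then k (h, l).1 else 0))
          = 1 := by
        apply Finset.prod_eq_one
        intro l hl
        have hl1 : l ≠ j1 := by simpa using hl
        by_cases hl2 : l = j2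
        · subst hl2
          rw [if_neg (by simp [T])]
          simp [W, hl1]
        · rw [if_pos (by simp [T, hl1, hl2])]
      rw [h6, mul_one, if_neg (by simp [T])]
      simp only [if_true, W, hpr h]

end Pool.Agent.H393R2
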