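import Mathlib

set_option autoImplicit false

open Finset

namespace Pool.Agent.H393R2

variable {σ : Type*}

/-- the sum of the absolute values of the coefficients -/
noncomputable def l1 (f : MvPolynomial σ ℝ) : ℝ := ∑ κ ∈ f.support, |f.coeff κ|

lemma l1_nonneg (f : MvPolynomial σ ℝ) : 0 ≤ l1 f :=
  Finset.sum_nonneg (fun _ _ => abs_nonneg _)

lemma abs_coeff_le_l1 (f : MvPolynomial σ ℝ) (κ : σ →₀ ℕ) : |f.coeff κ| ≤ l1 f := by
  by_cases h : κ ∈ f.support
  · exact Finset.single_le_sum (f := fun κ => |f.coeff κ|) (fun _ _ => abs_nonneg _) h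
  · rw [MvPolynomial.notMem_support_iff] at h
    rw [h, abs_zero]
    exact l1_nonneg f

lemma l1_eq_sum (f : MvPolynomial σ ℝ) (s : Finset (σ →₀ ℕ)) (hs : f.support ⊆ s) :
    l1 f = ∑ κ ∈ s, |f.coeff κ| := by
  apply Finset.sum_subset hs
  intro κ _ h
  rw [MvPolynomial.notMem_support_iff] at h
  rw [h, abs_zero]

lemma l1_zero : l1 (0 : MvPolynomial σ ℝ) = 0 := by simp [l1]

lemma l1_add_le (f g : MvPolynomial σ ℝ) : l1 (f + g) ≤ l1 f + l1 g := by
  classical
  rw [l1_eq_sum (f + g) (f.support ∪ g.support) MvPolynomial.support_add,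
    l1_eq_sum f (f.support ∪ g.support) Finset.subset_union_left,
    l1_eq_sum g (f.support ∪ g.support) Finset.subset_union_right, ← Finset.sum_add_distrib]
  apply Finset.sum_le_sum
  intro κ _
  rw [MvPolynomial.coeff_add]
  exact abs_add_le _ _

lemma l1_sum_le {ι : Type*} (s : Finset ι) (f : ι → MvPolynomial σ ℝ) :
    l1 (∑ i ∈ s, f i) ≤ ∑ i ∈ s, l1 (f i) := by
  classical
  induction s using Finset.induction_on with
  | empty => simp [l1_zero]
  | insert a s ha ih =>
    rw [Finset.sum_insert ha, Finset.sum_insert ha]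
    exact (l1_add_le _ _).trans (by linarith)

lemma l1_monomial (a : σ →₀ ℕ) (c : ℝ) : l1 (MvPolynomial.monomial a c) = |c| := by
  classical
  by_cases hc : c = 0
  · subst hc; simp [l1_zero]
  · rw [l1, MvPolynomial.support_monomial, if_neg hc]
    simp

lemma l1_mul_le (f g : MvPolynomial σ ℝ) : l1 (f * g) ≤ l1 f * l1 g := by
  classical
  have h : f * g = ∑ a ∈ f.support, ∑ b ∈ g.support,
      MvPolynomial.monomial (a + b) (f.coeff a * g.coeff b) := by
    conv_lhs => rw [MvPolynomial.as_sum f, MvPolynomial.as_sum g]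
    rw [Finset.sum_mul_sum]
    apply Finset.sum_congr rfl
    intro a _
    apply Finset.sum_congr rfl
    intro b _
    rw [MvPolynomial.monomial_mul]
  rw [h]
  refine (l1_sum_le _ _).trans ?_
  calc ∑ a ∈ f.support, l1 (∑ b ∈ g.support,
        MvPolynomial.monomial (a + b) (f.coeff a * g.coeff b))
      ≤ ∑ a ∈ f.support, ∑ b ∈ g.support, |f.coeff a| * |g.coeff b| := by
        apply Finset.sum_le_sum
        intro a _
        refine (l1_sum_le _ _).trans ?_
        apply Finset.sum_le_sum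
        intro b _
        rw [l1_monomial, abs_mul]
    _ = l1 f * l1 g := by
        rw [l1, l1, Finset.sum_mul_sum]

lemma l1_C (c : ℝ) : l1 (MvPolynomial.C c : MvPolynomial σ ℝ) = |c| := by
  rw [MvPolynomial.C_apply]; exact l1_monomial _ _

lemma l1_one : l1 (1 : MvPolynomial σ ℝ) = 1 := by
  rw [← MvPolynomial.C_1, l1_C, abs_one]

lemma l1_X (i : σ) : l1 (MvPolynomial.X i : MvPolynomial σ ℝ) = 1 := by
  rw [MvPolynomial.X]; rw [l1_monomial]; simp

lemma l1_prod_le {ι : Type*} (s : Finset ι) (f : ι → MvPolynomial σ ℝ) :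
    l1 (∏ i ∈ s, f i) ≤ ∏ i ∈ s, l1 (f i) := by
  classical
  induction s using Finset.induction_on with
  | empty => simp [l1_one]
  | insert a s ha ih =>
    rw [Finset.prod_insert ha, Finset.prod_insert ha]
    exact (l1_mul_le _ _).trans (mul_le_mul_of_nonneg_left ih (l1_nonneg _))

lemma l1_pow_le (f : MvPolynomial σ ℝ) (k : ℕ) : l1 (f ^ k) ≤ l1 f ^ k := by
  induction k with
  | zero => simp [l1_one]
  | succ k ih =>
    rw [pow_succ, pow_succ]
    exact (l1_mul_le _ _).trans (mul_le_mul_of_nonneg_right ih (l1_nonneg _))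

lemma l1_natCast (k : ℕ) : l1 ((k : ℕ) : MvPolynomial σ ℝ) = k := by
  have : ((k : ℕ) : MvPolynomial σ ℝ) = MvPolynomial.C (k : ℝ) := by simp
  rw [this, l1_C]; simp

end Pool.Agent.H393R2
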