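import Mathlib

/-! TEAM-S, task 3 (geometry of numbers), part 1: ordering of linear forms along a flag and the
reduction lemma. -/

set_option autoImplicit false

open Finset Module

namespace Pool.Agent.H393R2

namespace Geom

/-- `T` controls the subspace `V` -/
def Ctrl {N : ℕ} (V : Submodule ℝ (Fin N → ℝ)) (T : Set (Fin N)) (K : ℝ) : Prop :=
  ∀ x ∈ V, ∀ B : ℝ, 0 ≤ B → (∀ k ∈ T, |x k| ≤ B) → ∀ l, |x l| ≤ K * B

theorem ctrl_erase {N : ℕ} {V V' : Submodule ℝ (Fin N → ℝ)} (hVV : V ≤ V') {T : Finset (Fin N)}
    {K : ℝ} (h : Ctrl V' T K) (hd : finrank ℝ V < T.card) :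
    ∃ i ∈ T, Ctrl V (T.erase i : Finset (Fin N)) (K * N) := by
  classical
  let v : T → Module.Dual ℝ V := fun k => (LinearMap.proj (k : Fin N)).comp V.subtype
  have hnl : ¬ LinearIndependent ℝ v := by
    intro hl
    have h1 := hl.fintype_card_le_finrank
    rw [Subspace.dual_finrank_eq, Fintype.card_coe] at h1
    omega
  obtain ⟨a, ha, i1, hi1⟩ := Fintype.not_linearIndependent_iff.1 hnl
  obtain ⟨i0, -, hi0⟩ := Finset.exists_max_image (Finset.univ : Finset T) (fun k => |a k|)
    ⟨i1, Finset.mem_univ _⟩
  have ha0 : 0 < |a i0| := lt_of_lt_of_le (abs_pos.2 hi1) (hi0 i1 (Finset.mem_univ _))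
  have hN : 1 ≤ N := by
    have := (i0 : Fin N).pos
    omega
  refine ⟨i0, i0.2, ?_⟩
  intro x hx B hB hxB
  have hrel : ∑ k : T, a k * x k = 0 := by
    have := congrArg (fun f : Module.Dual ℝ V => f ⟨x, hx⟩) ha
    simpa [v] using this
  have hxi0 : |x i0| ≤ N * B := by
    rw [← Finset.add_sum_erase _ _ (Finset.mem_univ i0)] at hrel
    have e : a i0 * x i0 = -∑ k ∈ (Finset.univ : Finset T).erase i0, a k * x k := by linarith
    have h1 : |a i0| * |x i0| ≤ |a i0| * (N * B) := by
      rw [← abs_mul, e, abs_neg]
      calc |∑ k ∈ (Finset.univ : Finset T).erase i0, a k * x k|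
          ≤ ∑ k ∈ (Finset.univ : Finset T).erase i0, |a k * x k| := Finset.abs_sum_le_sum_abs _ _
        _ ≤ ∑ k ∈ (Finset.univ : Finset T).erase i0, |a i0| * B := by
            apply Finset.sum_le_sum
            intro k hk
            rw [abs_mul]
            apply mul_le_mul (hi0 k (Finset.mem_univ _)) _ (abs_nonneg _) (abs_nonneg _)
            apply hxB
            simp only [Finset.mem_coe, Finset.mem_erase]
            refine ⟨?_, k.2⟩
            intro hki
            exact (Finset.mem_erase.1 hk).1 (Subtype.ext hki)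
        _ ≤ |a i0| * (N * B) := by
            rw [Finset.sum_const, nsmul_eq_mul]
            have h2 : (((Finset.univ : Finset T).erase i0).card : ℝ) ≤ N := by
              have h3 : ((Finset.univ : Finset T).erase i0).card ≤ N := by
                calc ((Finset.univ : Finset T).erase i0).card ≤ (Finset.univ : Finset T).card :=
                      Finset.card_le_card (Finset.erase_subset _ _)
                  _ = T.card := by rw [Finset.card_univ, Fintype.card_coe]
                  _ ≤ (Finset.univ : Finset (Fin N)).card := Finset.card_le_card (Finset.subset_univ _)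
                  _ = N := by simp
              exact_mod_cast h3
            have h4 : 0 ≤ |a i0| * B := by positivity
            nlinarith
    exact le_of_mul_le_mul_left h1 ha0
  have hNr : (1 : ℝ) ≤ N := by exact_mod_cast hN
  have hall : ∀ k ∈ (T : Set (Fin N)), |x k| ≤ N * B := by
    intro k hk
    by_cases hki : k = i0
    · rw [hki]; exact hxi0
    · have := hxB k (by
        simp only [Finset.mem_coe, Finset.mem_erase]
        exact ⟨hki, by simpa using hk⟩)
      nlinarith
  intro l
  have := h x (hVV hx) (N * B) (by positivity) hall l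
  linarith

theorem exists_order {N : ℕ} (hN : 0 < N) (V : ℕ → Submodule ℝ (Fin N → ℝ)) :
    ∀ m : ℕ, (∀ j < m, V j ≤ V (j + 1)) → (∀ j ≤ m, finrank ℝ (V j) = j) →
      ∀ (T : Finset (Fin N)) (K : ℝ), T.card = m → Ctrl (V m) T K →
      ∃ π : ℕ → Fin N, Set.InjOn π (Set.Iio m) ∧ π '' Set.Iio m = T ∧
        ∀ j ≤ m, Ctrl (V j) (π '' Set.Iio j) (K * (N : ℝ) ^ (m - j)) := by
  classical
  intro m
  induction m with
  | zero =>
    intro _ _ T K hT hC
    refine ⟨fun _ => ⟨0, hN⟩, ?_, ?_, ?_⟩
    · intro a ha; simp at ha
    · rw [Finset.card_eq_zero] at hT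
      simp [hT]
    · intro j hj
      obtain rfl : j = 0 := by omega
      rw [Finset.card_eq_zero] at hT
      subst hT
      simpa using hC
  | succ m ih =>
    intro hV hdim T K hT hC
    obtain ⟨i, hi, hCi⟩ := ctrl_erase (hV m (by omega)) hC (by rw [hdim m (by omega), hT]; omega)
    obtain ⟨π, hinj, him, hctrl⟩ := ih (fun j hj => hV j (by omega)) (fun j hj => hdim j (by omega))
      (T.erase i) (K * N) (by rw [Finset.card_erase_of_mem hi, hT]; omega) hCi
    have hupd : ∀ j ≤ m, (Function.update π m i) '' Set.Iio j = π '' Set.Iio j := by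
      intro j hj
      apply Set.image_congr
      intro a ha
      rw [Function.update_of_ne]
      have : a < j := ha
      omega
    have hfull : (Function.update π m i) '' Set.Iio (m + 1) = T := by
      have e : Set.Iio (m + 1) = insert m (Set.Iio m) := by
        ext a; simp only [Set.mem_Iio, Set.mem_insert_iff]; omega
      rw [e, Set.image_insert_eq, hupd m le_rfl, him, Function.update_self,
        Finset.coe_erase, Set.insert_sdiff_singleton, Set.insert_eq_of_mem (by simpa using hi)]
    refine ⟨Function.update π m i, ?_, hfull, ?_⟩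
    · intro a ha b hb hab
      simp only [Set.mem_Iio] at ha hb
      have him' : ∀ c < m, π c ≠ i := by
        intro c hc hci
        have : π c ∈ ((T.erase i : Finset (Fin N)) : Set (Fin N)) := by
          rw [← him]; exact ⟨c, hc, rfl⟩
        rw [hci] at this
        simp at this
      rcases Nat.lt_succ_iff_lt_or_eq.1 ha with ha' | ha' <;>
      rcases Nat.lt_succ_iff_lt_or_eq.1 hb with hb' | hb'
      · rw [Function.update_of_ne ha'.ne, Function.update_of_ne hb'.ne] at hab
        exact hinj ha' hb' hab
      · rw [hb', Function.update_of_ne ha'.ne, Function.update_self] at hab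
        exact absurd hab (him' a ha')
      · rw [ha', Function.update_of_ne hb'.ne, Function.update_self] at hab
        exact absurd hab.symm (him' b hb')
      · omega
    · intro j hj
      rcases Nat.le_succ_iff.1 hj with hj' | hj'
      · rw [hupd j hj']
        have := hctrl j hj'
        have e : K * (N : ℝ) ^ (m + 1 - j) = K * N * (N : ℝ) ^ (m - j) := by
          rw [show m + 1 - j = (m - j) + 1 by omega, pow_succ]; ring
        rw [e]
        exact this
      · rw [hj', hfull]
        simpa using hC

/-- the constant of the ordering lemma -/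
noncomputable def KK (n : ℕ) : ℝ := (n : ℝ) ^ n

theorem one_le_KK {n : ℕ} (hn : 0 < n) : 1 ≤ KK n := by
  have : (1 : ℝ) ≤ n := by exact_mod_cast hn
  exact one_le_pow₀ this

theorem order {n : ℕ} (hn : 0 < n) (u : ℕ → Fin n → ℝ)
    (hu : LinearIndependent ℝ (fun i : Fin (n - 1) => u i)) :
    ∃ π : ℕ → Fin n, Set.InjOn π (Set.Iio n) ∧ π '' Set.Iio n = Set.univ ∧
      ∀ j ≤ n, ∀ x : Fin n → ℝ, (x ∈ Submodule.span ℝ (u '' Set.Iio j) ∨ j = n) →
        ∀ B : ℝ, 0 ≤ B → (∀ k < j, |x (π k)| ≤ B) → ∀ l, |x l| ≤ KK n * B := by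
  classical
  let V : ℕ → Submodule ℝ (Fin n → ℝ) := fun j =>
    if j < n then Submodule.span ℝ (u '' Set.Iio j) else ⊤
  have hNr : (1 : ℝ) ≤ n := by exact_mod_cast hn
  have hV : ∀ j < n, V j ≤ V (j + 1) := by
    intro j hj
    simp only [V, if_pos hj]
    split_ifs
    · apply Submodule.span_mono
      apply Set.image_mono
      intro a ha
      simp only [Set.mem_Iio] at ha ⊢
      omega
    · exact le_top
  have hdim : ∀ j ≤ n, finrank ℝ (V j) = j := by
    intro j hj
    by_cases h : j < n
    · have hVj : V j = Submodule.span ℝ (u '' Set.Iio j) := if_pos h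
      rw [hVj]
      have h1 : LinearIndependent ℝ (fun i : Fin j => u i) := by
        have := hu.comp (fun i : Fin j => (⟨i, by omega⟩ : Fin (n - 1))) (by
          intro a b hab
          simpa [Fin.ext_iff] using hab)
        exact this
      have h2 := finrank_span_eq_card h1
      rw [Fintype.card_fin] at h2
      have e : Set.range (fun i : Fin j => u i) = u '' Set.Iio j := by
        ext y
        simp only [Set.mem_range, Set.mem_image, Set.mem_Iio]
        constructor
        · rintro ⟨i, rfl⟩; exact ⟨i, i.2, rfl⟩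
        · rintro ⟨i, hi, rfl⟩; exact ⟨⟨i, hi⟩, rfl⟩
      rw [e] at h2
      exact h2
    · have hVj : V j = ⊤ := if_neg h
      have : j = n := by omega
      rw [hVj, finrank_top, finrank_fin_fun, this]
  have hC : Ctrl (V n) ((Finset.univ : Finset (Fin n)) : Set (Fin n)) 1 := by
    intro x _ B hB hx l
    rw [one_mul]
    exact hx l (by simp)
  obtain ⟨π, hinj, him, hctrl⟩ := exists_order hn V n hV hdim Finset.univ 1 (by simp) hC
  refine ⟨π, hinj, by simpa using him, ?_⟩
  intro j hj x hx B hB hxB l
  have hxV : x ∈ V j := by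
    simp only [V]
    split_ifs with h
    · rcases hx with hx | hx
      · exact hx
      · omega
    · trivial
  have h1 := hctrl j hj x hxV B hB (by
    rintro k ⟨a, ha, rfl⟩
    exact hxB a ha) l
  refine h1.trans ?_
  rw [one_mul]
  have h2 : (n : ℝ) ^ (n - j) ≤ KK n := pow_le_pow_right₀ hNr (by omega)
  nlinarith

theorem map_mem_span {n : ℕ} (Φ : (Fin n → ℤ) →ₗ[ℤ] (Fin n → ℝ)) (v : ℕ → Fin n → ℤ) (s : Set ℕ)
    {y : Fin n → ℤ} (hy : y ∈ Submodule.span ℤ (v '' s)) :
    Φ y ∈ Submodule.span ℝ ((fun j => Φ (v j)) '' s) := by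
  have h1 : Φ y ∈ Submodule.map Φ (Submodule.span ℤ (v '' s)) := Submodule.mem_map_of_mem hy
  rw [Submodule.map_span, Set.image_image] at h1
  exact Submodule.span_le_restrictScalars ℤ ℝ _ h1

theorem sum_two_pow (j : ℕ) : ∑ i : Fin j, (2 : ℝ) ^ (i : ℕ) = 2 ^ j - 1 := by
  rw [Fin.sum_univ_eq_sum_range (fun i => (2 : ℝ) ^ i)]
  induction j with
  | zero => simp
  | succ j ih => rw [Finset.sum_range_succ, ih, pow_succ]; ring

theorem image_eq_range (j : ℕ) {α : Type*} (u : ℕ → α) :
    u '' Set.Iio j = Set.range (fun i : Fin j => u i) := by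
  ext y
  simp only [Set.mem_range, Set.mem_image, Set.mem_Iio]
  constructor
  · rintro ⟨i, hi, rfl⟩; exact ⟨⟨i, hi⟩, rfl⟩
  · rintro ⟨i, rfl⟩; exact ⟨i, i.2, rfl⟩

theorem indep_of_span {n : ℕ} (Φ : (Fin n → ℤ) →ₗ[ℤ] (Fin n → ℝ)) (w w' : ℕ → Fin n → ℤ) (j : ℕ)
    (hu : LinearIndependent ℝ (fun i : Fin j => Φ (w i)))
    (h : ∀ i < j, w i ∈ Submodule.span ℤ (w' '' Set.Iic i)) :
    LinearIndependent ℝ (fun i : Fin j => Φ (w' i)) := by
  rw [linearIndependent_iff_card_le_finrank_span]
  rw [Fintype.card_fin]
  have h1 := finrank_span_eq_card hu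
  rw [Fintype.card_fin] at h1
  unfold Set.finrank
  conv_lhs => rw [← h1]
  apply Submodule.finrank_mono
  rw [Submodule.span_le]
  rintro _ ⟨i, rfl⟩
  have h2 := map_mem_span Φ w' _ (h i i.2)
  refine Submodule.span_mono ?_ h2
  rintro _ ⟨k, hk, rfl⟩
  exact ⟨⟨k, lt_of_le_of_lt hk i.2⟩, rfl⟩

/-- Reduction lemma: unitriangular integral change of the vectors making them small with respect
to a box adapted to the norms. -/
theorem reduction {n : ℕ} (hn : 0 < n) (Φ : (Fin n → ℤ) →ₗ[ℤ] (Fin n → ℝ)) (w : ℕ → Fin n → ℤ)
    (hu : LinearIndependent ℝ (fun i : Fin (n - 1) => Φ (w i))) (μ : ℕ → ℝ)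
    (hμ0 : ∀ j, 0 ≤ μ j) (hμ : ∀ i j, i ≤ j → j < n - 1 → μ i ≤ μ j)
    (hb : ∀ j < n - 1, ∀ l, |Φ (w j) l| ≤ μ j) :
    ∃ π : ℕ → Fin n, Set.InjOn π (Set.Iio n) ∧ π '' Set.Iio n = Set.univ ∧
      ∃ w' : ℕ → Fin n → ℤ,
        (∀ j < n - 1, w' j ∈ Submodule.span ℤ (w '' Set.Iic j)) ∧
        (∀ j < n - 1, ∀ k < n - 1, |Φ (w' j) (π k)| ≤ (1 + KK n) * 2 ^ n * μ k) ∧
        (∀ j < n - 1, ∀ l, |Φ (w' j) l| ≤ (1 + KK n) * 2 ^ n * μ j) ∧
        LinearIndependent ℝ (fun i : Fin (n - 1) => Φ (w' i)) := by
  classical
  obtain ⟨π, hinj, him, hctrl⟩ := order hn (fun j => Φ (w j)) hu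
  have hK := one_le_KK hn
  refine ⟨π, hinj, him, ?_⟩
  have key : ∀ j ≤ n - 1, ∃ w' : ℕ → Fin n → ℤ,
      (∀ i < j, w' i ∈ Submodule.span ℤ (w '' Set.Iic i)) ∧
      (∀ i < j, w i ∈ Submodule.span ℤ (w' '' Set.Iic i)) ∧
      (∀ i < j, ∀ k < n - 1, |Φ (w' i) (π k)| ≤ (1 + KK n) * 2 ^ i * μ k) ∧
      (∀ i < j, ∀ l, |Φ (w' i) l| ≤ (1 + KK n) * 2 ^ i * μ i) := by
    intro j
    induction j with
    | zero =>
      intro _
      exact ⟨w, by simp, by simp, by simp, by simp⟩
    | succ j ih =>
      intro hj
      obtain ⟨w', ha, hbb, hc, hd⟩ := ih (by omega)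
      have huj : LinearIndependent ℝ (fun i : Fin j => Φ (w i)) :=
        hu.comp (fun i : Fin j => (⟨i, by omega⟩ : Fin (n - 1))) (by
          intro a b hab
          simpa [Fin.ext_iff] using hab)
      have hu' := indep_of_span Φ w w' j huj hbb
      -- solve the linear system
      let T : (Fin j → ℝ) →ₗ[ℝ] (Fin j → ℝ) :=
        { toFun := fun c k => ∑ i : Fin j, c i * Φ (w' i) (π k)
          map_add' := by
            intro c d; ext k
            simp only [Pi.add_apply, add_mul, Finset.sum_add_distrib]
          map_smul' := by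
            intro a c; ext k
            simp only [Pi.smul_apply, smul_eq_mul, RingHom.id_apply, Finset.mul_sum, mul_assoc] }
      have hxV : ∀ c : Fin j → ℝ, (∑ i : Fin j, c i • Φ (w' i)) ∈
          Submodule.span ℝ ((fun j => Φ (w j)) '' Set.Iio j) := by
        intro c
        apply Submodule.sum_mem
        intro i _
        apply Submodule.smul_mem
        have h2 := map_mem_span Φ w _ (ha i i.2)
        refine Submodule.span_mono ?_ h2
        rintro _ ⟨k, hk, rfl⟩
        exact ⟨k, lt_of_le_of_lt hk i.2, rfl⟩
      have happ : ∀ (c : Fin j → ℝ) (l : Fin n), (∑ i : Fin j, c i • Φ (w' i)) l =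
          ∑ i : Fin j, c i * Φ (w' i) l := by
        intro c l
        simp [Finset.sum_apply]
      have hTinj : Function.Injective T := by
        rw [injective_iff_map_eq_zero]
        intro c hcz
        have hx0 : ∑ i : Fin j, c i • Φ (w' i) = 0 := by
          ext l
          have := hctrl j (by omega) _ (Or.inl (hxV c)) 0 le_rfl (by
            intro k hk
            rw [happ]
            have := congrFun hcz ⟨k, hk⟩
            simp only [T, LinearMap.coe_mk, AddHom.coe_mk, Pi.zero_apply] at this
            rw [this, abs_zero]) l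
          rw [mul_zero] at this
          simpa using abs_nonpos_iff.1 this
        have := Fintype.linearIndependent_iff.1 hu' c hx0
        ext i; exact this i
      have hTsurj := LinearMap.injective_iff_surjective.1 hTinj
      obtain ⟨c, hcT⟩ := hTsurj (fun k => Φ (w j) (π k))
      set x : Fin n → ℝ := ∑ i : Fin j, c i • Φ (w' i) with hx
      have hxπ : ∀ k < j, x (π k) = Φ (w j) (π k) := by
        intro k hk
        have := congrFun hcT ⟨k, hk⟩
        simp only [T, LinearMap.coe_mk, AddHom.coe_mk] at this
        rw [hx, happ, this]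
      have hjn : j < n - 1 := by omega
      have hxl : ∀ l, |x l| ≤ KK n * μ j :=
        hctrl j (by omega) x (Or.inl (hxV c)) (μ j) (hμ0 j) (fun k hk => by
          rw [hxπ k hk]; exact hb j hjn _)
      let wj : Fin n → ℤ := w j - ∑ i : Fin j, (round (c i)) • w' i
      have hΦ : ∀ l, Φ wj l = (Φ (w j) l - x l) + ∑ i : Fin j, (c i - round (c i)) * Φ (w' i) l := by
        intro l
        have e1 : Φ wj = Φ (w j) - ∑ i : Fin j, (round (c i)) • Φ (w' i) := by
          simp only [wj, map_sub, map_sum, map_smul]
        rw [e1, hx]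
        simp only [Pi.sub_apply, Finset.sum_apply, Pi.smul_apply]
        simp only [zsmul_eq_mul, smul_eq_mul, sub_mul, Finset.sum_sub_distrib]
        ring
      have hround : ∀ i, |c i - round (c i)| ≤ 1 := by
        intro i
        have := abs_sub_round (c i)
        linarith
      have hbig : ∀ l, |Φ wj l| ≤ (1 + KK n) * 2 ^ j * μ j := by
        intro l
        rw [hΦ]
        have h1 : |∑ t : Fin j, (c t - round (c t)) * Φ (w' t) l| ≤
            (1 + KK n) * μ j * (2 ^ j - 1) := by
          calc |∑ t : Fin j, (c t - round (c t)) * Φ (w' t) l|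
              ≤ ∑ t : Fin j, |(c t - round (c t)) * Φ (w' t) l| :=
                Finset.abs_sum_le_sum_abs _ _
            _ ≤ ∑ t : Fin j, (1 + KK n) * 2 ^ (t : ℕ) * μ j := by
                apply Finset.sum_le_sum
                intro t _
                rw [abs_mul]
                calc |c t - round (c t)| * |Φ (w' t) l| ≤ 1 * |Φ (w' t) l| := by
                      gcongr; exact hround t
                  _ ≤ (1 + KK n) * 2 ^ (t : ℕ) * μ t := by rw [one_mul]; exact hd t t.2 l
                  _ ≤ (1 + KK n) * 2 ^ (t : ℕ) * μ j := by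
                      have := hμ t j t.2.le hjn
                      gcongr
            _ = (1 + KK n) * μ j * (2 ^ j - 1) := by
                rw [← sum_two_pow, Finset.mul_sum]
                apply Finset.sum_congr rfl
                intro t _; ring
        have h2 : |Φ (w j) l - x l| ≤ μ j + KK n * μ j :=
          (abs_sub _ _).trans (add_le_add (hb j hjn l) (hxl l))
        calc |(Φ (w j) l - x l) + ∑ t : Fin j, (c t - round (c t)) * Φ (w' t) l|
            ≤ |Φ (w j) l - x l| + |∑ t : Fin j, (c t - round (c t)) * Φ (w' t) l| := abs_add_le _ _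
          _ ≤ (μ j + KK n * μ j) + (1 + KK n) * μ j * (2 ^ j - 1) := add_le_add h2 h1
          _ = (1 + KK n) * 2 ^ j * μ j := by ring
      refine ⟨Function.update w' j wj, ?_, ?_, ?_, ?_⟩
      · intro i hi
        rcases Nat.lt_succ_iff_lt_or_eq.1 hi with hi' | hi'
        · rw [Function.update_of_ne hi'.ne]
          exact ha i hi'
        · subst hi'
          rw [Function.update_self]
          apply Submodule.sub_mem
          · exact Submodule.subset_span ⟨i, by simp, rfl⟩
          · apply Submodule.sum_mem
            intro k _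
            apply Submodule.smul_mem
            refine Submodule.span_mono ?_ (ha k k.2)
            apply Set.image_mono
            intro a hak
            simp only [Set.mem_Iic] at hak ⊢
            omega
      · intro i hi
        rcases Nat.lt_succ_iff_lt_or_eq.1 hi with hi' | hi'
        · have e : (Function.update w' j wj) '' Set.Iic i = w' '' Set.Iic i := by
            apply Set.image_congr
            intro a hai
            rw [Function.update_of_ne]
            simp only [Set.mem_Iic] at hai
            omega
          rw [e]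
          exact hbb i hi'
        · subst hi'
          have e : w i = wj + ∑ k : Fin i, (round (c k)) • w' k := by
            simp only [wj]; abel
          rw [e]
          apply Submodule.add_mem
          · exact Submodule.subset_span ⟨i, by simp, by rw [Function.update_self]⟩
          · apply Submodule.sum_mem
            intro k _
            apply Submodule.smul_mem
            exact Submodule.subset_span ⟨k, by simp [k.2.le], by
              rw [Function.update_of_ne k.2.ne]⟩
      · intro i hi k hk
        rcases Nat.lt_succ_iff_lt_or_eq.1 hi with hi' | hi'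
        · rw [Function.update_of_ne hi'.ne]
          exact hc i hi' k hk
        · subst hi'
          rw [Function.update_self]
          by_cases hki : k < i
          · rw [hΦ, hxπ k hki, sub_self, zero_add]
            calc |∑ t : Fin i, (c t - round (c t)) * Φ (w' t) (π k)|
                ≤ ∑ t : Fin i, |(c t - round (c t)) * Φ (w' t) (π k)| :=
                  Finset.abs_sum_le_sum_abs _ _
              _ ≤ ∑ t : Fin i, (1 + KK n) * 2 ^ (t : ℕ) * μ k := by
                  apply Finset.sum_le_sum
                  intro t _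
                  rw [abs_mul]
                  calc |c t - round (c t)| * |Φ (w' t) (π k)| ≤ 1 * |Φ (w' t) (π k)| := by
                        gcongr; exact hround t
                    _ ≤ _ := by rw [one_mul]; exact hc t t.2 k hk
              _ = (1 + KK n) * μ k * (2 ^ i - 1) := by
                  rw [← sum_two_pow, Finset.mul_sum]
                  apply Finset.sum_congr rfl
                  intro t _; ring
              _ ≤ (1 + KK n) * 2 ^ i * μ k := by
                  have := hμ0 k
                  nlinarith [mul_nonneg (by linarith : (0:ℝ) ≤ 1 + KK n) this]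
          · refine (hbig _).trans ?_
            have := hμ i k (by omega) hk
            gcongr
      · intro i hi l
        rcases Nat.lt_succ_iff_lt_or_eq.1 hi with hi' | hi'
        · rw [Function.update_of_ne hi'.ne]
          exact hd i hi' l
        · subst hi'
          rw [Function.update_self]
          exact hbig l
  obtain ⟨w', ha, hbb, hc, hd⟩ := key (n - 1) le_rfl
  have hpow : ∀ i < n - 1, (2 : ℝ) ^ i ≤ 2 ^ n := by
    intro i hi
    exact pow_le_pow_right₀ (by norm_num) (by omega)
  refine ⟨w', ha, ?_, ?_, indep_of_span Φ w w' _ hu hbb⟩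
  · intro j hj k hk
    refine (hc j hj k hk).trans ?_
    have := hpow j hj
    have := hμ0 k
    gcongr
  · intro j hj l
    refine (hd j hj l).trans ?_
    have := hpow j hj
    have := hμ0 j
    gcongr

end Geom

end Pool.Agent.H393R2
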