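import Mathlib
import Pool.Agent.H393R2.Geom1

/-! TEAM-S, task 3 (geometry of numbers), part 2: Minkowski's theorem on linear forms, successive
minima and Minkowski's second theorem (for the sup norm). -/

set_option autoImplicit false

open Finset Module

namespace Pool.Agent.H393R2

namespace Geom

/-- the value of the forms at an integer point -/
noncomputable def app {n : ℕ} (L : Matrix (Fin n) (Fin n) ℝ) : (Fin n → ℤ) →ₗ[ℤ] (Fin n → ℝ) where
  toFun x := L.mulVec (fun i => (x i : ℝ))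
  map_add' x y := by
    rw [← Matrix.mulVec_add]
    congr 1
    ext i
    simp
  map_smul' a x := by
    ext l
    simp only [Matrix.mulVec, dotProduct, Pi.smul_apply, RingHom.id_apply, zsmul_eq_mul,
      smul_eq_mul, Int.cast_mul, Finset.mul_sum]
    apply Finset.sum_congr rfl
    intro i _
    ring

theorem app_apply {n : ℕ} (L : Matrix (Fin n) (Fin n) ℝ) (x : Fin n → ℤ) :
    app L x = L.mulVec (fun i => (x i : ℝ)) := rfl

open MeasureTheory in
/-- Minkowski's theorem on linear forms. -/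
theorem minkowski_forms {n : ℕ} (L : Matrix (Fin n) (Fin n) ℝ) (hL : L.det ≠ 0) (c : Fin n → ℝ)
    (hc : ∀ l, 0 < c l) (hprod : |L.det| < ∏ l, c l) :
    ∃ x : Fin n → ℤ, x ≠ 0 ∧ ∀ l, |app L x l| ≤ c l := by
  classical
  let b := Pi.basisFun ℝ (Fin n)
  let Λ : AddSubgroup (Fin n → ℝ) := (Submodule.span ℤ (Set.range b)).toAddSubgroup
  have hcount : Countable Λ := by
    change Countable (Submodule.span ℤ (Set.range b))
    infer_instance
  have fund := ZSpan.isAddFundamentalDomain' b (volume : Measure (Fin n → ℝ))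
  let f : (Fin n → ℝ) →ₗ[ℝ] (Fin n → ℝ) := Matrix.toLin' L
  let box : Set (Fin n → ℝ) := Set.Icc (fun l => -c l) c
  have hvol : volume (ZSpan.fundamentalDomain b) = 1 := by
    rw [ZSpan.volume_fundamentalDomain]
    have : Matrix.of ⇑b = (1 : Matrix (Fin n) (Fin n) ℝ) := by
      ext i j
      simp [b, Pi.basisFun_apply, Matrix.one_apply, Pi.single_apply, eq_comm]
    rw [this]
    simp
  have hdet : LinearMap.det f = L.det := by simp [f]
  have hs : volume (f ⁻¹' box) = ENNReal.ofReal (|(L.det)⁻¹| * ∏ l, (2 * c l)) := by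
    rw [Measure.addHaar_preimage_linearMap volume (by rw [hdet]; exact hL), hdet,
      Real.volume_Icc_pi, ENNReal.ofReal_mul (abs_nonneg _), ENNReal.ofReal_prod_of_nonneg]
    · congr 1
      apply Finset.prod_congr rfl
      intro l _
      congr 1
      ring
    · intro l _
      have := hc l
      positivity
  have hlt : volume (ZSpan.fundamentalDomain b) * 2 ^ finrank ℝ (Fin n → ℝ) <
      volume (f ⁻¹' box) := by
    rw [hvol, one_mul, hs, finrank_fin_fun]
    have e : (2 : ENNReal) ^ n = ENNReal.ofReal (2 ^ n) := by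
      rw [ENNReal.ofReal_pow (by norm_num)]
      norm_num
    rw [e]
    apply (ENNReal.ofReal_lt_ofReal_iff_of_nonneg (by positivity)).2
    rw [Finset.prod_mul_distrib, Finset.prod_const, Finset.card_univ, Fintype.card_fin, abs_inv]
    have h1 : 0 < |L.det| := abs_pos.2 hL
    rw [inv_mul_eq_div, lt_div_iff₀ h1]
    have : (0 : ℝ) < 2 ^ n := by positivity
    nlinarith
  have hsymm : ∀ z ∈ f ⁻¹' box, -z ∈ f ⁻¹' box := by
    intro z hz
    have hz' : f z ∈ box := hz
    change f (-z) ∈ box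
    rw [map_neg]
    refine ⟨fun l => ?_, fun l => ?_⟩
    · have := hz'.2 l
      simp only [Pi.neg_apply]
      linarith
    · have := hz'.1 l
      simp only [Pi.neg_apply]
      linarith
  have hconv : Convex ℝ (f ⁻¹' box) := (convex_Icc _ _).linear_preimage f
  obtain ⟨x, hx0, hx⟩ := exists_ne_zero_mem_lattice_of_measure_mul_two_pow_lt_measure
    (L := Λ) fund hsymm hconv hlt
  have hxm : (x : Fin n → ℝ) ∈ Submodule.span ℤ (Set.range b) := x.2
  rw [Basis.mem_span_iff_repr_mem] at hxm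
  choose y hy using hxm
  have hy' : ∀ i, ((y i : ℤ) : ℝ) = (x : Fin n → ℝ) i := by
    intro i
    have := hy i
    simpa [b] using this
  refine ⟨y, ?_, ?_⟩
  · intro h0
    apply hx0
    ext i
    rw [← hy' i, h0]
    simp
  · intro l
    have h2 : app L y = f x := by
      rw [app_apply]
      simp only [f, Matrix.toLin'_apply]
      congr 1
      ext i
      exact hy' i
    rw [h2]
    have h3 : f x ∈ box := hx
    exact abs_le.2 ⟨h3.1 l, h3.2 l⟩

/-- bound for a determinant by row bounds -/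
theorem abs_det_le {n : ℕ} (M : Matrix (Fin n) (Fin n) ℝ) (B : Fin n → ℝ)
    (h : ∀ i l, |M i l| ≤ B i) : |M.det| ≤ (n.factorial : ℝ) * ∏ i, B i := by
  rw [Matrix.det_apply]
  calc |∑ σ : Equiv.Perm (Fin n), Equiv.Perm.sign σ • ∏ i, M (σ i) i|
      ≤ ∑ σ : Equiv.Perm (Fin n), |Equiv.Perm.sign σ • ∏ i, M (σ i) i| :=
        Finset.abs_sum_le_sum_abs _ _
    _ ≤ ∑ σ : Equiv.Perm (Fin n), ∏ i, B i := by
        apply Finset.sum_le_sum
        intro σ _
        have h1 : |Equiv.Perm.sign σ • ∏ i, M (σ i) i| = |∏ i, M (σ i) i| := by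
          rcases Int.units_eq_one_or (Equiv.Perm.sign σ) with h | h <;> simp [h]
        rw [h1, Finset.abs_prod]
        calc ∏ i, |M (σ i) i| ≤ ∏ i, B (σ i) :=
              Finset.prod_le_prod (fun i _ => abs_nonneg _) (fun i _ => h _ _)
          _ = ∏ i, B i := Equiv.prod_comp σ B
    _ = (n.factorial : ℝ) * ∏ i, B i := by
        rw [Finset.sum_const, Finset.card_univ, Fintype.card_perm, Fintype.card_fin, nsmul_eq_mul]

/-- finitely many integer points in a bounded region -/
theorem finite_small {n : ℕ} (L Ls : Matrix (Fin n) (Fin n) ℝ) (hLs : Ls.transpose * L = 1)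
    (R : ℝ) : {x : Fin n → ℤ | ‖app L x‖ ≤ R}.Finite := by
  classical
  have hrec : ∀ x : Fin n → ℤ, (fun i => (x i : ℝ)) = Ls.transpose.mulVec (app L x) := by
    intro x
    rw [app_apply, Matrix.mulVec_mulVec, hLs, Matrix.one_mulVec]
  let S : Fin n → ℝ := fun i => ∑ l, |Ls l i|
  have hb : ∀ x : Fin n → ℤ, ‖app L x‖ ≤ R → ∀ i, |(x i : ℝ)| ≤ S i * R := by
    intro x hx i
    have h1 := congrFun (hrec x) i
    simp only [Matrix.mulVec, dotProduct, Matrix.transpose_apply] at h1
    rw [h1]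
    calc |∑ l, Ls l i * app L x l| ≤ ∑ l, |Ls l i * app L x l| := Finset.abs_sum_le_sum_abs _ _
      _ ≤ ∑ l, |Ls l i| * R := by
          apply Finset.sum_le_sum
          intro l _
          rw [abs_mul]
          gcongr
          exact (norm_le_pi_norm (app L x) l).trans hx
      _ = S i * R := by rw [Finset.sum_mul]
  apply Set.Finite.subset (Set.finite_Icc (fun i => -⌈S i * R⌉) (fun i => ⌈S i * R⌉))
  intro x hx
  have h1 := hb x hx
  refine ⟨fun i => ?_, fun i => ?_⟩
  · have h2 := (abs_le.1 (h1 i)).1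
    have h3 := Int.le_ceil (S i * R)
    have : ((-⌈S i * R⌉ : ℤ) : ℝ) ≤ (x i : ℝ) := by push_cast; linarith
    exact_mod_cast this
  · have h2 := (abs_le.1 (h1 i)).2
    have h3 := Int.le_ceil (S i * R)
    have : (x i : ℝ) ≤ ((⌈S i * R⌉ : ℤ) : ℝ) := by linarith
    exact_mod_cast this

/-- Cramer's identity for rows -/
theorem cramer_rows {n : ℕ} (G : Matrix (Fin n) (Fin n) ℤ) (x : Fin n → ℤ) :
    G.det • x = ∑ k, (G.updateRow k x).det • G k := by
  have h := Matrix.mulVec_cramer G.transpose x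
  rw [Matrix.det_transpose] at h
  rw [← h]
  ext i
  simp only [Matrix.mulVec, dotProduct, Matrix.transpose_apply, Matrix.cramer_transpose_apply,
    Finset.sum_apply, Pi.smul_apply, smul_eq_mul]
  apply Finset.sum_congr rfl
  intro k _
  ring

/-- successive minima -/
theorem minima {n : ℕ} (L Ls : Matrix (Fin n) (Fin n) ℝ) (hLs : Ls.transpose * L = 1) :
    ∃ G : Matrix (Fin n) (Fin n) ℤ, G.det ≠ 0 ∧
      (∀ i j : Fin n, i ≤ j → ‖app L (G i)‖ ≤ ‖app L (G j)‖) ∧
      ∀ (x : Fin n → ℤ) (i j : Fin n), j ≤ i → (G.updateRow i x).det ≠ 0 →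
        ‖app L (G j)‖ ≤ ‖app L x‖ := by
  classical
  let Ψ : Matrix (Fin n) (Fin n) ℤ → ℝ := fun G => ∑ j, ‖app L (G j)‖
  let R : ℝ := Ψ 1
  let A : Set (Fin n → Fin n → ℤ) := {G | (∀ j, ‖app L (G j)‖ ≤ R) ∧ (Matrix.of G).det ≠ 0}
  have hAfin : A.Finite := by
    have h1 : (Set.univ.pi (fun _ : Fin n => {x : Fin n → ℤ | ‖app L x‖ ≤ R})).Finite :=
      Set.Finite.pi' (fun _ => finite_small L Ls hLs R) |>.subset (by
        intro g hg i; exact hg i (Set.mem_univ _))
    apply h1.subset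
    intro G hG i _
    exact hG.1 i
  have hle : ∀ G : Matrix (Fin n) (Fin n) ℤ, ∀ j, ‖app L (G j)‖ ≤ Ψ G := by
    intro G j
    exact Finset.single_le_sum (f := fun j => ‖app L (G j)‖) (fun i _ => norm_nonneg _)
      (Finset.mem_univ j)
  have h1A : (fun i => (1 : Matrix (Fin n) (Fin n) ℤ) i) ∈ A := by
    refine ⟨fun j => hle 1 j, ?_⟩
    have : Matrix.of (fun i => (1 : Matrix (Fin n) (Fin n) ℤ) i) = 1 := rfl
    rw [this, Matrix.det_one]
    exact one_ne_zero
  obtain ⟨G0, hG0A, hG0min⟩ := Set.exists_min_image A (fun G => Ψ (Matrix.of G)) hAfin ⟨_, h1A⟩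
  have hglob : ∀ G : Matrix (Fin n) (Fin n) ℤ, G.det ≠ 0 → Ψ (Matrix.of G0) ≤ Ψ G := by
    intro G hG
    by_cases hGA : ∀ j, ‖app L (G j)‖ ≤ R
    · exact hG0min G ⟨hGA, hG⟩
    · push Not at hGA
      obtain ⟨j, hj⟩ := hGA
      have h2 := hG0min _ h1A
      have h3 : Ψ (Matrix.of G0) ≤ R := h2
      linarith [hle G j]
  let σ := Tuple.sort (fun j => ‖app L (G0 j)‖)
  let G : Matrix (Fin n) (Fin n) ℤ := fun i => G0 (σ i)
  have hmono : Monotone (fun i => ‖app L (G i)‖) := Tuple.monotone_sort (fun j => ‖app L (G0 j)‖)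
  have hΨG : Ψ G = Ψ (Matrix.of G0) := by
    exact Equiv.sum_comp σ (fun j => ‖app L (G0 j)‖)
  have hdet : G.det ≠ 0 := by
    have : G = (Matrix.of G0).submatrix σ id := rfl
    rw [this, Matrix.det_permute]
    apply mul_ne_zero _ hG0A.2
    rcases Int.units_eq_one_or (Equiv.Perm.sign σ) with h | h <;> simp [h]
  refine ⟨G, hdet, fun i j hij => hmono hij, ?_⟩
  intro x i j hji hx
  refine (hmono hji).trans ?_
  have h4 := hglob _ hx
  rw [← hΨG] at h4
  simp only [Ψ] at h4
  rw [← Finset.add_sum_erase _ _ (Finset.mem_univ i),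
    ← Finset.add_sum_erase (a := i) _ (fun j => ‖app L ((G.updateRow i x) j)‖)
      (Finset.mem_univ i)] at h4
  have h5 : ∑ k ∈ Finset.univ.erase i, ‖app L ((G.updateRow i x) k)‖ =
      ∑ k ∈ Finset.univ.erase i, ‖app L (G k)‖ := by
    apply Finset.sum_congr rfl
    intro k hk
    rw [Matrix.updateRow_ne (Finset.ne_of_mem_erase hk)]
  rw [h5, Matrix.updateRow_self] at h4
  linarith

end Geom

end Pool.Agent.H393R2
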