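import Mathlib
import Pool.Agent.H393R2.Geom3

/-! TEAM-S, task 3 (geometry of numbers), part 4: the final statement. -/

set_option autoImplicit false

open Finset Module

namespace Pool.Agent.H393R2

namespace Geom

/-- constant of the dual bound -/
noncomputable def C1 (n : ℕ) : ℝ := (n.factorial : ℝ) * (2 * KK n) ^ n

/-- constant of the reduction -/
noncomputable def C2 (n : ℕ) : ℝ := (1 + KK n) * 2 ^ n

theorem one_le_C1 {n : ℕ} (hn : 0 < n) : 1 ≤ C1 n := by
  have h1 : (1 : ℝ) ≤ (n.factorial : ℝ) := by exact_mod_cast Nat.succ_le_of_lt n.factorial_pos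
  have h2 : (1 : ℝ) ≤ (2 * KK n) ^ n := one_le_pow₀ (by have := one_le_KK hn; linarith)
  exact one_le_mul_of_one_le_of_one_le h1 h2

theorem one_le_C2 {n : ℕ} (hn : 0 < n) : 1 ≤ C2 n := by
  have h1 : (1 : ℝ) ≤ 1 + KK n := by have := one_le_KK hn; linarith
  have h2 : (1 : ℝ) ≤ 2 ^ n := one_le_pow₀ (by norm_num)
  exact one_le_mul_of_one_le_of_one_le h1 h2

theorem prod_range_split {n : ℕ} (hn : 2 ≤ n) (f : ℕ → ℝ) :
    ∏ k : Fin n, f (min (k : ℕ) (n - 2)) = (∏ k ∈ Finset.range (n - 1), f k) * f (n - 2) := by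
  rw [Fin.prod_univ_eq_prod_range (fun k => f (min k (n - 2))) n]
  obtain ⟨m, rfl⟩ : ∃ m, n = m + 2 := ⟨n - 2, by omega⟩
  have e1 : m + 2 - 2 = m := by omega
  have e2 : m + 2 - 1 = m + 1 := by omega
  rw [e1, e2, Finset.prod_range_succ]
  congr 1
  · apply Finset.prod_congr rfl
    intro k hk
    rw [Finset.mem_range] at hk
    rw [min_eq_left (by omega)]
  · rw [min_eq_right (by omega)]

theorem prod_rev_split {n : ℕ} (hn : 2 ≤ n) (f : Fin n → ℝ) :
    ∏ j, f j = f ⟨0, by omega⟩ *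
      ∏ k ∈ Finset.range (n - 1), f ⟨n - 1 - k, by omega⟩ := by
  have h5 : ∏ j, f j = ∏ k ∈ Finset.range n, f ⟨n - 1 - k, by omega⟩ := by
    rw [← Equiv.prod_comp Fin.revPerm f,
      ← Fin.prod_univ_eq_prod_range (fun k => f ⟨n - 1 - k, by omega⟩) n]
    apply Finset.prod_congr rfl
    intro k _
    have : Fin.revPerm k = ⟨n - 1 - (k : ℕ), by omega⟩ := by
      rw [Fin.revPerm_apply, Fin.ext_iff, Fin.val_rev]
      simp only
      omega
    rw [this]
  rw [h5]
  have h6 : n = (n - 1) + 1 := by omega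
  have h7 : Finset.range n = Finset.range ((n - 1) + 1) := by rw [← h6]
  rw [h7, Finset.prod_range_succ, mul_comm]
  have h8 : (⟨n - 1 - (n - 1), by omega⟩ : Fin n) = ⟨0, by omega⟩ := by
    rw [Fin.mk.injEq]; omega
  rw [h8]

end Geom

open Geom

theorem geometry (n : ℕ) (hn : 2 ≤ n) :
    ∃ C : ℝ, 1 ≤ C ∧ ∀ (L Ls : Matrix (Fin n) (Fin n) ℝ), |L.det| = 1 → Ls.transpose * L = 1 →
      ∀ (x : Fin n → ℤ), x ≠ 0 → ∀ κ₁ κ₂ κ₃ : ℝ, 0 < κ₁ → 0 < κ₃ → C * κ₁ < κ₂ →
        (∀ l, |(L.mulVec (fun i => (x i : ℝ))) l| ≤ κ₁) →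
        (∀ x' : Fin n → ℤ, LinearIndependent ℤ ![x, x'] →
          ∃ l, κ₂ ≤ |(L.mulVec (fun i => (x' i : ℝ))) l|) →
        (∀ w : Fin n → ℤ, w ≠ 0 → ∃ l, κ₃ ≤ |(Ls.mulVec (fun i => (w i : ℝ))) l|) →
        ∃ A : Fin n → ℝ, (∀ l, κ₃ ≤ A l ∧ A l ≤ C / κ₂) ∧ ∏ l, A l ≤ C * κ₁ / κ₂ ∧
          ∃ w : Fin (n - 1) → Fin n → ℤ, LinearIndependent ℤ w ∧
            (∀ i, ∑ l, x l * w i l = 0) ∧
            ∀ i l, |(Ls.mulVec (fun j => (w i j : ℝ))) l| ≤ A l := by
  classical
  have hn0 : 0 < n := by omega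
  have hC1 := one_le_C1 hn0
  have hC2 := one_le_C2 hn0
  have hfac : (1 : ℝ) ≤ (n.factorial : ℝ) := by exact_mod_cast Nat.succ_le_of_lt n.factorial_pos
  have hC1n : (1 : ℝ) ≤ C1 n ^ n := one_le_pow₀ hC1
  have hC2n : (1 : ℝ) ≤ C2 n ^ n := one_le_pow₀ hC2
  have hC : 1 ≤ C2 n ^ n * C1 n ^ n * (n.factorial : ℝ) :=
    one_le_mul_of_one_le_of_one_le (one_le_mul_of_one_le_of_one_le hC2n hC1n) hfac
  have hCC : C2 n * C1 n ≤ C2 n ^ n * C1 n ^ n * (n.factorial : ℝ) := by
    have h1 : C2 n ≤ C2 n ^ n := le_self_pow₀ hC2 (by omega)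
    have h2 : C1 n ≤ C1 n ^ n := le_self_pow₀ hC1 (by omega)
    calc C2 n * C1 n ≤ C2 n ^ n * C1 n ^ n := by
          apply mul_le_mul h1 h2 (by linarith) (by positivity)
      _ ≤ C2 n ^ n * C1 n ^ n * (n.factorial : ℝ) :=
          le_mul_of_one_le_right (by positivity) hfac
  refine ⟨C2 n ^ n * C1 n ^ n * (n.factorial : ℝ), hC, ?_⟩
  generalize hCdef : C2 n ^ n * C1 n ^ n * (n.factorial : ℝ) = C at hC hCC ⊢
  intro L Ls hL hLs x hx κ₁ κ₂ κ₃ hκ₁ hκ₃ hκ hxs hx2 hdual
  have hL0 : L.det ≠ 0 := by intro h; rw [h] at hL; simp at hL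
  have hκ₁₂ : κ₁ < κ₂ := lt_of_le_of_lt (le_mul_of_one_le_left hκ₁.le hC) hκ
  have hκ₂ : 0 < κ₂ := hκ₁.trans hκ₁₂
  obtain ⟨G, hG, hmono, hmin⟩ := minima L Ls hLs
  have hup := prod_upper L G hn0 hL hG hmono hmin
  have hlow := prod_lower L G hL hG
  have hlam := lam_pos L G hL0 hG
  have hxnorm : ‖app L x‖ ≤ κ₁ := by
    rw [pi_norm_le_iff_of_nonneg hκ₁.le]
    intro l
    exact hxs l
  -- first minimum
  have hl0 : ‖app L (G ⟨0, hn0⟩)‖ ≤ κ₁ := by
    obtain ⟨k, hk⟩ := exists_update_ne G hG hx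
    exact (hmin x k ⟨0, hn0⟩ (Fin.mk_le_of_le_val (Nat.zero_le _)) hk).trans hxnorm
  have hbig : ∀ x' : Fin n → ℤ, LinearIndependent ℤ ![x, x'] → κ₂ ≤ ‖app L x'‖ := by
    intro x' hx'
    obtain ⟨l, hl⟩ := hx2 x' hx'
    exact hl.trans (norm_le_pi_norm (app L x') l)
  have hdep : ¬ LinearIndependent ℤ ![x, G ⟨0, hn0⟩] := by
    intro h
    have := hbig _ h
    linarith
  have hG0 : G ⟨0, hn0⟩ ≠ 0 := by
    intro h
    have := hlam ⟨0, hn0⟩
    rw [h, map_zero, norm_zero] at this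
    exact lt_irrefl _ this
  obtain ⟨s, t, hst, hs⟩ : ∃ s t : ℤ, s • x + t • G ⟨0, hn0⟩ = 0 ∧ s ≠ 0 := by
    rw [LinearIndependent.pair_iff] at hdep
    push Not at hdep
    obtain ⟨s, t, h1, h2⟩ := hdep
    refine ⟨s, t, h1, ?_⟩
    intro hs
    have ht := h2 hs
    rw [hs, zero_smul, zero_add] at h1
    rcases smul_eq_zero.1 h1 with h3 | h3
    · exact ht h3
    · exact hG0 h3
  have ht : t ≠ 0 := by
    intro ht
    rw [ht, zero_smul, add_zero] at hst
    rcases smul_eq_zero.1 hst with h3 | h3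
    · exact hs h3
    · exact hx h3
  have hGind : LinearIndependent ℤ (fun j : Fin n => G j) := by
    have h1 := (indep_rows L G hL0 hG).restrict_scalars' ℤ
    exact LinearIndependent.of_comp (app L) h1
  -- second minimum
  have hl1 : κ₂ ≤ ‖app L (G ⟨1, by omega⟩)‖ := by
    apply hbig
    rw [LinearIndependent.pair_iff]
    intro a b hab
    have h01 : (⟨0, hn0⟩ : Fin n) ≠ ⟨1, by omega⟩ := by
      intro h; simp [Fin.ext_iff] at h
    have h2 : LinearIndependent ℤ ![G ⟨0, hn0⟩, G ⟨1, by omega⟩] := by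
      have h3 := hGind.comp ![(⟨0, hn0⟩ : Fin n), ⟨1, by omega⟩] (by
        intro p q hpq
        fin_cases p <;> fin_cases q <;> simp_all)
      convert h3 using 1
      ext p
      fin_cases p <;> rfl
    rw [LinearIndependent.pair_iff] at h2
    have h4 := h2 (-(a * t)) (s * b) (by
      have : (-(a * t)) • G ⟨0, hn0⟩ + (s * b) • G ⟨1, by omega⟩
          = s • (a • x + b • G ⟨1, by omega⟩) - a • (s • x + t • G ⟨0, hn0⟩) := by
        module
      rw [this, hab, hst]; simp)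
    obtain ⟨h5, h6⟩ := h4
    rw [neg_eq_zero] at h5
    exact ⟨(mul_eq_zero.1 h5).resolve_right ht, (mul_eq_zero.1 h6).resolve_left hs⟩
  -- orthogonality of the dual vectors
  have horth : ∀ j : Fin n, j ≠ ⟨0, hn0⟩ → ∑ l, x l * dual G j l = 0 := by
    intro j hj
    have h1 := dual_orth G (i := ⟨0, hn0⟩) (j := j) (Ne.symm hj)
    have h2 : s * ∑ l, x l * dual G j l + t * ∑ l, G ⟨0, hn0⟩ l * dual G j l = 0 := by
      rw [Finset.mul_sum, Finset.mul_sum, ← Finset.sum_add_distrib]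
      apply Finset.sum_eq_zero
      intro l _
      have h3 := congrFun hst l
      simp only [Pi.add_apply, Pi.smul_apply, smul_eq_mul, Pi.zero_apply] at h3
      linear_combination (dual G j l) * h3
    rw [h1, mul_zero, add_zero] at h2
    exact (mul_eq_zero.1 h2).resolve_left hs
  -- reduction
  let w : ℕ → Fin n → ℤ := fun k => dual G ⟨n - 1 - k, by omega⟩
  let μ : ℕ → ℝ := fun k => C1 n / ‖app L (G ⟨n - 1 - k, by omega⟩)‖
  have hμ0 : ∀ j, 0 < μ j := fun j => div_pos (by linarith) (hlam _)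
  have hμmono : ∀ i j, i ≤ j → μ i ≤ μ j := by
    intro i j hij
    simp only [μ]
    have h1 := hmono ⟨n - 1 - j, by omega⟩ ⟨n - 1 - i, by omega⟩ (by
      rw [Fin.le_def]; simp only; omega)
    have h2 := hlam ⟨n - 1 - j, by omega⟩
    gcongr
  have hwb : ∀ j l, |app Ls (w j) l| ≤ μ j := by
    intro j l
    exact dual_bound L Ls G hL hLs hG hup _ l
  have hwind : LinearIndependent ℝ (fun i : Fin (n - 1) => app Ls (w i)) := by
    have h1 := (dual_indep L Ls G hL0 hLs hG).comp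
      (fun i : Fin (n - 1) => (⟨n - 1 - i, by omega⟩ : Fin n)) (by
        intro a b hab
        simp only [Fin.ext_iff] at hab ⊢
        omega)
    exact h1
  obtain ⟨π, hinj, him, w', hspan, hb1, hb2, hind⟩ :=
    reduction hn0 (app Ls) w hwind μ (fun j => (hμ0 j).le) (fun i j hij _ => hμmono i j hij)
      (fun j _ l => hwb j l)
  have hbij : Function.Bijective (fun k : Fin n => π k) := by
    rw [Fintype.bijective_iff_injective_and_card]
    refine ⟨?_, rfl⟩
    intro a b hab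
    exact Fin.ext (hinj a.2 b.2 hab)
  let e : Fin n ≃ Fin n := Equiv.ofBijective _ hbij
  have he : ∀ l : Fin n, π (e.symm l) = l := fun l => e.apply_symm_apply l
  let A : Fin n → ℝ := fun l => C2 n * μ (min (e.symm l : ℕ) (n - 2))
  have hμtop : μ (n - 2) ≤ C1 n / κ₂ := by
    have h1 : (⟨n - 1 - (n - 2), by omega⟩ : Fin n) = ⟨1, by omega⟩ := by
      rw [Fin.mk.injEq]; omega
    simp only [μ, h1]
    gcongr
  have hC2pos : 0 < C2 n := by linarith
  have hC1pos : 0 < C1 n := by linarith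
  refine ⟨A, ?_, ?_, fun i => w' i, ?_, ?_, ?_⟩
  · intro l
    constructor
    · -- lower bound
      have hk : min (e.symm l : ℕ) (n - 2) < n - 1 := by omega
      set k := min (e.symm l : ℕ) (n - 2) with hkdef
      have hwne : w k ≠ 0 := by
        intro h
        have h1 := hwind.ne_zero ⟨k, hk⟩
        apply h1
        simp only [h, map_zero]
      obtain ⟨l', hl'⟩ := hdual (w k) hwne
      have h2 : κ₃ ≤ μ k := hl'.trans (hwb k l')
      have h3 : μ k ≤ C2 n * μ k := le_mul_of_one_le_left (hμ0 k).le hC2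
      exact h2.trans h3
    · have h1 : μ (min (e.symm l : ℕ) (n - 2)) ≤ μ (n - 2) := hμmono _ _ (min_le_right _ _)
      calc A l = C2 n * μ (min (e.symm l : ℕ) (n - 2)) := rfl
        _ ≤ C2 n * (C1 n / κ₂) := by
            apply mul_le_mul_of_nonneg_left (h1.trans hμtop) hC2pos.le
        _ = C2 n * C1 n / κ₂ := by ring
        _ ≤ C / κ₂ := by gcongr
  · -- product
    have h1 : ∏ l, A l = C2 n ^ n * ∏ k : Fin n, μ (min (k : ℕ) (n - 2)) := by
      simp only [A]
      rw [Finset.prod_mul_distrib, Finset.prod_const, Finset.card_univ, Fintype.card_fin,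
        Equiv.prod_comp e.symm (fun k : Fin n => μ (min (k : ℕ) (n - 2)))]
    rw [h1, prod_range_split hn μ]
    have h2 : (∏ k ∈ Finset.range (n - 1), μ k) ≤ C1 n ^ (n - 1) * ((n.factorial : ℝ) * κ₁) := by
      have h3 : ∏ k ∈ Finset.range (n - 1), μ k
          = C1 n ^ (n - 1) / ∏ k ∈ Finset.range (n - 1), ‖app L (G ⟨n - 1 - k, by omega⟩)‖ := by
        simp only [μ]
        rw [Finset.prod_div_distrib, Finset.prod_const, Finset.card_range]
      rw [h3, div_eq_mul_inv]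
      apply mul_le_mul_of_nonneg_left _ (by positivity)
      have hP : 0 < ∏ k ∈ Finset.range (n - 1), ‖app L (G ⟨n - 1 - k, by omega⟩)‖ :=
        Finset.prod_pos (fun k _ => hlam _)
      rw [inv_le_iff_one_le_mul₀ hP]
      rw [prod_rev_split hn (fun j => ‖app L (G j)‖)] at hlow
      have h9 : ‖app L (G ⟨0, hn0⟩)‖ * ∏ k ∈ Finset.range (n - 1),
          ‖app L (G ⟨n - 1 - k, by omega⟩)‖ ≤ κ₁ * ∏ k ∈ Finset.range (n - 1),
            ‖app L (G ⟨n - 1 - k, by omega⟩)‖ := mul_le_mul_of_nonneg_right hl0 hP.le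
      have h10 := mul_le_mul_of_nonneg_left h9 (by linarith : (0 : ℝ) ≤ (n.factorial : ℝ))
      have h11 := hlow.trans h10
      rw [← mul_assoc] at h11
      exact h11
    have hpow : C1 n ^ n = C1 n ^ (n - 1) * C1 n := by
      rw [← pow_succ]; congr 1; omega
    calc C2 n ^ n * ((∏ k ∈ Finset.range (n - 1), μ k) * μ (n - 2))
        ≤ C2 n ^ n * ((C1 n ^ (n - 1) * ((n.factorial : ℝ) * κ₁)) * (C1 n / κ₂)) := by
          apply mul_le_mul_of_nonneg_left _ (by positivity)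
          apply mul_le_mul h2 hμtop (hμ0 _).le (by positivity)
      _ = C * κ₁ / κ₂ := by
          rw [← hCdef, hpow]
          field_simp
  · have h1 := hind.restrict_scalars' ℤ
    exact LinearIndependent.of_comp (app Ls) h1
  · intro i
    have hi := hspan i i.2
    let f : (Fin n → ℤ) →ₗ[ℤ] ℤ := ∑ l, (x l) • LinearMap.proj l
    have hf : ∀ y : Fin n → ℤ, f y = ∑ l, x l * y l := by
      intro y
      simp [f, LinearMap.sum_apply]
    have hle : Submodule.span ℤ (w '' Set.Iic (i : ℕ)) ≤ LinearMap.ker f := by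
      rw [Submodule.span_le]
      rintro _ ⟨k, hk, rfl⟩
      simp only [Set.mem_Iic] at hk
      rw [SetLike.mem_coe, LinearMap.mem_ker, hf]
      apply horth
      intro h
      rw [Fin.mk.injEq] at h
      have := i.2
      omega
    have h2 := hle hi
    rw [LinearMap.mem_ker, hf] at h2
    exact h2
  · intro i l
    show |app Ls (w' i) l| ≤ A l
    by_cases hk : (e.symm l : ℕ) < n - 1
    · have h1 := hb1 i i.2 (e.symm l) hk
      rw [he] at h1
      simp only [A]
      rw [min_eq_left (by omega)]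
      exact h1
    · have h1 := hb2 i i.2 l
      refine h1.trans ?_
      simp only [A]
      have h3 : min (e.symm l : ℕ) (n - 2) = n - 2 := by omega
      rw [h3]
      apply mul_le_mul_of_nonneg_left (hμmono _ _ (by have := i.2; omega)) hC2pos.le

end Pool.Agent.H393R2

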