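import Mathlib
import Pool.Agent.H393R2.Gap

set_option autoImplicit false

open Finset

namespace Pool.Agent.H393R2

/-! ### matrices -/

noncomputable def Lmat (s : ℕ) (T : ℝ) (θ : Fin s → ℝ) : Matrix (Fin (s + 1)) (Fin (s + 1)) ℝ :=
  Matrix.of (Fin.cons (fun i => T ^ s * (Fin.cons 1 θ : Fin (s + 1) → ℝ) i)
    (fun j => fun i => if i = j.succ then T⁻¹ else 0))

noncomputable def Lsmat (s : ℕ) (T : ℝ) (θ : Fin s → ℝ) : Matrix (Fin (s + 1)) (Fin (s + 1)) ℝ :=
  Matrix.of (Fin.cons (fun i => if i = 0 then (T ^ s)⁻¹ else 0)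
    (fun j => (Fin.cons (-(T * θ j)) (fun k => if k = j then T else 0) : Fin (s + 1) → ℝ)))

lemma Lmat_det (s : ℕ) (T : ℝ) (hT : 0 < T) (θ : Fin s → ℝ) : (Lmat s T θ).det = 1 := by
  rw [Matrix.det_of_upperTriangular]
  · rw [Fin.prod_univ_succ]
    simp [Lmat]
    rw [mul_inv_cancel₀ (pow_ne_zero _ hT.ne')]
  · intro i j hij
    simp only [id] at hij
    unfold Lmat
    simp only [Matrix.of_apply]
    refine Fin.cases ?_ (fun k => ?_) i hij
    · intro h; exact absurd h (Fin.not_lt_zero _)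
    · intro h
      simp only [Fin.cons_succ]
      rw [if_neg (ne_of_lt h)]

lemma Lsmat_mul (s : ℕ) (T : ℝ) (hT : 0 < T) (θ : Fin s → ℝ) :
    (Lsmat s T θ).transpose * Lmat s T θ = 1 := by
  ext a c
  rw [Matrix.mul_apply, Fin.sum_univ_succ]
  simp only [Matrix.transpose_apply, Lsmat, Lmat, Matrix.of_apply, Fin.cons_zero, Fin.cons_succ]
  have hT' := hT.ne'
  refine Fin.cases ?_ (fun k => ?_) a
  · -- a = 0
    simp only [Fin.cons_zero, if_true]
    refine Fin.cases ?_ (fun k => ?_) c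
    · simp [Fin.succ_ne_zero, (Fin.succ_ne_zero _).symm]
      field_simp
    · simp only [Fin.cons_succ, Fin.succ_inj]
      rw [Finset.sum_eq_single k]
      · have : (1 : Matrix (Fin (s + 1)) (Fin (s + 1)) ℝ) 0 k.succ = 0 := by
          rw [Matrix.one_apply_ne]; exact (Fin.succ_ne_zero k).symm
        rw [this, if_pos rfl]
        field_simp
        ring
      · intro x _ hx
        rw [if_neg (Ne.symm hx), mul_zero]
      · intro h; exact absurd (Finset.mem_univ _) h
  · simp only [Fin.cons_succ]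
    rw [if_neg (Fin.succ_ne_zero k), zero_mul, zero_add]
    rw [Finset.sum_eq_single k]
    · rw [if_pos rfl]
      by_cases hc : c = k.succ
      · rw [if_pos hc, hc, Matrix.one_apply_eq]; field_simp
      · rw [if_neg hc, Matrix.one_apply_ne (Ne.symm hc), mul_zero]
    · intro x _ hx
      rw [if_neg (Ne.symm hx), zero_mul]
    · intro h; exact absurd (Finset.mem_univ _) h

lemma Lmat_mulVec_zero (s : ℕ) (T : ℝ) (θ : Fin s → ℝ) (x : Fin (s + 1) → ℝ) :
    ((Lmat s T θ).mulVec x) 0 = T ^ s * (x 0 + ∑ j, θ j * x j.succ) := by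
  simp only [Matrix.mulVec, dotProduct]
  rw [Fin.sum_univ_succ]
  simp only [Lmat, Matrix.of_apply, Fin.cons_zero, Fin.cons_succ]
  rw [mul_add, Finset.mul_sum]
  congr 1
  · ring
  · apply Finset.sum_congr rfl
    intro j _
    ring

lemma Lmat_mulVec_succ (s : ℕ) (T : ℝ) (θ : Fin s → ℝ) (x : Fin (s + 1) → ℝ) (j : Fin s) :
    ((Lmat s T θ).mulVec x) j.succ = T⁻¹ * x j.succ := by
  simp only [Matrix.mulVec, dotProduct]
  rw [Finset.sum_eq_single j.succ]
  · simp [Lmat]
  · intro i _ hi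
    simp only [Lmat, Matrix.of_apply, Fin.cons_succ]
    rw [if_neg hi, zero_mul]
  · intro h; exact absurd (Finset.mem_univ _) h

lemma Lsmat_mulVec_zero (s : ℕ) (T : ℝ) (θ : Fin s → ℝ) (x : Fin (s + 1) → ℝ) :
    ((Lsmat s T θ).mulVec x) 0 = (T ^ s)⁻¹ * x 0 := by
  simp only [Matrix.mulVec, dotProduct]
  rw [Fin.sum_univ_succ]
  simp [Lsmat, Fin.succ_ne_zero]

lemma Lsmat_mulVec_succ (s : ℕ) (T : ℝ) (θ : Fin s → ℝ) (x : Fin (s + 1) → ℝ) (j : Fin s) :
    ((Lsmat s T θ).mulVec x) j.succ = T * (x j.succ - θ j * x 0) := by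
  simp only [Matrix.mulVec, dotProduct]
  rw [Fin.sum_univ_succ]
  simp only [Lsmat, Matrix.of_apply, Fin.cons_zero, Fin.cons_succ]
  rw [Finset.sum_eq_single j]
  · rw [if_pos rfl]; ring
  · intro i _ hi
    rw [if_neg hi, zero_mul]
  · intro h; exact absurd (Finset.mem_univ _) h

/-! ### heights -/

/-- Liouville's inequality, convenient form -/
lemma liouville_log {ξ : ℝ} (hξ : IsAlgebraic ℚ ξ) (hirr : Irrational ξ) :
    ∃ D : ℝ, 1 ≤ D ∧ ∀ (p q : ℤ) (N : ℝ), D ≤ N → q ≠ 0 → |ξ - p / q| ≤ Real.exp (-N) →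
      N / D ≤ Real.log |(q : ℝ)| := by
  have hz : IsAlgebraic ℤ ξ := (IsFractionRing.isAlgebraic_iff ℤ ℚ ℝ).mpr hξ
  obtain ⟨f, hf0, hf⟩ := hz
  obtain ⟨A, hA, hL⟩ := Liouville.exists_pos_real_of_irrational_root hirr hf0
    (by
      rw [Polynomial.eval_map_algebraMap]; exact hf)
  set d : ℝ := (f.natDegree : ℝ) + 1 with hd
  set A' : ℝ := max 1 A with hA'
  have hA'1 : 1 ≤ A' := le_max_left _ _
  have hlogA : 0 ≤ Real.log A' := Real.log_nonneg hA'1
  refine ⟨max (2 * d) (2 * Real.log A'), ?_, ?_⟩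
  · refine le_trans ?_ (le_max_left _ _)
    rw [hd]
    have : (0 : ℝ) ≤ f.natDegree := Nat.cast_nonneg _
    linarith
  · intro p q N hN hq hpq
    have hN1 : 2 * d ≤ N := le_trans (le_max_left _ _) hN
    have hN2 : 2 * Real.log A' ≤ N := le_trans (le_max_right _ _) hN
    have hd1 : 1 ≤ d := by
      rw [hd]
      have : (0 : ℝ) ≤ f.natDegree := Nat.cast_nonneg _
      linarith
    -- write |q| = k + 1
    obtain ⟨k, hk⟩ : ∃ k : ℕ, q.natAbs = k + 1 := by
      refine ⟨q.natAbs - 1, ?_⟩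
      have : 0 < q.natAbs := Int.natAbs_pos.mpr hq
      omega
    have hqk : |(q : ℝ)| = (k : ℝ) + 1 := by
      rw [← Int.cast_abs, ← Int.natCast_natAbs, hk]
      push_cast
      ring
    obtain ⟨p', hp'⟩ : ∃ p' : ℤ, (p : ℝ) / q = (p' : ℝ) / ((k : ℝ) + 1) := by
      rcases le_or_gt 0 q with h0 | h0
      · refine ⟨p, ?_⟩
        rw [← hqk, abs_of_nonneg (by exact_mod_cast h0)]
      · refine ⟨-p, ?_⟩
        rw [← hqk, abs_of_neg (by exact_mod_cast h0)]
        push_cast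
        rw [neg_div_neg_eq]
    have h1 := hL p' k
    rw [← hp'] at h1
    have hk1 : (1 : ℝ) ≤ (k : ℝ) + 1 := by
      have : (0 : ℝ) ≤ k := Nat.cast_nonneg _
      linarith
    have hk0 : (0 : ℝ) < (k : ℝ) + 1 := by linarith
    have h2 : (1 : ℝ) ≤ ((k : ℝ) + 1) ^ f.natDegree * (Real.exp (-N) * A') := by
      refine le_trans h1 ?_
      apply mul_le_mul_of_nonneg_left _ (by positivity)
      exact mul_le_mul hpq (le_max_right _ _) hA.le (Real.exp_pos _).le
    have h3 : 0 ≤ Real.log (((k : ℝ) + 1) ^ f.natDegree * (Real.exp (-N) * A')) :=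
      Real.log_nonneg h2
    rw [Real.log_mul (by positivity) (by positivity), Real.log_mul (by positivity) (by positivity),
      Real.log_exp, Real.log_pow] at h3
    have hlogk : 0 ≤ Real.log ((k : ℝ) + 1) := Real.log_nonneg hk1
    rw [hqk]
    have h4 : N / 2 ≤ d * Real.log ((k : ℝ) + 1) := by
      rw [hd]; nlinarith
    rw [div_le_iff₀ (lt_of_lt_of_le (by linarith) (le_max_left _ _))]
    have h5 : 2 * d ≤ max (2 * d) (2 * Real.log A') := le_max_left _ _
    nlinarith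

lemma exists_pq (u v : ℤ) (hu : u ≠ 0) : ∃ p q : ℤ, IsCoprime p q ∧ u * p = v * q ∧ q ≠ 0 := by
  have hg : (Int.gcd u v : ℤ) ≠ 0 := by
    intro h
    rw [Int.natCast_eq_zero, Int.gcd_eq_zero_iff] at h
    exact hu h.1
  refine ⟨v / Int.gcd u v, u / Int.gcd u v, ?_, ?_, ?_⟩
  · have := isCoprime_div_gcd_div_gcd (p := v) (q := u) hu
    rw [Int.gcd_comm]
    exact this
  · obtain ⟨a, ha⟩ := Int.gcd_dvd_left u v
    obtain ⟨c, hc⟩ := Int.gcd_dvd_right u v
    have h1 : u / (Int.gcd u v : ℤ) = a := by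
      apply Int.ediv_eq_of_eq_mul_right hg; exact ha
    have h2 : v / (Int.gcd u v : ℤ) = c := by
      apply Int.ediv_eq_of_eq_mul_right hg; exact hc
    rw [h1, h2]
    calc u * c = (Int.gcd u v : ℤ) * a * c := by rw [← ha]
      _ = ((Int.gcd u v : ℤ) * c) * a := by ring
      _ = v * a := by rw [← hc]
  · obtain ⟨a, ha⟩ := Int.gcd_dvd_left u v
    have h1 : u / (Int.gcd u v : ℤ) = a := by
      apply Int.ediv_eq_of_eq_mul_right hg; exact ha
    rw [h1]
    intro h
    apply hu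
    rw [ha, h, mul_zero]

/-- the height lemma -/
theorem heights {b : ℕ} (hb : 2 ≤ b) {ξ : ℝ} (hξ : IsAlgebraic ℚ ξ) (hirr : Irrational ξ)
    {s : ℕ} (g : Fin (s + 1) → ℕ) (hg : Function.Injective g) (δ : ℝ) (hδ : 0 < δ) :
    ∃ (j1 j2 : Fin (s + 2)), j1 ≠ 0 ∧ j1 ≠ j2 ∧ ∃ c : ℝ, 1 ≤ c ∧ ∃ L0 : ℕ, ∀ L β : ℕ, L0 ≤ L →
      δ * L ≤ β → ∀ (lam : Fin (s + 1) → ℤ) (P : ℤ), (∀ i, lam i ≠ 0) →
      (∀ i, |(lam i : ℝ)| ≤ Real.exp (δ / 2 * (L * Real.log b))) →
      |ξ * ∑ i, (lam i : ℝ) * (b : ℝ) ^ (L + g i * β) - P| ≤ Real.exp (-(δ * (L * Real.log b))) →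
      ∀ p q : ℤ, q ≠ 0 →
        (Fin.cons (-P) lam : Fin (s + 2) → ℤ) j1 * (b : ℤ) ^
            ((Fin.cons 0 (fun i => L + g i * β) : Fin (s + 2) → ℕ) j1) * p =
          -((Fin.cons (-P) lam : Fin (s + 2) → ℤ) j2 * (b : ℤ) ^
            ((Fin.cons 0 (fun i => L + g i * β) : Fin (s + 2) → ℕ) j2) * q) →
        (L * Real.log b) / c ≤ Real.log (max |(p : ℝ)| |(q : ℝ)|) := by
  have hbR : (2 : ℝ) ≤ b := by exact_mod_cast hb
  have hb0 : (0 : ℝ) < b := by linarith
  have hlogb : 0 < Real.log b := Real.log_pos (by linarith)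
  rcases Nat.eq_zero_or_pos s with hs | hs
  · subst hs
    obtain ⟨D, hD1, hD⟩ := liouville_log hξ hirr
    refine ⟨1, 0, by simp, by simp, D, hD1, ⌈D / Real.log b⌉₊, ?_⟩
    intro L β hL _ lam P hlam hle hf p q hq hpq
    have hLD : D ≤ L * Real.log b := by
      have h1 : D / Real.log b ≤ L := le_trans (Nat.le_ceil _) (by exact_mod_cast hL)
      rwa [div_le_iff₀ hlogb] at h1
    have h1 : (Fin.cons (-P) lam : Fin 2 → ℤ) 1 = lam 0 := rfl
    have h2 : (Fin.cons (-P) lam : Fin 2 → ℤ) 0 = -P := rfl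
    have h3 : (Fin.cons 0 (fun i => L + g i * β) : Fin 2 → ℕ) 1 = L + g 0 * β := rfl
    have h4 : (Fin.cons 0 (fun i => L + g i * β) : Fin 2 → ℕ) 0 = 0 := rfl
    have hpq' : lam 0 * (b : ℤ) ^ (L + g 0 * β) * p = P * q := by
      have := hpq
      rw [h1, h2, h3, h4] at this
      linarith
    have hpqR : (lam 0 : ℝ) * (b : ℝ) ^ (L + g 0 * β) * p = P * q := by exact_mod_cast hpq'
    have hqR : (q : ℝ) ≠ 0 := by exact_mod_cast hq
    have hPeq : (P : ℝ) = (lam 0 : ℝ) * (b : ℝ) ^ (L + g 0 * β) * (p / q) := by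
      field_simp
      linarith
    have hf' : |ξ - p / q| * (|(lam 0 : ℝ)| * (b : ℝ) ^ (L + g 0 * β)) ≤
        Real.exp (-(δ * (L * Real.log b))) := by
      have h5 : ξ * ∑ i : Fin 1, (lam i : ℝ) * (b : ℝ) ^ (L + g i * β) - P =
          (ξ - p / q) * ((lam 0 : ℝ) * (b : ℝ) ^ (L + g 0 * β)) := by
        rw [Fin.sum_univ_one, hPeq]; ring
      have h6 := hf
      rw [h5, abs_mul, abs_mul, abs_of_pos (by positivity : (0 : ℝ) < (b : ℝ) ^ (L + g 0 * β))]
        at h6
      exact h6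
    have hlam1 : (1 : ℝ) ≤ |(lam 0 : ℝ)| := by
      exact_mod_cast Int.one_le_abs (hlam 0)
    have hbpow : Real.exp (L * Real.log b) ≤ (b : ℝ) ^ (L + g 0 * β) := by
      have h7 : (b : ℝ) ^ (L : ℕ) = Real.exp (L * Real.log b) := by
        rw [← Real.rpow_natCast, Real.rpow_def_of_pos hb0, mul_comm]
      rw [← h7]
      exact pow_le_pow_right₀ (by linarith) (by omega)
    have hfin : |ξ - p / q| ≤ Real.exp (-(L * Real.log b)) := by
      have h8 : |ξ - p / q| * Real.exp (L * Real.log b) ≤ 1 := by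
        calc |ξ - p / q| * Real.exp (L * Real.log b)
            ≤ |ξ - p / q| * (|(lam 0 : ℝ)| * (b : ℝ) ^ (L + g 0 * β)) := by
              apply mul_le_mul_of_nonneg_left _ (abs_nonneg _)
              calc Real.exp (L * Real.log b) = 1 * Real.exp (L * Real.log b) := (one_mul _).symm
                _ ≤ _ := mul_le_mul hlam1 hbpow (Real.exp_pos _).le (by positivity)
          _ ≤ Real.exp (-(δ * (L * Real.log b))) := hf'
          _ ≤ 1 := by
            rw [Real.exp_le_one_iff]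
            have : 0 ≤ δ * (L * Real.log b) := by positivity
            linarith
      rw [Real.exp_neg, ← one_div, le_div_iff₀ (Real.exp_pos _)]
      exact h8
    have h9 := hD p q (L * Real.log b) hLD hq hfin
    refine le_trans h9 ?_
    apply Real.log_le_log (abs_pos.mpr hqR)
    exact le_max_right _ _
  · -- two indices
    obtain ⟨i1, i2, hi⟩ : ∃ i1 i2 : Fin (s + 1), g i1 < g i2 := by
      have hne : (0 : Fin (s + 1)) ≠ ⟨1, by omega⟩ := by
        intro h
        have := congrArg Fin.val h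
        simp at this
      rcases lt_or_gt_of_ne (fun h => hne (hg h)) with h | h
      · exact ⟨_, _, h⟩
      · exact ⟨_, _, h⟩
    refine ⟨i1.succ, i2.succ, Fin.succ_ne_zero _, ?_, max 1 (2 / δ), le_max_left _ _, 1, ?_⟩
    · intro h
      have := Fin.succ_injective _ h
      rw [this] at hi
      exact lt_irrefl _ hi
    · intro L β hL hLβ lam P hlam hle hf p q hq hpq
      simp only [Fin.cons_succ] at hpq
      set N : ℝ := (L : ℝ) * Real.log b with hN
      have hN0 : 0 ≤ N := by rw [hN]; positivity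
      have hpqR : (lam i1 : ℝ) * (b : ℝ) ^ (L + g i1 * β) * p =
          -((lam i2 : ℝ) * (b : ℝ) ^ (L + g i2 * β) * q) := by exact_mod_cast hpq
      have habs : |(lam i1 : ℝ)| * (b : ℝ) ^ (L + g i1 * β) * |(p : ℝ)| =
          |(lam i2 : ℝ)| * (b : ℝ) ^ (L + g i2 * β) * |(q : ℝ)| := by
        have h1 := congrArg abs hpqR
        rw [abs_neg, abs_mul, abs_mul, abs_mul, abs_mul,
          abs_of_pos (by positivity : (0 : ℝ) < (b : ℝ) ^ (L + g i1 * β)),
          abs_of_pos (by positivity : (0 : ℝ) < (b : ℝ) ^ (L + g i2 * β))] at h1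
        exact h1
      have hq1 : (1 : ℝ) ≤ |(q : ℝ)| := by exact_mod_cast Int.one_le_abs hq
      have hlam2 : (1 : ℝ) ≤ |(lam i2 : ℝ)| := by exact_mod_cast Int.one_le_abs (hlam i2)
      have hexp : (b : ℝ) ^ (L + g i2 * β) = (b : ℝ) ^ (L + g i1 * β) *
          (b : ℝ) ^ ((g i2 - g i1) * β) := by
        rw [← pow_add]
        congr 1
        have : g i2 * β = g i1 * β + (g i2 - g i1) * β := by
          rw [← add_mul]; congr 1; omega
        omega
      have hbig : (b : ℝ) ^ ((g i2 - g i1) * β) ≤ |(lam i1 : ℝ)| * |(p : ℝ)| := by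
        have hbp : (0 : ℝ) < (b : ℝ) ^ (L + g i1 * β) := by positivity
        have h2 : (b : ℝ) ^ (L + g i1 * β) * (|(lam i1 : ℝ)| * |(p : ℝ)|) =
            (b : ℝ) ^ (L + g i1 * β) * (|(lam i2 : ℝ)| * (b : ℝ) ^ ((g i2 - g i1) * β) *
              |(q : ℝ)|) := by
          rw [hexp] at habs
          linarith
        have h3 := mul_left_cancel₀ hbp.ne' h2
        rw [h3]
        have hbb : (0 : ℝ) < (b : ℝ) ^ ((g i2 - g i1) * β) := by positivity
        calc (b : ℝ) ^ ((g i2 - g i1) * β) = 1 * (b : ℝ) ^ ((g i2 - g i1) * β) * 1 := by ring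
          _ ≤ |(lam i2 : ℝ)| * (b : ℝ) ^ ((g i2 - g i1) * β) * |(q : ℝ)| := by
            apply mul_le_mul _ hq1 (by norm_num) (by positivity)
            exact mul_le_mul_of_nonneg_right hlam2 hbb.le
      have hβ : Real.exp (δ * N) ≤ (b : ℝ) ^ ((g i2 - g i1) * β) := by
        have h4 : (b : ℝ) ^ (β : ℕ) = Real.exp (β * Real.log b) := by
          rw [← Real.rpow_natCast, Real.rpow_def_of_pos hb0, mul_comm]
        calc Real.exp (δ * N) ≤ Real.exp (β * Real.log b) := by
              apply Real.exp_le_exp.mpr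
              rw [hN, ← mul_assoc]
              exact mul_le_mul_of_nonneg_right hLβ hlogb.le
          _ = (b : ℝ) ^ β := h4.symm
          _ ≤ (b : ℝ) ^ ((g i2 - g i1) * β) := by
              apply pow_le_pow_right₀ (by linarith)
              have : 1 ≤ g i2 - g i1 := by omega
              nlinarith
      have hpbig : Real.exp (δ / 2 * N) ≤ |(p : ℝ)| := by
        have h5 : Real.exp (δ * N) ≤ Real.exp (δ / 2 * N) * |(p : ℝ)| := by
          refine le_trans hβ (le_trans hbig ?_)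
          exact mul_le_mul_of_nonneg_right (hle i1) (abs_nonneg _)
        have h6 : Real.exp (δ * N) = Real.exp (δ / 2 * N) * Real.exp (δ / 2 * N) := by
          rw [← Real.exp_add]; congr 1; ring
        rw [h6] at h5
        exact le_of_mul_le_mul_left h5 (Real.exp_pos _)
      have h7 : N / max 1 (2 / δ) ≤ δ / 2 * N := by
        rw [div_le_iff₀ (by positivity)]
        have h8 : 2 / δ ≤ max 1 (2 / δ) := le_max_right _ _
        have h9 : δ / 2 * (2 / δ) = 1 := by field_simp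
        calc N = δ / 2 * N * (2 / δ) := by linear_combination (-N) * h9
          _ ≤ δ / 2 * N * max 1 (2 / δ) := mul_le_mul_of_nonneg_left h8 (by positivity)
      refine le_trans h7 ?_
      rw [Real.le_log_iff_exp_le (lt_of_lt_of_le (by linarith) (le_max_right _ _))]
      exact le_trans hpbig (le_max_left _ _)

end Pool.Agent.H393R2
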